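import Pool.Agent.HamChrom.Cone

/-!
Counting the colourings of an arc.
-/

set_option autoImplicit false

namespace Pool.Agent.HamChrom

open Finset

/-- `prevf` handles the two-step term of the recursion. -/
noncomputable def prevf (β : ℕ) (F : List (Finset ℕ) → ℕ → ℝ) : List (Finset ℕ) → ℕ → ℝ
  | [], α => -(1 - ne01 α β)
  | B :: W, α => (if α ∈ B then 0 else 1) * F W α

/-- un-normalised version of `phi` (a polynomial in `x`). -/
noncomputable def ff (x : ℝ) (β : ℕ) : List (Finset ℕ) → ℕ → ℝ
  | [], α => ne01 α β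
  | [A], α => (2 - x) * ne01 α β - (x - 1) * (1 - ne01 α β) + ∑ γ ∈ A.erase α, ne01 γ β
  | A :: B :: W, α => (2 - x) * ff x β (B :: W) α + (x - 1) * ((if α ∈ B then 0 else 1) * ff x β W α)
      + ∑ γ ∈ A.erase α, ff x β (B :: W) γ

theorem ff_cons (x : ℝ) (β : ℕ) (A : Finset ℕ) (W : List (Finset ℕ)) (α : ℕ) :
    ff x β (A :: W) α = (2 - x) * ff x β W α + (x - 1) * prevf β (ff x β) W α
      + ∑ γ ∈ A.erase α, ff x β W γ := by
  cases W with
  | nil => simp only [ff, prevf]; ring
  | cons B W => rw [ff, prevf]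

/-- number of colourings of the arc with `k` colours -/
noncomputable def NN (k : ℕ) (β : ℕ) : List (Finset ℕ) → ℕ → ℝ
  | [], α => ne01 α β
  | A :: W, α => ∑ γ ∈ range k \ insert α A, NN k β W γ

theorem sum_ne01 (k β : ℕ) (hβ : β < k) : ∑ γ ∈ range k, ne01 γ β = (k : ℝ) - 1 := by
  have h1 : ∑ γ ∈ range k, ne01 γ β = ∑ γ ∈ range k, ((1 : ℝ) - if γ = β then 1 else 0) := by
    apply Finset.sum_congr rfl
    intro γ _
    unfold ne01
    split_ifs <;> ring
  rw [h1, Finset.sum_sub_distrib, Finset.sum_const, Finset.card_range, nsmul_eq_mul, mul_one,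
    Finset.sum_ite_eq' (range k) β (fun _ => (1 : ℝ)), if_pos (Finset.mem_range.2 hβ)]

theorem range_split (k α : ℕ) (A : Finset ℕ) (hα : α < k) (hA : A ⊆ range k) (g : ℕ → ℝ) :
    ∑ γ ∈ range k \ insert α A, g γ = ∑ γ ∈ range k, g γ - g α - ∑ γ ∈ A.erase α, g γ := by
  have h1 : insert α A ⊆ range k := Finset.insert_subset (Finset.mem_range.2 hα) hA
  have h2 := Finset.sum_sdiff (f := g) h1
  have h3 : insert α A = insert α (A.erase α) := by
    ext γ
    simp only [Finset.mem_insert, Finset.mem_erase]
    by_cases hγ : γ = α <;> simp [hγ]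
  have h4 : ∑ γ ∈ insert α A, g γ = g α + ∑ γ ∈ A.erase α, g γ := by
    rw [h3, Finset.sum_insert (Finset.notMem_erase α A)]
  linarith

/-- The arc count in terms of `ff`. -/
theorem NN_eq (k β : ℕ) (hβ : β < k) : ∀ (W : List (Finset ℕ)) (_ : ∀ A ∈ W, A ⊆ range k),
    (∀ α < k, (-1 : ℝ) ^ W.length * NN k β W α = ff k β W α) ∧
    (∀ α < k, ∑ γ ∈ range k, ff k β W γ = ((k : ℝ) - 1) * (ff k β W α - prevf β (ff k β) W α))
  | [], _ => by
    constructor
    · intro α _
      simp [NN, ff]
    · intro α _
      simp only [ff, prevf]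
      rw [sum_ne01 k β hβ]
      ring
  | A :: W, hW => by
    have hA : A ⊆ range k := hW A (by simp)
    obtain ⟨ih1, ih2⟩ := NN_eq k β hβ W (fun B hB => hW B (by simp [hB]))
    have h1 : ∀ α < k, (-1 : ℝ) ^ (A :: W).length * NN k β (A :: W) α
        = - ∑ γ ∈ range k \ insert α A, ff k β W γ := by
      intro α hα
      rw [NN, List.length_cons, pow_succ, Finset.mul_sum, ← Finset.sum_neg_distrib]
      apply Finset.sum_congr rfl
      intro γ hγ
      have hγk : γ < k := Finset.mem_range.1 (Finset.mem_sdiff.1 hγ).1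
      rw [← ih1 γ hγk]
      ring
    have h2 : ∀ α < k, (-1 : ℝ) ^ (A :: W).length * NN k β (A :: W) α = ff k β (A :: W) α := by
      intro α hα
      rw [h1 α hα, range_split k α A hα hA, ih2 α hα, ff_cons]
      ring
    refine ⟨h2, ?_⟩
    -- the sum over all colours
    have h3 : ∀ α < k, ff k β (A :: W) α = - ∑ γ ∈ range k \ insert α A, ff k β W γ := by
      intro α hα
      rw [← h2 α hα, h1 α hα]
    have h4 : ∑ α ∈ range k, ff k β (A :: W) α
        = - (((k : ℝ) - 1) * ∑ γ ∈ range k \ A, ff k β W γ) := by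
      have h5 : ∀ α ∈ range k, ff k β (A :: W) α
          = - ∑ γ ∈ range k \ A, (if γ = α then 0 else ff k β W γ) := by
        intro α hα
        rw [h3 α (Finset.mem_range.1 hα)]
        congr 1
        have h6 : range k \ insert α A = (range k \ A).filter (fun γ => ¬ γ = α) := by
          ext γ
          simp only [Finset.mem_sdiff, Finset.mem_insert, Finset.mem_filter, not_or]
          tauto
        rw [h6, Finset.sum_filter]
        apply Finset.sum_congr rfl
        intro γ _
        by_cases hγ : γ = α <;> simp [hγ]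
      rw [Finset.sum_congr rfl h5, Finset.sum_neg_distrib, Finset.sum_comm]
      congr 1
      rw [Finset.mul_sum]
      apply Finset.sum_congr rfl
      intro γ hγ
      have hγk : γ < k := Finset.mem_range.1 (Finset.mem_sdiff.1 hγ).1
      have h7 : ∑ α ∈ range k, (if γ = α then 0 else ff k β W γ)
          = ∑ α ∈ range k, ff k β W γ * ne01 α γ := by
        apply Finset.sum_congr rfl
        intro α _
        unfold ne01
        by_cases h : γ = α
        · simp [h]
        · rw [if_neg h, if_neg (fun h' => h h'.symm), mul_one]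
      rw [h7, ← Finset.mul_sum, sum_ne01 k γ hγk]
      ring
    intro α hα
    rw [h4]
    have h8 : ff k β (A :: W) α - prevf β (ff k β) (A :: W) α = - ∑ γ ∈ range k \ A, ff k β W γ := by
      rw [h3 α hα, prevf]
      by_cases hαA : α ∈ A
      · rw [if_pos hαA, Finset.insert_eq_of_mem hαA]
        ring
      · rw [if_neg hαA]
        have h9 : range k \ A = insert α (range k \ insert α A) := by
          ext γ
          simp only [Finset.mem_sdiff, Finset.mem_insert, not_or, Finset.mem_range]
          by_cases hγ : γ = α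
          · subst hγ
            simp [hα, hαA]
          · simp [hγ]
        rw [h9, Finset.sum_insert (by simp)]
        ring
    rw [h8]
    ring

theorem ff_isPoly (β : ℕ) : ∀ (W : List (Finset ℕ)) (α : ℕ), IsPoly (fun x => ff x β W α)
  | [], α => IsPoly.const _
  | [A], α => by
    simp only [ff]
    exact ((((IsPoly.const 2).sub IsPoly.id).mul (IsPoly.const _)).sub
      ((IsPoly.id.sub (IsPoly.const 1)).mul (IsPoly.const _))).add
      (IsPoly.sum _ _ (fun γ _ => IsPoly.const _))
  | A :: B :: W, α => by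
    simp only [ff]
    exact ((((IsPoly.const 2).sub IsPoly.id).mul (ff_isPoly β (B :: W) α)).add
      ((IsPoly.id.sub (IsPoly.const 1)).mul ((IsPoly.const _).mul (ff_isPoly β W α)))).add
      (IsPoly.sum _ _ (fun γ _ => ff_isPoly β (B :: W) γ))

theorem ff_inv (x : ℝ) (h : Equiv.Perm ℕ) (β : ℕ) : ∀ (W : List (Finset ℕ)) (α : ℕ),
    ff x (h β) (W.map (fun A => A.image h)) (h α) = ff x β W α
  | [], α => by simp [ff, ne01]
  | [A], α => by
    have h1 : (A.image h).erase (h α) = (A.erase α).image h := by
      rw [Finset.image_erase h.injective]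
    simp only [List.map_cons, List.map_nil, ff, h1]
    rw [Finset.sum_image (fun a _ b _ hab => h.injective hab)]
    simp [ne01]
  | A :: B :: W, α => by
    have h1 : (A.image h).erase (h α) = (A.erase α).image h := by
      rw [Finset.image_erase h.injective]
    have ih1 := ff_inv x h β W α
    have ih2 := fun γ => ff_inv x h β (B :: W) γ
    simp only [List.map_cons] at ih2
    simp only [List.map_cons, ff, h1]
    rw [Finset.sum_image (fun a _ b _ hab => h.injective hab), ih1]
    simp only [ih2]
    simp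

/-- `phi` is the normalised `ff`. -/
theorem ff_eq_phi (y : ℝ) (hy : y < 1) (β : ℕ) : ∀ (W : List (Finset ℕ)) (α : ℕ),
    ff (1 + y) β W α = (1 - y) ^ W.length * phi y β W α
  | [], α => by simp [ff, phi]
  | [A], α => by
    have hz : (1 - y) ≠ 0 := by
      intro h
      linarith
    simp only [ff, phi, List.length_cons, List.length_nil, zero_add, pow_one]
    field_simp
    ring
  | A :: B :: W, α => by
    have hz : (1 - y) ≠ 0 := by
      intro h
      linarith
    have ih1 := ff_eq_phi y hy β W α
    have ih2 := fun γ => ff_eq_phi y hy β (B :: W) γ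
    simp only [ff, phi, ih1, ih2, List.length_cons, ← Finset.mul_sum]
    field_simp
    ring

/-! ### the arc as a function -/

/-- proper colourings of an arc of `d` vertices -/
def pathOK : (d : ℕ) → (Fin d → Finset ℕ) → ℕ → (Fin d → ℕ) → ℕ → Prop
  | 0, _, α, _, β => α ≠ β
  | d + 1, A, α, g, β => g 0 ≠ α ∧ g 0 ∉ A 0 ∧ pathOK d (fun i => A i.succ) (g 0) (fun i => g i.succ) β

open Classical in
theorem sum_pathOK (k β : ℕ) : ∀ (d : ℕ) (A : Fin d → Finset ℕ) (α : ℕ),
    (∑ g : Fin d → Fin k, if pathOK d A α (fun i => (g i : ℕ)) β then (1 : ℝ) else 0)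
      = NN k β (List.ofFn A) α
  | 0, A, α => by
    rw [Fintype.sum_unique]
    simp only [pathOK, List.ofFn_zero, NN, ne01]
    by_cases h : α = β <;> simp [h]
  | d + 1, A, α => by
    have hR : (∑ g : Fin (d + 1) → Fin k, if pathOK (d + 1) A α (fun i => (g i : ℕ)) β then (1 : ℝ) else 0)
        = ∑ γ : Fin k, ∑ g : Fin d → Fin k,
          if pathOK (d + 1) A α (fun i => ((Fin.cons γ g : Fin (d + 1) → Fin k) i : ℕ)) β then (1 : ℝ) else 0 := by
      rw [← Fintype.sum_prod_type']
      symm
      apply Fintype.sum_equiv (Fin.consEquiv (fun _ => Fin k))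
      rintro ⟨γ, g⟩
      rfl
    rw [hR, List.ofFn_succ, NN]
    have h1 : ∀ γ : Fin k, (∑ g : Fin d → Fin k,
          if pathOK (d + 1) A α (fun i => ((Fin.cons γ g : Fin (d + 1) → Fin k) i : ℕ)) β then (1 : ℝ) else 0)
        = if (γ : ℕ) ∈ range k \ insert α (A 0) then NN k β (List.ofFn (fun i => A i.succ)) (γ : ℕ) else 0 := by
      intro γ
      by_cases hγ : (γ : ℕ) ∈ range k \ insert α (A 0)
      · rw [if_pos hγ, ← sum_pathOK k β d (fun i => A i.succ) (γ : ℕ)]
        apply Finset.sum_congr rfl
        intro g _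
        rw [Finset.mem_sdiff, Finset.mem_insert, not_or] at hγ
        have : pathOK (d + 1) A α (fun i => ((Fin.cons γ g : Fin (d + 1) → Fin k) i : ℕ)) β
            ↔ pathOK d (fun i => A i.succ) (γ : ℕ) (fun i => (g i : ℕ)) β := by
          simp only [pathOK, Fin.cons_zero, Fin.cons_succ]
          constructor
          · intro h
            exact h.2.2
          · intro h
            exact ⟨hγ.2.1, hγ.2.2, h⟩
        simp only [this]
      · rw [if_neg hγ]
        apply Finset.sum_eq_zero
        intro g _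
        rw [if_neg]
        intro h
        simp only [pathOK, Fin.cons_zero, Fin.cons_succ] at h
        apply hγ
        rw [Finset.mem_sdiff, Finset.mem_insert, not_or]
        exact ⟨Finset.mem_range.2 γ.2, h.1, h.2.1⟩
    rw [Finset.sum_congr rfl (fun γ _ => h1 γ)]
    rw [← Finset.sum_range (fun γ => if γ ∈ range k \ insert α (A 0) then
      NN k β (List.ofFn (fun i => A i.succ)) γ else 0)]
    rw [← Finset.sum_filter]
    apply Finset.sum_congr _ (fun _ _ => rfl)
    ext γ
    simp only [Finset.mem_filter, Finset.mem_sdiff]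
    tauto

end Pool.Agent.HamChrom
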