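import Pool.Agent.HamChrom.Arc

/-!
Elimination of an arc of `d + 1` vertices placed at the end of the vertex list.
-/

set_option autoImplicit false

namespace Pool.Agent.HamChrom

open Finset

theorem pathOK_iff : ∀ (d : ℕ) (A : Fin (d + 1) → Finset ℕ) (α : ℕ) (g : Fin (d + 1) → ℕ) (β : ℕ),
    pathOK (d + 1) A α g β ↔
      (g 0 ≠ α ∧ (∀ j, g j ∉ A j) ∧ (∀ i : Fin d, g i.castSucc ≠ g i.succ) ∧ g (Fin.last d) ≠ β)
  | 0, A, α, g, β => by
    simp only [pathOK]
    constructor
    · rintro ⟨h1, h2, h3⟩
      refine ⟨h1, ?_, fun i => i.elim0, h3⟩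
      intro j
      have : j = 0 := Fin.fin_one_eq_zero j
      rw [this]
      exact h2
    · rintro ⟨h1, h2, -, h4⟩
      exact ⟨h1, h2 0, h4⟩
  | d + 1, A, α, g, β => by
    have ih := pathOK_iff d (fun i => A i.succ) (g 0) (fun i => g i.succ) β
    have hdef : pathOK (d + 1 + 1) A α g β ↔
        (g 0 ≠ α ∧ g 0 ∉ A 0 ∧ pathOK (d + 1) (fun i => A i.succ) (g 0) (fun i => g i.succ) β) := Iff.rfl
    rw [hdef, ih]
    constructor
    · rintro ⟨h1, h2, h3, h4, h5, h6⟩
      refine ⟨h1, ?_, ?_, ?_⟩
      · intro j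
        refine Fin.cases h2 (fun i => h4 i) j
      · intro i
        refine Fin.cases ?_ (fun i' => ?_) i
        · exact fun e => h3 e.symm
        · exact h5 i'
      · exact h6
    · rintro ⟨h1, h2, h3, h4⟩
      refine ⟨h1, h2 0, fun e => h3 0 e.symm, fun j => h2 j.succ, fun i => h3 i.succ, h4⟩

/-- the combinatorial structure of the arc -/
structure ArcData {t d : ℕ} (G : SimpleGraph (Fin (t + (d + 1)))) (a b : Fin t)
    (S : Fin (d + 1) → Finset (Fin t)) : Prop where
  cross : ∀ (s : Fin t) (j : Fin (d + 1)), G.Adj (Fin.castAdd (d + 1) s) (Fin.natAdd t j) ↔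
    (s ∈ S j ∨ (s = a ∧ j = 0) ∨ (s = b ∧ j = Fin.last d))
  inner : ∀ i j : Fin (d + 1), G.Adj (Fin.natAdd t i) (Fin.natAdd t j) ↔
    ((i : ℕ) + 1 = j ∨ (j : ℕ) + 1 = i)

theorem ArcData.proper_iff {t d : ℕ} {G : SimpleGraph (Fin (t + (d + 1)))} {a b : Fin t}
    {S : Fin (d + 1) → Finset (Fin t)} (hD : ArcData G a b S) (c : Fin t → ℕ) (g : Fin (d + 1) → ℕ) :
    Proper G (Fin.append c g) ↔ (Proper (G.comap (Fin.castAdd (d + 1))) c ∧
      pathOK (d + 1) (fun j => (S j).image c) (c a) g (c b)) := by
  rw [pathOK_iff]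
  constructor
  · intro H
    refine ⟨?_, ?_, ?_, ?_, ?_⟩
    · intro i j hij
      have := H _ _ hij
      simpa using this
    · have := H _ _ ((hD.cross a 0).2 (Or.inr (Or.inl ⟨rfl, rfl⟩)))
      rw [Fin.append_left, Fin.append_right] at this
      exact fun e => this e.symm
    · intro j hj
      obtain ⟨s, hs, hsj⟩ := Finset.mem_image.1 hj
      have := H _ _ ((hD.cross s j).2 (Or.inl hs))
      rw [Fin.append_left, Fin.append_right] at this
      exact this hsj
    · intro i
      have := H _ _ ((hD.inner i.castSucc i.succ).2 (Or.inl (by simp)))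
      rw [Fin.append_right, Fin.append_right] at this
      exact this
    · have := H _ _ ((hD.cross b (Fin.last d)).2 (Or.inr (Or.inr ⟨rfl, rfl⟩)))
      rw [Fin.append_left, Fin.append_right] at this
      exact fun e => this e.symm
  · rintro ⟨H1, H2, H3, H4, H5⟩
    have hcross : ∀ (s : Fin t) (j : Fin (d + 1)), G.Adj (Fin.castAdd (d + 1) s) (Fin.natAdd t j) →
        c s ≠ g j := by
      intro s j hsj
      rcases (hD.cross s j).1 hsj with h | ⟨rfl, rfl⟩ | ⟨rfl, rfl⟩
      · intro e
        exact H3 j (Finset.mem_image.2 ⟨s, h, e⟩)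
      · exact fun e => H2 e.symm
      · exact fun e => H5 e.symm
    have hinner : ∀ i j : Fin (d + 1), (i : ℕ) + 1 = j → g i ≠ g j := by
      intro i j hij
      have hi : (i : ℕ) < d := by have := j.2; omega
      have h1 : i = (⟨i, hi⟩ : Fin d).castSucc := by ext; rfl
      have h2 : j = (⟨i, hi⟩ : Fin d).succ := by ext; simp [← hij]
      rw [h1, h2]
      exact H4 _
    intro p q hpq
    induction p using Fin.addCases with
    | left s =>
      induction q using Fin.addCases with
      | left s' =>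
        rw [Fin.append_left, Fin.append_left]
        exact H1 s s' hpq
      | right j =>
        rw [Fin.append_left, Fin.append_right]
        exact hcross s j hpq
    | right i =>
      induction q using Fin.addCases with
      | left s' =>
        rw [Fin.append_left, Fin.append_right]
        exact fun e => hcross s' i hpq.symm e.symm
      | right j =>
        rw [Fin.append_right, Fin.append_right]
        rcases (hD.inner i j).1 hpq with h | h
        · exact hinner i j h
        · exact fun e => hinner j i h e.symm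

theorem arc_fun_inv {t d : ℕ} (H : SimpleGraph (Fin t)) (a b : Fin t)
    (S : Fin d → Finset (Fin t)) (x : ℝ) :
    Inv (fun c : Fin t → ℕ => eG H c * ff x (c b) (List.ofFn (fun j => (S j).image c)) (c a)) := by
  intro h c
  have h1 := eG_inv H h c
  have h2 : List.ofFn (fun j => (S j).image (fun i => h (c i)))
      = (List.ofFn (fun j => (S j).image c)).map (fun A => A.image h) := by
    rw [List.map_ofFn]
    congr 1
    funext j
    simp only [Function.comp_apply, Finset.image_image]
    rfl
  show eG H (fun i => h (c i)) * ff x (h (c b)) (List.ofFn (fun j => (S j).image (fun i => h (c i)))) (h (c a)) = _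
  rw [h1, h2, ff_inv]

theorem arc_identity {t d : ℕ} {G : SimpleGraph (Fin (t + (d + 1)))} {a b : Fin t}
    {S : Fin (d + 1) → Finset (Fin t)} (hD : ArcData G a b S) (x : ℝ) :
    (-1 : ℝ) ^ (d + 1) * L x (t + (d + 1)) (eG G)
      = L x t (fun c => eG (G.comap (Fin.castAdd (d + 1))) c *
          ff x (c b) (List.ofFn (fun j => (S j).image c)) (c a)) := by
  classical
  refine IsPoly.eq_of_nat ((IsPoly.const _).mul (L_eG_isPoly G))
    (L_isPoly t (fun x c => eG (G.comap (Fin.castAdd (d + 1))) c *
          ff x (c b) (List.ofFn (fun j => (S j).image c)) (c a))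
      (fun c => (IsPoly.const _).mul (ff_isPoly _ _ _))) ?_ x
  intro k
  rw [L_nat k _ _ (eG_inv G), L_nat k _ _ (arc_fun_inv _ a b S k)]
  have hR : ∑ C : Fin (t + (d + 1)) → Fin k, eG G (fun i => (C i : ℕ))
      = ∑ c : Fin t → Fin k, ∑ g : Fin (d + 1) → Fin k,
        eG G (fun i => ((Fin.append c g) i : ℕ)) := by
    rw [← Fintype.sum_prod_type']
    symm
    apply Fintype.sum_equiv (Fin.appendEquiv t (d + 1))
    rintro ⟨c, g⟩
    rfl
  rw [hR, Finset.mul_sum]
  apply Finset.sum_congr rfl
  intro c _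
  set c' : Fin t → ℕ := fun i => (c i : ℕ) with hc'
  have h1 : ∀ g : Fin (d + 1) → Fin k, eG G (fun i => ((Fin.append c g) i : ℕ))
      = eG (G.comap (Fin.castAdd (d + 1))) c' *
        (if pathOK (d + 1) (fun j => (S j).image c') (c' a) (fun i => (g i : ℕ)) (c' b)
          then (1 : ℝ) else 0) := by
    intro g
    have h2 : (fun i => ((Fin.append c g) i : ℕ)) = Fin.append c' (fun i => (g i : ℕ)) := by
      funext i
      induction i using Fin.addCases with
      | left s => simp [hc']
      | right j => simp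
    rw [h2]
    have h3 := hD.proper_iff c' (fun i => (g i : ℕ))
    by_cases hp : Proper (G.comap (Fin.castAdd (d + 1))) c'
    · by_cases hq : pathOK (d + 1) (fun j => (S j).image c') (c' a) (fun i => (g i : ℕ)) (c' b)
      · rw [eG_pos (h3.2 ⟨hp, hq⟩), eG_pos hp, if_pos hq, mul_one]
      · rw [eG_neg (fun h => hq (h3.1 h).2), if_neg hq, mul_zero]
    · rw [eG_neg (fun h => hp (h3.1 h).1), eG_neg hp, zero_mul]
  rw [Finset.sum_congr rfl (fun g _ => h1 g), ← Finset.mul_sum]
  have h4 := sum_pathOK k (c' b) (d + 1) (fun j => (S j).image c') (c' a)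
  have h5 : (∑ g : Fin (d + 1) → Fin k,
      (if pathOK (d + 1) (fun j => (S j).image c') (c' a) (fun i => (g i : ℕ)) (c' b)
          then (1 : ℝ) else 0)) = NN k (c' b) (List.ofFn (fun j => (S j).image c')) (c' a) := by
    rw [← h4]
  rw [h5]
  have h6 := (NN_eq k (c' b) (c b).2 (List.ofFn (fun j => (S j).image c')) (by
    intro A hA
    rw [List.mem_ofFn] at hA
    obtain ⟨j, rfl⟩ := hA
    intro γ hγ
    obtain ⟨s, -, hs⟩ := Finset.mem_image.1 hγ
    rw [← hs]
    exact Finset.mem_range.2 (c s).2)).1 (c' a) (c a).2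
  rw [List.length_ofFn] at h6
  rw [← h6]
  ring

end Pool.Agent.HamChrom
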