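import Pool.Agent.HamChrom.Steps

/-!
The reduction step for the arc of a minimal chord.
-/

set_option autoImplicit false

namespace Pool.Agent.HamChrom

open Finset

theorem phi_ge_one (y : ℝ) (hy0 : 0 < y) (hy1 : y < 1) (β : ℕ) : ∀ (W : List (Finset ℕ))
    (_ : ∀ A ∈ W, β ∉ A) (α : ℕ), α ≠ β → 1 ≤ phi y β W α
  | [], _, α, h => by simp [phi, ne01_of_ne h]
  | [A], hW, α, h => by
    have hw : 0 ≤ 1 / (1 - y) := by
      apply div_nonneg zero_le_one
      linarith
    have h1 : 0 ≤ ∑ γ ∈ A.erase α, ne01 γ β := Finset.sum_nonneg (fun γ _ => ne01_nonneg _ _)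
    simp only [phi, ne01_of_ne h, sub_self, mul_zero, sub_zero]
    have := mul_nonneg hw h1
    linarith
  | A :: B :: W, hW, α, h => by
    have hz : 0 < 1 - y := by linarith
    have hw : 0 ≤ 1 / (1 - y) := div_nonneg zero_le_one hz.le
    have hk : 0 ≤ y / (1 - y) ^ 2 := div_nonneg hy0.le (pow_nonneg hz.le 2)
    have ih1 := phi_ge_one y hy0 hy1 β (B :: W) (fun C hC => hW C (List.mem_cons_of_mem _ hC))
    have ih2 := phi_ge_one y hy0 hy1 β W
      (fun C hC => hW C (List.mem_cons_of_mem _ (List.mem_cons_of_mem _ hC)))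
    have h1 : 0 ≤ ∑ γ ∈ A.erase α, phi y β (B :: W) γ := by
      apply Finset.sum_nonneg
      intro γ hγ
      have hγA : γ ∈ A := Finset.mem_of_mem_erase hγ
      have hγβ : γ ≠ β := by
        rintro rfl
        exact hW A (by simp) hγA
      exact le_trans zero_le_one (ih1 γ hγβ)
    have h2 : (0 : ℝ) ≤ (if α ∈ B then 0 else 1) * phi y β W α := by
      apply mul_nonneg
      · split_ifs <;> norm_num
      · exact le_trans zero_le_one (ih2 α h)
    have h3 := ih1 α h
    simp only [phi]
    have h4 := mul_nonneg hk h2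
    have h5 := mul_nonneg hw h1
    linarith

theorem arc_step (y : ℝ) (hy0 : 0 < y) (hy1 : y < 1) (hcone : ConeHyp y) {t d : ℕ} [NeZero t]
    [NeZero (t + (d + 1))] (ht : 3 ≤ t) (G : SimpleGraph (Fin (t + (d + 1)))) (hG : Cyc G)
    (hab : ∀ i j : Fin (t + (d + 1)), (i : ℕ) + 1 = t → (j : ℕ) = 0 → G.Adj i j)
    (hM : ∀ i j : Fin (t + (d + 1)), t ≤ (i : ℕ) + 1 → (i : ℕ) < j → G.Adj i j → (j : ℕ) = i + 1)
    (hM0 : ∀ i j : Fin (t + (d + 1)), t ≤ (i : ℕ) → (j : ℕ) = 0 → G.Adj i j → (i : ℕ) = t + d)
    (hub : ∀ v : Fin (t + (d + 1)), t ≤ (v : ℕ) → ∃ u : Fin (t + (d + 1)),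
      (u : ℕ) + 1 < t ∧ (u : ℕ) ≠ 0 ∧ G.Adj u v)
    (ih : ∀ H : SimpleGraph (Fin t), Cyc H → 0 < (-1 : ℝ) ^ t * L (1 + y) t (eG H)) :
    0 < (-1 : ℝ) ^ (t + (d + 1)) * L (1 + y) (t + (d + 1)) (eG G) := by
  classical
  set a : Fin t := ⟨t - 1, by omega⟩ with ha
  set b : Fin t := ⟨0, by omega⟩ with hb
  set S : Fin (d + 1) → Finset (Fin t) := fun j => univ.filter
    (fun s => s ≠ a ∧ s ≠ b ∧ G.Adj (Fin.castAdd (d + 1) s) (Fin.natAdd t j)) with hS
  have hD : ArcData G a b S := by
    constructor
    · intro s j
      constructor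
      · intro h
        by_cases hsa : s = a
        · right; left
          refine ⟨hsa, ?_⟩
          have h1 := hM (Fin.castAdd (d + 1) s) (Fin.natAdd t j) (by
            rw [hsa]
            simp only [Fin.val_castAdd, ha]
            omega) (by
            rw [hsa]
            simp only [Fin.val_castAdd, Fin.val_natAdd, ha]
            omega) h
          rw [hsa] at h1
          simp only [Fin.val_castAdd, Fin.val_natAdd, ha] at h1
          apply Fin.ext
          simp only [Fin.val_zero]
          omega
        · by_cases hsb : s = b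
          · right; right
            refine ⟨hsb, ?_⟩
            have h1 := hM0 (Fin.natAdd t j) (Fin.castAdd (d + 1) s) (by
              simp only [Fin.val_natAdd]
              omega) (by
              rw [hsb]
              simp only [Fin.val_castAdd, hb]) h.symm
            simp only [Fin.val_natAdd] at h1
            apply Fin.ext
            simp only [Fin.val_last]
            omega
          · left
            rw [hS]
            exact Finset.mem_filter.2 ⟨Finset.mem_univ _, hsa, hsb, h⟩
      · rintro (h | ⟨rfl, rfl⟩ | ⟨rfl, rfl⟩)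
        · rw [hS] at h
          exact (Finset.mem_filter.1 h).2.2.2
        · apply hG.adj_succ
          simp only [Fin.val_castAdd, Fin.val_natAdd, ha, Fin.val_zero]
          omega
        · apply SimpleGraph.Adj.symm
          apply hG.adj_last
          · simp only [Fin.val_natAdd, Fin.val_last]
            omega
          · simp [hb]
    · intro i j
      constructor
      · intro h
        rcases lt_trichotomy (i : ℕ) (j : ℕ) with hij | hij | hij
        · left
          have h1 := hM (Fin.natAdd t i) (Fin.natAdd t j) (by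
            simp only [Fin.val_natAdd]
            omega) (by
            simp only [Fin.val_natAdd]
            omega) h
          simp only [Fin.val_natAdd] at h1
          omega
        · exfalso
          have : i = j := Fin.ext hij
          subst this
          exact G.loopless.irrefl _ h
        · right
          have h1 := hM (Fin.natAdd t j) (Fin.natAdd t i) (by
            simp only [Fin.val_natAdd]
            omega) (by
            simp only [Fin.val_natAdd]
            omega) h.symm
          simp only [Fin.val_natAdd] at h1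
          omega
      · rintro (h | h)
        · apply hG.adj_succ
          simp only [Fin.val_natAdd]
          omega
        · apply SimpleGraph.Adj.symm
          apply hG.adj_succ
          simp only [Fin.val_natAdd]
          omega
  have hid := arc_identity hD (1 + y)
  set H : SimpleGraph (Fin t) := G.comap (Fin.castAdd (d + 1)) with hH
  have hHab : H.Adj a b := by
    show G.Adj (Fin.castAdd (d + 1) a) (Fin.castAdd (d + 1) b)
    apply hab
    · simp only [Fin.val_castAdd, ha]
      omega
    · simp only [Fin.val_castAdd, hb]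
  have hHcyc : Cyc H := by
    apply cyc_of_val
    · intro i j hij
      show G.Adj (Fin.castAdd (d + 1) i) (Fin.castAdd (d + 1) j)
      apply hG.adj_succ
      simpa using hij
    · intro i j hi hj
      have ei : i = a := by apply Fin.ext; simp only [ha]; omega
      have ej : j = b := by apply Fin.ext; simpa [hb] using hj
      rw [ei, ej]
      exact hHab
  -- the word
  set W : List (Finset (Fin t)) := List.ofFn S with hW
  have hWmap : ∀ c : Fin t → ℕ, List.ofFn (fun j => (S j).image c) = W.map (fun A => A.image c) := by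
    intro c
    rw [hW, List.map_ofFn]
    rfl
  have hWne : ∀ A ∈ W, A.Nonempty := by
    intro A hA
    rw [hW, List.mem_ofFn] at hA
    obtain ⟨j, rfl⟩ := hA
    obtain ⟨u, hu1, hu2, hu3⟩ := hub (Fin.natAdd t j) (by simp only [Fin.val_natAdd]; omega)
    refine ⟨⟨u, by omega⟩, ?_⟩
    rw [hS]
    refine Finset.mem_filter.2 ⟨Finset.mem_univ _, ?_, ?_, ?_⟩
    · intro e
      have := congrArg Fin.val e
      simp only [ha] at this
      omega
    · intro e
      have := congrArg Fin.val e
      simp only [hb] at this
      exact hu2 this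
    · exact hu3
  have hWab : ∀ A ∈ W, a ∉ A ∧ b ∉ A := by
    intro A hA
    rw [hW, List.mem_ofFn] at hA
    obtain ⟨j, rfl⟩ := hA
    rw [hS]
    constructor
    · intro h
      exact (Finset.mem_filter.1 h).2.1 rfl
    · intro h
      exact (Finset.mem_filter.1 h).2.2.1 rfl
  have hcn := (hcone (Fin t) a b W hWne hWab).smul ((1 - y) ^ (d + 1)) (pow_nonneg (by linarith) _)
  have hfun : ∀ c : Fin t → ℕ, eG H c * ff (1 + y) (c b) (List.ofFn (fun j => (S j).image c)) (c a)
      = eG H c * ((1 - y) ^ (d + 1) * (ne01 (c a) (c b) * phi y (c b) (W.map (fun A => A.image c)) (c a))) := by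
    intro c
    rw [ff_eq_phi y hy1, hWmap]
    have hlen : (W.map (fun A => A.image c)).length = d + 1 := by
      rw [List.length_map, hW, List.length_ofFn]
    rw [hlen]
    have h1 := eG_absorb hHab c
    calc eG H c * ((1 - y) ^ (d + 1) * phi y (c b) (W.map (fun A => A.image c)) (c a))
        = (eG H c * ne01 (c a) (c b)) * ((1 - y) ^ (d + 1) * phi y (c b) (W.map (fun A => A.image c)) (c a)) := by
          rw [h1]
      _ = _ := by ring
  rw [L_congr _ _ _ _ hfun] at hid
  have hgoal : (-1 : ℝ) ^ (t + (d + 1)) * L (1 + y) (t + (d + 1)) (eG G)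
      = (-1 : ℝ) ^ t * ((-1 : ℝ) ^ (d + 1) * L (1 + y) (t + (d + 1)) (eG G)) := by
    rw [pow_add]
    ring
  rw [hgoal, hid]
  refine (cone_pos (1 + y) ih hcn H hHcyc).2 ?_
  have hab' : (a : ℕ) ≠ (b : ℕ) := by
    simp only [ha, hb]
    omega
  have hphi : 1 ≤ phi y (b : ℕ) (W.map (fun A => A.image (fun i : Fin t => (i : ℕ)))) (a : ℕ) := by
    apply phi_ge_one y hy0 hy1 _ _ _ _ hab'
    intro A hA
    rw [List.mem_map] at hA
    obtain ⟨B, hB, rfl⟩ := hA
    intro h
    obtain ⟨s, hs, hsb⟩ := Finset.mem_image.1 h
    have : s = b := Fin.ext hsb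
    rw [this] at hs
    exact (hWab B hB).2 hs
  show 0 < (1 - y) ^ (d + 1) * (ne01 (a : ℕ) (b : ℕ) *
    phi y (b : ℕ) (W.map (fun A => A.image (fun i : Fin t => (i : ℕ)))) (a : ℕ))
  rw [ne01_of_ne hab', one_mul]
  exact mul_pos (pow_pos (by linarith) _) (by linarith)

end Pool.Agent.HamChrom
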