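import Mathlib

/-!
The real-parameter sum-over-colourings functional `L x n` and the identity principle.
-/

set_option autoImplicit false

namespace Pool.Agent.HamChrom

open Finset

/-! ### polynomial functions -/

def IsPoly (f : ℝ → ℝ) : Prop := ∃ p : Polynomial ℝ, ∀ x, f x = p.eval x

theorem IsPoly.const (r : ℝ) : IsPoly (fun _ => r) := ⟨Polynomial.C r, by simp⟩

theorem IsPoly.id : IsPoly (fun x => x) := ⟨Polynomial.X, by simp⟩

theorem IsPoly.add {f g : ℝ → ℝ} (hf : IsPoly f) (hg : IsPoly g) : IsPoly (fun x => f x + g x) := by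
  obtain ⟨p, hp⟩ := hf
  obtain ⟨q, hq⟩ := hg
  exact ⟨p + q, by intro x; simp [hp, hq]⟩

theorem IsPoly.mul {f g : ℝ → ℝ} (hf : IsPoly f) (hg : IsPoly g) : IsPoly (fun x => f x * g x) := by
  obtain ⟨p, hp⟩ := hf
  obtain ⟨q, hq⟩ := hg
  exact ⟨p * q, by intro x; simp [hp, hq]⟩

theorem IsPoly.sub {f g : ℝ → ℝ} (hf : IsPoly f) (hg : IsPoly g) : IsPoly (fun x => f x - g x) := by
  obtain ⟨p, hp⟩ := hf
  obtain ⟨q, hq⟩ := hg
  exact ⟨p - q, by intro x; simp [hp, hq]⟩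

theorem IsPoly.neg {f : ℝ → ℝ} (hf : IsPoly f) : IsPoly (fun x => - f x) := by
  obtain ⟨p, hp⟩ := hf
  exact ⟨-p, by intro x; simp [hp]⟩

theorem IsPoly.pow {f : ℝ → ℝ} (hf : IsPoly f) (n : ℕ) : IsPoly (fun x => f x ^ n) := by
  obtain ⟨p, hp⟩ := hf
  exact ⟨p ^ n, by intro x; simp [hp]⟩

theorem IsPoly.sum {ι : Type*} (s : Finset ι) (f : ι → ℝ → ℝ) (h : ∀ i ∈ s, IsPoly (f i)) :
    IsPoly (fun x => ∑ i ∈ s, f i x) := by
  classical
  induction s using Finset.induction_on with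
  | empty => simpa using IsPoly.const 0
  | insert a s ha ih =>
    have h1 : IsPoly (f a) := h a (Finset.mem_insert_self a s)
    have h2 : IsPoly (fun x => ∑ i ∈ s, f i x) := ih (fun i hi => h i (Finset.mem_insert_of_mem hi))
    have h3 := h1.add h2
    have : (fun x => ∑ i ∈ insert a s, f i x) = (fun x => f a x + ∑ i ∈ s, f i x) := by
      funext x
      rw [Finset.sum_insert ha]
    rw [this]
    exact h3

/-- Two polynomial functions agreeing at all positive integers agree everywhere. -/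
theorem IsPoly.eq_of_nat {f g : ℝ → ℝ} (hf : IsPoly f) (hg : IsPoly g)
    (h : ∀ k : ℕ, f k = g k) (x : ℝ) : f x = g x := by
  obtain ⟨p, hp⟩ := hf
  obtain ⟨q, hq⟩ := hg
  have hpq : p = q := by
    apply Polynomial.eq_of_infinite_eval_eq
    have : Set.range (fun k : ℕ => (k : ℝ)) ⊆ {x | p.eval x = q.eval x} := by
      rintro _ ⟨k, rfl⟩
      show p.eval (k : ℝ) = q.eval (k : ℝ)
      rw [← hp, ← hq]
      exact h k
    exact (Set.infinite_range_of_injective Nat.cast_injective).mono this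
  rw [hp, hq, hpq]

/-! ### the functional `L` -/

/-- a colour not used by `c` -/
def newc {n : ℕ} (c : Fin n → ℕ) : ℕ := (Finset.univ.sup c) + 1

theorem newc_notMem {n : ℕ} (c : Fin n → ℕ) : newc c ∉ Finset.univ.image c := by
  intro h
  obtain ⟨i, -, hi⟩ := Finset.mem_image.1 h
  have : c i ≤ Finset.univ.sup c := Finset.le_sup (f := c) (Finset.mem_univ i)
  unfold newc at hi
  omega

/-- one vertex elimination -/
noncomputable def elim (x : ℝ) {n : ℕ} (Φ : (Fin (n + 1) → ℕ) → ℝ) (c : Fin n → ℕ) : ℝ :=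
  (∑ γ ∈ univ.image c, Φ (Fin.snoc c γ)) + (x - ((univ.image c).card : ℝ)) * Φ (Fin.snoc c (newc c))

/-- `L x n Φ`: the polynomial continuation to real `x` of the sum of `Φ` over all colourings of `n`
vertices with `x` colours. -/
noncomputable def L (x : ℝ) : (n : ℕ) → ((Fin n → ℕ) → ℝ) → ℝ
  | 0, Φ => Φ Fin.elim0
  | n + 1, Φ => L x n (elim x Φ)

theorem L_zero (x : ℝ) (Φ : (Fin 0 → ℕ) → ℝ) : L x 0 Φ = Φ Fin.elim0 := rfl

theorem L_succ (x : ℝ) (n : ℕ) (Φ : (Fin (n + 1) → ℕ) → ℝ) : L x (n + 1) Φ = L x n (elim x Φ) := rfl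

theorem elim_add (x : ℝ) {n : ℕ} (Φ Ψ : (Fin (n + 1) → ℕ) → ℝ) :
    elim x (fun c => Φ c + Ψ c) = fun c => elim x Φ c + elim x Ψ c := by
  funext c
  simp only [elim, Finset.sum_add_distrib]
  ring

theorem elim_smul (x r : ℝ) {n : ℕ} (Φ : (Fin (n + 1) → ℕ) → ℝ) :
    elim x (fun c => r * Φ c) = fun c => r * elim x Φ c := by
  funext c
  simp only [elim, ← Finset.mul_sum]
  ring

theorem L_add (x : ℝ) : ∀ (n : ℕ) (Φ Ψ : (Fin n → ℕ) → ℝ),
    L x n (fun c => Φ c + Ψ c) = L x n Φ + L x n Ψ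
  | 0, Φ, Ψ => rfl
  | n + 1, Φ, Ψ => by
    rw [L_succ, elim_add, L_add x n, ← L_succ, ← L_succ]

theorem L_smul (x r : ℝ) : ∀ (n : ℕ) (Φ : (Fin n → ℕ) → ℝ),
    L x n (fun c => r * Φ c) = r * L x n Φ
  | 0, Φ => rfl
  | n + 1, Φ => by
    rw [L_succ, elim_smul, L_smul x r n, ← L_succ]

theorem L_congr (x : ℝ) (n : ℕ) (Φ Ψ : (Fin n → ℕ) → ℝ) (h : ∀ c, Φ c = Ψ c) :
    L x n Φ = L x n Ψ := by
  have : Φ = Ψ := funext h
  rw [this]

theorem L_isPoly : ∀ (n : ℕ) (Φ : ℝ → (Fin n → ℕ) → ℝ) (_ : ∀ c, IsPoly (fun x => Φ x c)),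
    IsPoly (fun x => L x n (Φ x))
  | 0, Φ, h => h _
  | n + 1, Φ, h => by
    have := L_isPoly n (fun x => elim x (Φ x)) (by
      intro c
      unfold elim
      exact (IsPoly.sum _ _ (fun γ _ => h _)).add
        ((IsPoly.id.sub (IsPoly.const _)).mul (h _)))
    exact this

/-- invariance under permutations of the colours -/
def Inv {n : ℕ} (Φ : (Fin n → ℕ) → ℝ) : Prop :=
  ∀ (h : Equiv.Perm ℕ) (c : Fin n → ℕ), Φ (fun i => h (c i)) = Φ c

theorem comp_snoc {n : ℕ} (h : ℕ → ℕ) (c : Fin n → ℕ) (γ : ℕ) :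
    (fun i => h ((Fin.snoc c γ : Fin (n + 1) → ℕ) i)) = (Fin.snoc (fun i => h (c i)) (h γ) : Fin (n + 1) → ℕ) := by
  funext i
  refine Fin.lastCases ?_ (fun j => ?_) i
  · simp
  · simp

theorem Inv.snoc_eq {n : ℕ} {Φ : (Fin (n + 1) → ℕ) → ℝ} (hΦ : Inv Φ) (c : Fin n → ℕ) (γ δ : ℕ)
    (hγ : γ ∉ univ.image c) (hδ : δ ∉ univ.image c) :
    Φ (Fin.snoc c γ) = Φ (Fin.snoc c δ) := by
  have h1 := hΦ (Equiv.swap γ δ) (Fin.snoc c γ)
  rw [comp_snoc] at h1
  rw [← h1]
  have h2 : (fun i => (Equiv.swap γ δ) (c i)) = c := by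
    funext i
    apply Equiv.swap_apply_of_ne_of_ne
    · intro he
      exact hγ (Finset.mem_image.2 ⟨i, Finset.mem_univ i, he⟩)
    · intro he
      exact hδ (Finset.mem_image.2 ⟨i, Finset.mem_univ i, he⟩)
  rw [h2, Equiv.swap_apply_left]

theorem Inv.elim {n : ℕ} {Φ : (Fin (n + 1) → ℕ) → ℝ} (hΦ : Inv Φ) (x : ℝ) : Inv (elim x Φ) := by
  intro h c
  unfold HamChrom.elim
  have him : univ.image (fun i => h (c i)) = (univ.image c).image h := by
    rw [Finset.image_image]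
    rfl
  have hcard : (univ.image (fun i => h (c i))).card = (univ.image c).card := by
    rw [him, Finset.card_image_of_injective _ h.injective]
  have hsum : ∑ γ ∈ univ.image (fun i => h (c i)), Φ (Fin.snoc (fun i => h (c i)) γ)
      = ∑ γ ∈ univ.image c, Φ (Fin.snoc c γ) := by
    rw [him, Finset.sum_image (fun a _ b _ hab => h.injective hab)]
    apply Finset.sum_congr rfl
    intro γ _
    rw [← comp_snoc]
    exact hΦ h _
  have hnew : Φ (Fin.snoc (fun i => h (c i)) (newc (fun i => h (c i)))) = Φ (Fin.snoc c (newc c)) := by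
    rw [← hΦ h (Fin.snoc c (newc c)), comp_snoc]
    apply hΦ.snoc_eq
    · exact newc_notMem _
    · rw [him]
      intro hm
      obtain ⟨a, ha, hb⟩ := Finset.mem_image.1 hm
      rw [h.injective hb] at ha
      exact newc_notMem c ha
  rw [hcard, hsum, hnew]

/-- For an invariant function and a natural number `k` of colours, the functional `L` is the sum
over all colourings. -/
theorem L_nat (k : ℕ) : ∀ (n : ℕ) (Φ : (Fin n → ℕ) → ℝ) (_ : Inv Φ),
    L (k : ℝ) n Φ = ∑ c : Fin n → Fin k, Φ (fun i => (c i : ℕ))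
  | 0, Φ, hΦ => by
    rw [L_zero]
    rw [Fintype.sum_unique]
    congr 1
    funext i
    exact i.elim0
  | n + 1, Φ, hΦ => by
    rw [L_succ, L_nat k n _ (hΦ.elim _)]
    have hR : ∑ c : Fin (n + 1) → Fin k, Φ (fun i => (c i : ℕ))
        = ∑ c : Fin n → Fin k, ∑ γ : Fin k, Φ (fun i => ((Fin.snoc c γ : Fin (n + 1) → Fin k) i : ℕ)) := by
      rw [← Fintype.sum_prod_type']
      symm
      apply Fintype.sum_equiv ((Equiv.prodComm _ _).trans (Fin.snocEquiv (fun _ => Fin k)))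
      rintro ⟨c, γ⟩
      rfl
    rw [hR]
    apply Finset.sum_congr rfl
    intro c _
    have hs : ∀ γ : Fin k, (fun i => ((Fin.snoc c γ : Fin (n + 1) → Fin k) i : ℕ))
        = (Fin.snoc (fun i => (c i : ℕ)) (γ : ℕ) : Fin (n + 1) → ℕ) := by
      intro γ
      funext i
      refine Fin.lastCases ?_ (fun j => ?_) i
      · simp
      · simp
    simp only [hs]
    set c' : Fin n → ℕ := fun i => (c i : ℕ) with hc'
    have hsub : univ.image c' ⊆ range k := by
      intro γ hγ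
      obtain ⟨i, -, hi⟩ := Finset.mem_image.1 hγ
      rw [← hi]
      exact Finset.mem_range.2 (c i).2
    have h1 : ∑ γ : Fin k, Φ (Fin.snoc c' (γ : ℕ)) = ∑ γ ∈ range k, Φ (Fin.snoc c' γ) :=
      (Finset.sum_range (fun γ => Φ (Fin.snoc c' γ))).symm
    rw [h1, ← Finset.sum_sdiff hsub]
    have h2 : ∑ γ ∈ range k \ univ.image c', Φ (Fin.snoc c' γ)
        = ((k : ℝ) - ((univ.image c').card : ℝ)) * Φ (Fin.snoc c' (newc c')) := by
      have : ∀ γ ∈ range k \ univ.image c', Φ (Fin.snoc c' γ) = Φ (Fin.snoc c' (newc c')) := by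
        intro γ hγ
        exact hΦ.snoc_eq c' _ _ (Finset.mem_sdiff.1 hγ).2 (newc_notMem c')
      rw [Finset.sum_congr rfl this, Finset.sum_const, nsmul_eq_mul, Finset.card_sdiff_of_subset hsub,
        Nat.cast_sub (Finset.card_le_card hsub), Finset.card_range]
    rw [h2]
    unfold HamChrom.elim
    ring

end Pool.Agent.HamChrom
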