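import Pool.Agent.HamChrom.Formal

/-!
The pattern checker and its soundness.
-/

set_option autoImplicit false

namespace Pool.Agent.HamChrom

open Finset

/-! ### kernel-friendly natural number versions -/

noncomputable def pkk (N : ℕ) (l : List ℕ) : ℕ :=
  List.rec (motive := fun _ => ℕ) 0 (fun a _ ih => Nat.add a (Nat.mul N ih)) l

theorem pkk_eq (N : ℕ) (l : List ℕ) : pkk N l = ev N l := by
  induction l with
  | nil => rfl
  | cons a l ih =>
    have : pkk N (a :: l) = Nat.add a (Nat.mul N (pkk N l)) := rfl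
    rw [this, ih]
    rfl

noncomputable def tPk (N k mask eq : ℕ) (fs : FS) : ℕ :=
  List.rec (motive := fun _ => ℕ) 0
    (fun t _ ih => cond (cnd k mask eq t) (Nat.add (pkk N t.p) ih) ih) fs

noncomputable def tNk (N k mask eq : ℕ) (fs : FS) : ℕ :=
  List.rec (motive := fun _ => ℕ) 0
    (fun t _ ih => cond (cnd k mask eq t) (Nat.add (pkk N t.n) ih) ih) fs

theorem tPk_eq (N k mask eq : ℕ) (fs : FS) : tPk N k mask eq fs = tP N k mask eq fs := by
  induction fs with
  | nil => rfl
  | cons t fs ih =>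
    have : tPk N k mask eq (t :: fs) = cond (cnd k mask eq t) (Nat.add (pkk N t.p) (tPk N k mask eq fs))
      (tPk N k mask eq fs) := rfl
    rw [this, ih, tP, pkk_eq]
    cases cnd k mask eq t
    · show _ = (if false = true then ev N t.p else 0) + _
      rw [if_neg Bool.false_ne_true, zero_add]
      rfl
    · show _ = (if true = true then ev N t.p else 0) + _
      rw [if_pos rfl]
      rfl

theorem tNk_eq (N k mask eq : ℕ) (fs : FS) : tNk N k mask eq fs = tN N k mask eq fs := by
  induction fs with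
  | nil => rfl
  | cons t fs ih =>
    have : tNk N k mask eq (t :: fs) = cond (cnd k mask eq t) (Nat.add (pkk N t.n) (tNk N k mask eq fs))
      (tNk N k mask eq fs) := rfl
    rw [this, ih, tN, pkk_eq]
    cases cnd k mask eq t
    · show _ = (if false = true then ev N t.n else 0) + _
      rw [if_neg Bool.false_ne_true, zero_add]
      rfl
    · show _ = (if true = true then ev N t.n else 0) + _
      rw [if_pos rfl]
      rfl

noncomputable def mk (N eq : ℕ) (wt : ℕ → Bool) (us : List Use) : ℕ :=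
  List.rec (motive := fun _ => ℕ) 0
    (fun u _ ih => cond (wt u.s && Nat.beq (Nat.land u.g eq) 0) (Nat.add (pkk N u.m) ih) ih) us

theorem mk_eq (N eq : ℕ) (wt : ℕ → Bool) (us : List Use) : mk N eq wt us = mS N eq wt us := by
  induction us with
  | nil => rfl
  | cons u us ih =>
    have : mk N eq wt (u :: us) = cond (wt u.s && Nat.beq (Nat.land u.g eq) 0)
      (Nat.add (pkk N u.m) (mk N eq wt us)) (mk N eq wt us) := rfl
    rw [this, ih, mS, pkk_eq]
    cases (wt u.s && Nat.beq (Nat.land u.g eq) 0)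
    · show _ = (if false = true then ev N u.m else 0) + _
      rw [if_neg Bool.false_ne_true, zero_add]
      rfl
    · show _ = (if true = true then ev N u.m else 0) + _
      rw [if_pos rfl]
      rfl

noncomputable def cPk (N k mask eq : ℕ) (wp wn : ℕ → Bool) (cs : List (FS × List Use)) : ℕ :=
  List.rec (motive := fun _ => ℕ) 0
    (fun f _ ih => Nat.add (Nat.add (Nat.mul (mk N eq wp f.2) (tPk N k mask eq f.1))
      (Nat.mul (mk N eq wn f.2) (tNk N k mask eq f.1))) ih) cs

noncomputable def cNk (N k mask eq : ℕ) (wp wn : ℕ → Bool) (cs : List (FS × List Use)) : ℕ :=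
  List.rec (motive := fun _ => ℕ) 0
    (fun f _ ih => Nat.add (Nat.add (Nat.mul (mk N eq wp f.2) (tNk N k mask eq f.1))
      (Nat.mul (mk N eq wn f.2) (tPk N k mask eq f.1))) ih) cs

theorem cPk_eq (N k mask eq : ℕ) (wp wn : ℕ → Bool) (cs : List (FS × List Use)) :
    cPk N k mask eq wp wn cs = cP N k mask eq wp wn cs := by
  induction cs with
  | nil => rfl
  | cons f cs ih =>
    have : cPk N k mask eq wp wn (f :: cs) = Nat.add (Nat.add (Nat.mul (mk N eq wp f.2) (tPk N k mask eq f.1))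
      (Nat.mul (mk N eq wn f.2) (tNk N k mask eq f.1))) (cPk N k mask eq wp wn cs) := rfl
    rw [this, ih, cP, mk_eq, mk_eq, tPk_eq, tNk_eq]
    rfl

theorem cNk_eq (N k mask eq : ℕ) (wp wn : ℕ → Bool) (cs : List (FS × List Use)) :
    cNk N k mask eq wp wn cs = cN N k mask eq wp wn cs := by
  induction cs with
  | nil => rfl
  | cons f cs ih =>
    have : cNk N k mask eq wp wn (f :: cs) = Nat.add (Nat.add (Nat.mul (mk N eq wp f.2) (tNk N k mask eq f.1))
      (Nat.mul (mk N eq wn f.2) (tPk N k mask eq f.1))) (cNk N k mask eq wp wn cs) := rfl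
    rw [this, ih, cN, mk_eq, mk_eq, tPk_eq, tNk_eq]
    rfl

/-! ### linear combinations of atoms -/

/-- an atom with a nonnegative coefficient polynomial -/
structure At where
  c : List ℕ
  k : ℕ
  mask : ℕ

section generic

variable {S : Type} [CommSemiring S]

def dP (N : S) (eq : ℕ) (wp wn : ℕ → Bool) (tg : FS) (cs : List (FS × List Use)) : List At → S
  | [] => 0
  | a :: l => HamChrom.ev N a.c * (tP N a.k a.mask eq tg + cN N a.k a.mask eq wp wn cs)
      + dP N eq wp wn tg cs l

def dN (N : S) (eq : ℕ) (wp wn : ℕ → Bool) (tg : FS) (cs : List (FS × List Use)) : List At → S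
  | [] => 0
  | a :: l => HamChrom.ev N a.c * (tN N a.k a.mask eq tg + cP N a.k a.mask eq wp wn cs)
      + dN N eq wp wn tg cs l

variable {S' : Type} [CommSemiring S']

theorem dP_map (φ : S →+* S') (N : S) (eq : ℕ) (wp wn : ℕ → Bool) (tg : FS)
    (cs : List (FS × List Use)) : ∀ l : List At, φ (dP N eq wp wn tg cs l) = dP (φ N) eq wp wn tg cs l
  | [] => by simp [dP]
  | a :: l => by
    simp only [dP, map_add, map_mul, ev_map, tP_map, cN_map, dP_map φ N eq wp wn tg cs l]

theorem dN_map (φ : S →+* S') (N : S) (eq : ℕ) (wp wn : ℕ → Bool) (tg : FS)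
    (cs : List (FS × List Use)) : ∀ l : List At, φ (dN N eq wp wn tg cs l) = dN (φ N) eq wp wn tg cs l
  | [] => by simp [dN]
  | a :: l => by
    simp only [dN, map_add, map_mul, ev_map, tN_map, cP_map, dN_map φ N eq wp wn tg cs l]

end generic

noncomputable def dPk (N eq : ℕ) (wp wn : ℕ → Bool) (tg : FS) (cs : List (FS × List Use)) (l : List At) : ℕ :=
  List.rec (motive := fun _ => ℕ) 0 (fun a _ ih => Nat.add (Nat.mul (pkk N a.c)
    (Nat.add (tPk N a.k a.mask eq tg) (cNk N a.k a.mask eq wp wn cs))) ih) l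

noncomputable def dNk (N eq : ℕ) (wp wn : ℕ → Bool) (tg : FS) (cs : List (FS × List Use)) (l : List At) : ℕ :=
  List.rec (motive := fun _ => ℕ) 0 (fun a _ ih => Nat.add (Nat.mul (pkk N a.c)
    (Nat.add (tNk N a.k a.mask eq tg) (cPk N a.k a.mask eq wp wn cs))) ih) l

theorem dPk_eq (N eq : ℕ) (wp wn : ℕ → Bool) (tg : FS) (cs : List (FS × List Use)) (l : List At) :
    dPk N eq wp wn tg cs l = dP N eq wp wn tg cs l := by
  induction l with
  | nil => rfl
  | cons a l ih =>
    have : dPk N eq wp wn tg cs (a :: l) = Nat.add (Nat.mul (pkk N a.c)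
      (Nat.add (tPk N a.k a.mask eq tg) (cNk N a.k a.mask eq wp wn cs))) (dPk N eq wp wn tg cs l) := rfl
    rw [this, ih, dP, pkk_eq, tPk_eq, cNk_eq]
    rfl

theorem dNk_eq (N eq : ℕ) (wp wn : ℕ → Bool) (tg : FS) (cs : List (FS × List Use)) (l : List At) :
    dNk N eq wp wn tg cs l = dN N eq wp wn tg cs l := by
  induction l with
  | nil => rfl
  | cons a l ih =>
    have : dNk N eq wp wn tg cs (a :: l) = Nat.add (Nat.mul (pkk N a.c)
      (Nat.add (tNk N a.k a.mask eq tg) (cPk N a.k a.mask eq wp wn cs))) (dNk N eq wp wn tg cs l) := rfl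
    rw [this, ih, dN, pkk_eq, tNk_eq, cPk_eq]
    rfl

/-- test of one combination -/
noncomputable def tst (N eq : ℕ) (wp wn : ℕ → Bool) (tg : FS) (cs : List (FS × List Use)) (l : List At) :
    Bool :=
  Nat.beq (dPk N eq wp wn tg cs l) (dNk N eq wp wn tg cs l) &&
    (Nat.blt (dPk 1 eq wp wn tg cs l) N && Nat.blt (dNk 1 eq wp wn tg cs l) N)

theorem tst_sound {N eq : ℕ} {wp wn : ℕ → Bool} {tg : FS} {cs : List (FS × List Use)} {l : List At}
    (h : tst N eq wp wn tg cs l = true) (ρ : ℝ) : dP ρ eq wp wn tg cs l = dN ρ eq wp wn tg cs l := by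
  unfold tst at h
  rw [Bool.and_eq_true, Bool.and_eq_true] at h
  obtain ⟨h1, h2, h3⟩ := h
  have h1 := Nat.eq_of_beq_eq_true h1
  rw [Nat.blt_eq] at h2 h3
  rw [dPk_eq, dNk_eq] at h1
  rw [dPk_eq] at h2
  rw [dNk_eq] at h3
  set P : Polynomial ℕ := dP Polynomial.X eq wp wn tg cs l with hP
  set Q : Polynomial ℕ := dN Polynomial.X eq wp wn tg cs l with hQ
  have eP : ∀ a : ℕ, P.eval a = dP a eq wp wn tg cs l := by
    intro a
    have := dP_map (Polynomial.evalRingHom a) Polynomial.X eq wp wn tg cs l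
    simpa using this
  have eQ : ∀ a : ℕ, Q.eval a = dN a eq wp wn tg cs l := by
    intro a
    have := dN_map (Polynomial.evalRingHom a) Polynomial.X eq wp wn tg cs l
    simpa using this
  have hPQ : P = Q := pack_unique N P Q (by rw [eP, eQ, h1]) (by rw [eP]; exact h2) (by rw [eQ]; exact h3)
  have rP : P.eval₂ (Nat.castRingHom ℝ) ρ = dP ρ eq wp wn tg cs l := by
    have := dP_map (Polynomial.eval₂RingHom (Nat.castRingHom ℝ) ρ) Polynomial.X eq wp wn tg cs l
    simpa using this
  have rQ : Q.eval₂ (Nat.castRingHom ℝ) ρ = dN ρ eq wp wn tg cs l := by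
    have := dN_map (Polynomial.eval₂RingHom (Nat.castRingHom ℝ) ρ) Polynomial.X eq wp wn tg cs l
    simpa using this
  rw [← rP, ← rQ, hPQ]

/-- real value of an atom difference -/
noncomputable def dR (ρ : ℝ) (k mask eq : ℕ) (wp wn : ℕ → Bool) (tg : FS) (cs : List (FS × List Use)) : ℝ :=
  tR ρ k mask eq tg - (cP ρ k mask eq wp wn cs - cN ρ k mask eq wp wn cs)

theorem dR_comb (ρ : ℝ) (eq : ℕ) (wp wn : ℕ → Bool) (tg : FS) (cs : List (FS × List Use)) :
    ∀ l : List At, dP ρ eq wp wn tg cs l - dN ρ eq wp wn tg cs l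
      = (l.map (fun a => HamChrom.ev ρ a.c * dR ρ a.k a.mask eq wp wn tg cs)).sum
  | [] => by simp [dP, dN]
  | a :: l => by
    rw [List.map_cons, List.sum_cons, ← dR_comb ρ eq wp wn tg cs l, dP, dN, dR, tR]
    ring

theorem tst_real {N eq : ℕ} {wp wn : ℕ → Bool} {tg : FS} {cs : List (FS × List Use)} {l : List At}
    (h : tst N eq wp wn tg cs l = true) (ρ : ℝ) :
    (l.map (fun a => HamChrom.ev ρ a.c * dR ρ a.k a.mask eq wp wn tg cs)).sum = 0 := by
  rw [← dR_comb, tst_sound h ρ, sub_self]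

/-- difference of target and certificate at a pattern -/
theorem diff_pat {π : List ℕ} {col : ℕ → ℕ} (hg : Good π col) {M : ℕ → (ℕ → ℝ) → ℝ}
    (hM : ∀ k, IsLin (M k)) (hM5 : ∀ k, 5 ≤ k → ∀ f, M k f = 0) (ρ : ℝ) (wt : ℕ → ℝ)
    (wp wn : ℕ → Bool) (hw : ∀ s, wt s = (if wp s then 1 else 0) - (if wn s then 1 else 0))
    (tg : FS) (cs : List (FS × List Use)) :
    FS.ev col M ρ tg - certEv col M ρ wt cs =
      ∑ k ∈ range 5, (∑ l ∈ reps π, dR ρ k (bm π l) (eqm π) wp wn tg cs * M k (ind (col l))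
        + dR ρ k 0 (eqm π) wp wn tg cs * M k (restf π col)) := by
  rw [FS.ev_pat hg hM hM5 ρ tg, certEv_pat hg hM hM5 ρ wt wp wn hw cs, ← Finset.sum_sub_distrib]
  apply Finset.sum_congr rfl
  intro k _
  simp only [dR, sub_mul, Finset.sum_sub_distrib]
  ring

end Pool.Agent.HamChrom
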