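import Pool.Agent.HamChrom.Whitney

/-!
Positivity of the functional on the cone.
-/

set_option autoImplicit false

namespace Pool.Agent.HamChrom

open Finset

theorem ne01_nonneg (a b : ℕ) : 0 ≤ ne01 a b := by
  unfold ne01; split_ifs <;> norm_num

theorem ne01_self (a : ℕ) : ne01 a a = 0 := by simp [ne01]

theorem ne01_of_ne {a b : ℕ} (h : a ≠ b) : ne01 a b = 1 := by simp [ne01, h]

theorem ne01_comm (a b : ℕ) : ne01 a b = ne01 b a := by
  unfold ne01
  by_cases h : a = b
  · simp [h]
  · rw [if_neg h, if_neg (fun h' => h h'.symm)]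

theorem InCone.nonneg {T : Type} {F : (T → ℕ) → ℝ} (hF : InCone F) (c : T → ℕ) : 0 ≤ F c := by
  induction hF with
  | const r hr => exact hr
  | add F G hF hG ihF ihG => exact add_nonneg ihF ihG
  | edge s t F hF ih => exact mul_nonneg (ne01_nonneg _ _) ih

theorem InCone.smul {T : Type} {F : (T → ℕ) → ℝ} (hF : InCone F) (r : ℝ) (hr : 0 ≤ r) :
    InCone (fun c => r * F c) := by
  induction hF with
  | const q hq => exact InCone.const (r * q) (mul_nonneg hr hq)
  | add F G hF hG ihF ihG =>
    have h := InCone.add _ _ ihF ihG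
    have e : (fun c => r * F c + r * G c) = (fun c => r * (F c + G c)) := by
      funext c; ring
    rw [e] at h
    exact h
  | edge s t F hF ih =>
    have h := InCone.edge s t _ ih
    have e : (fun c : T → ℕ => ne01 (c s) (c t) * (r * F c)) = (fun c => r * (ne01 (c s) (c t) * F c)) := by
      funext c; ring
    rw [e] at h
    exact h

theorem InCone.mul {T : Type} {F G : (T → ℕ) → ℝ} (hF : InCone F) (hG : InCone G) :
    InCone (fun c => F c * G c) := by
  induction hF with
  | const r hr => exact hG.smul r hr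
  | add F F' hF hF' ihF ihF' =>
    have h := InCone.add _ _ ihF ihF'
    have e : (fun c => F c * G c + F' c * G c) = (fun c => (F c + F' c) * G c) := by
      funext c; ring
    rw [e] at h
    exact h
  | edge s t F hF ih =>
    have h := InCone.edge s t _ ih
    have e : (fun c : T → ℕ => ne01 (c s) (c t) * (F c * G c)) = (fun c => (ne01 (c s) (c t) * F c) * G c) := by
      funext c; ring
    rw [e] at h
    exact h

theorem eG_mul_ne01 {V : Type} (G : SimpleGraph V) (s t : V) (hst : s ≠ t) (c : V → ℕ) :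
    eG G c * ne01 (c s) (c t) = eG (G ⊔ SimpleGraph.edge s t) c := by
  have hiff : Proper (G ⊔ SimpleGraph.edge s t) c ↔ Proper G c ∧ c s ≠ c t := by
    constructor
    · intro H
      refine ⟨fun i j hij => H i j (Or.inl hij), H s t (Or.inr ?_)⟩
      rw [SimpleGraph.edge_adj]
      exact ⟨Or.inl ⟨rfl, rfl⟩, hst⟩
    · rintro ⟨H1, H2⟩ i j hij
      rcases hij with hij | hij
      · exact H1 i j hij
      · rw [SimpleGraph.edge_adj] at hij
        rcases hij.1 with ⟨rfl, rfl⟩ | ⟨rfl, rfl⟩
        · exact H2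
        · exact fun e => H2 e.symm
  by_cases h1 : Proper G c
  · by_cases h2 : c s = c t
    · rw [eG_neg (fun h => (hiff.1 h).2 h2), h2, ne01_self, mul_zero]
    · rw [eG_pos (hiff.2 ⟨h1, h2⟩), eG_pos h1, ne01_of_ne h2, mul_one]
  · rw [eG_neg h1, eG_neg (fun h => h1 (hiff.1 h).1), zero_mul]

/-- consecutive vertices (cyclically) are adjacent -/
def Cyc {n : ℕ} [NeZero n] (G : SimpleGraph (Fin n)) : Prop := ∀ i : Fin n, G.Adj i (i + 1)

theorem cone_pos (x : ℝ) {t : ℕ} [NeZero t]
    (hP : ∀ G : SimpleGraph (Fin t), Cyc G → 0 < (-1 : ℝ) ^ t * L x t (eG G))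
    {Φ : (Fin t → ℕ) → ℝ} (hΦ : InCone Φ) :
    ∀ G : SimpleGraph (Fin t), Cyc G →
      0 ≤ (-1 : ℝ) ^ t * L x t (fun c => eG G c * Φ c) ∧
      (0 < Φ (fun i => (i : ℕ)) → 0 < (-1 : ℝ) ^ t * L x t (fun c => eG G c * Φ c)) := by
  induction hΦ with
  | const r hr =>
    intro G hG
    have h1 := hP G hG
    have h2 : L x t (fun c => eG G c * r) = r * L x t (eG G) := by
      rw [← L_smul]
      apply L_congr
      intro c
      ring
    rw [h2]
    have h3 : (-1 : ℝ) ^ t * (r * L x t (eG G)) = r * ((-1 : ℝ) ^ t * L x t (eG G)) := by ring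
    rw [h3]
    exact ⟨mul_nonneg hr h1.le, fun h => mul_pos h h1⟩
  | add F F' hF hF' ihF ihF' =>
    intro G hG
    obtain ⟨a1, a2⟩ := ihF G hG
    obtain ⟨b1, b2⟩ := ihF' G hG
    have h2 : L x t (fun c => eG G c * (F c + F' c))
        = L x t (fun c => eG G c * F c) + L x t (fun c => eG G c * F' c) := by
      rw [← L_add]
      apply L_congr
      intro c
      ring
    rw [h2, mul_add]
    refine ⟨add_nonneg a1 b1, fun h => ?_⟩
    rcases lt_or_ge 0 (F (fun i => (i : ℕ))) with h3 | h3
    · exact add_pos_of_pos_of_nonneg (a2 h3) b1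
    · exact add_pos_of_nonneg_of_pos a1 (b2 (by linarith))
  | edge s u F hF ih =>
    intro G hG
    by_cases hsu : s = u
    · subst hsu
      have h2 : L x t (fun c => eG G c * (ne01 (c s) (c s) * F c)) = 0 := by
        have h3 : L x t (fun c => (0 : ℝ) * F c) = 0 * L x t F := L_smul x 0 t F
        rw [zero_mul] at h3
        rw [← h3]
        apply L_congr
        intro c
        rw [ne01_self]
        ring
      rw [h2]
      refine ⟨by simp, fun h => ?_⟩
      simp only [ne01_self, zero_mul] at h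
      exact absurd h (lt_irrefl _)
    · have h2 : L x t (fun c => eG G c * (ne01 (c s) (c u) * F c))
          = L x t (fun c => eG (G ⊔ SimpleGraph.edge s u) c * F c) := by
        apply L_congr
        intro c
        rw [← mul_assoc, eG_mul_ne01 G s u hsu]
      rw [h2]
      obtain ⟨a1, a2⟩ := ih (G ⊔ SimpleGraph.edge s u) (fun i => Or.inl (hG i))
      refine ⟨a1, fun h => a2 ?_⟩
      by_contra hF0
      have h5 : F (fun i => (i : ℕ)) ≤ 0 := not_lt.1 hF0
      have h6 : ne01 (s : ℕ) (u : ℕ) * F (fun i => (i : ℕ)) ≤ 0 :=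
        mul_nonpos_of_nonneg_of_nonpos (ne01_nonneg _ _) h5
      exact absurd h (not_lt.2 h6)

end Pool.Agent.HamChrom
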