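import Mathlib

/-!
Definitions for the arc (chord) elimination method for chromatic polynomials of Hamiltonian
graphs.  `x = 1 + y`, `z = 1 - y`, `eta = y / z`, `w = 1 / z`, `kappa = y / z ^ 2`.
-/

set_option autoImplicit false

namespace Pool.Agent.HamChrom

open Finset

/-- `ne01 a b` is `1` if the colours `a`, `b` differ and `0` if they are equal. -/
noncomputable def ne01 (a b : ℕ) : ℝ := if a = b then 0 else 1

/-- Normalised signed number of colourings of an arc whose first neighbour has colour `α`, whose
last neighbour has colour `β`, the `i`-th vertex of the arc avoiding the colours in the `i`-th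
set of the list. -/
noncomputable def phi (y : ℝ) (β : ℕ) : List (Finset ℕ) → ℕ → ℝ
  | [], α => ne01 α β
  | [A], α => ne01 α β - (y / (1 - y)) * (1 - ne01 α β) + (1 / (1 - y)) * ∑ γ ∈ A.erase α, ne01 γ β
  | A :: B :: W, α => phi y β (B :: W) α + (y / (1 - y) ^ 2) * ((if α ∈ B then 0 else 1) * phi y β W α)
      + (1 / (1 - y)) * ∑ γ ∈ A.erase α, phi y β (B :: W) γ

/-- The cone of functions of a colouring generated by the products of the `ne01 (c s) (c t)`. -/
inductive InCone {T : Type} : ((T → ℕ) → ℝ) → Prop
  | const (r : ℝ) (hr : 0 ≤ r) : InCone (fun _ => r)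
  | add (F G : (T → ℕ) → ℝ) (hF : InCone F) (hG : InCone G) : InCone (fun c => F c + G c)
  | edge (s t : T) (F : (T → ℕ) → ℝ) (hF : InCone F) : InCone (fun c => ne01 (c s) (c t) * F c)

/-- The cone statement (Lemma (*)) at the parameter `y`: all groups nonempty and avoiding the two
ends `a`, `b`. -/
def ConeHyp (y : ℝ) : Prop :=
  ∀ (T : Type) [Fintype T] [DecidableEq T] (a b : T) (W : List (Finset T)),
    (∀ S ∈ W, S.Nonempty) → (∀ S ∈ W, a ∉ S ∧ b ∉ S) →
      InCone (fun c : T → ℕ =>
        ne01 (c a) (c b) * phi y (c b) (W.map (fun S => S.image c)) (c a))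

end Pool.Agent.HamChrom
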