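import Pool.Agent.HamChrom.Modes

/-!
Facts used in the certificates and their membership in the cone.
-/

set_option autoImplicit false

namespace Pool.Agent.HamChrom

open Finset

/-- parameters of the interval: `eta = (A + B ρ) / (Q (1 + ρ))` -/
structure Par where
  A : ℕ
  B : ℕ
  Q : ℕ

/-- lists for `e`, `e κ`, `e w`, `e η` with `e = (Q (1 + ρ)) ^ 2` -/
def Par.E (P : Par) : List ℕ := mulL [P.Q, P.Q] [P.Q, P.Q]
def Par.K (P : Par) : List ℕ := mulL [P.A, P.B] [P.Q + P.A, P.Q + P.B]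
def Par.W (P : Par) : List ℕ := mulL [P.Q, P.Q] [P.Q + P.A, P.Q + P.B]
def Par.H (P : Par) : List ℕ := mulL [P.Q, P.Q] [P.A, P.B]

/-- relation between the real parameters -/
structure Par.Rel (P : Par) (y ρ : ℝ) : Prop where
  y0 : 0 < y
  y1 : y < 1
  hρ : 0 ≤ ρ
  Q0 : 0 < P.Q
  eta : (P.Q : ℝ) * (1 + ρ) * (y / (1 - y)) = P.A + P.B * ρ

noncomputable def Par.e (P : Par) (ρ : ℝ) : ℝ := (P.Q * (1 + ρ)) ^ 2

theorem Par.Rel.e_pos {P : Par} {y ρ : ℝ} (h : P.Rel y ρ) : 0 < P.e ρ := by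
  unfold Par.e
  have h1 : (0 : ℝ) < P.Q := by exact_mod_cast h.Q0
  have h2 := h.hρ
  positivity

theorem Par.Rel.w_eq {P : Par} {y ρ : ℝ} (h : P.Rel y ρ) : 1 / (1 - y) = 1 + y / (1 - y) := by
  have : 1 - y ≠ 0 := by have := h.y1; intro h'; linarith
  field_simp
  ring

theorem Par.Rel.k_eq {P : Par} {y ρ : ℝ} (_h : P.Rel y ρ) :
    y / (1 - y) ^ 2 = (y / (1 - y)) * (1 / (1 - y)) := by
  rw [div_mul_div_comm, mul_one, pow_two]

theorem Par.Rel.ev_E {P : Par} {y ρ : ℝ} (_h : P.Rel y ρ) : ev ρ P.E = P.e ρ := by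
  unfold Par.E Par.e
  rw [ev_mulL]
  simp only [ev]
  ring

theorem Par.Rel.ev_W {P : Par} {y ρ : ℝ} (h : P.Rel y ρ) : ev ρ P.W = P.e ρ * (1 / (1 - y)) := by
  unfold Par.W Par.e
  rw [ev_mulL, h.w_eq]
  have h1 := h.eta
  simp only [ev]
  push_cast
  have : ((P.Q : ℝ) * (1 + ρ)) ^ 2 * (1 + y / (1 - y))
      = (P.Q * (1 + ρ)) * (P.Q * (1 + ρ) + (P.Q : ℝ) * (1 + ρ) * (y / (1 - y))) := by ring
  rw [this, h1]
  ring

theorem Par.Rel.ev_H {P : Par} {y ρ : ℝ} (h : P.Rel y ρ) : ev ρ P.H = P.e ρ * (y / (1 - y)) := by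
  unfold Par.H Par.e
  rw [ev_mulL]
  have h1 := h.eta
  simp only [ev]
  have : ((P.Q : ℝ) * (1 + ρ)) ^ 2 * (y / (1 - y))
      = (P.Q * (1 + ρ)) * ((P.Q : ℝ) * (1 + ρ) * (y / (1 - y))) := by ring
  rw [this, h1]
  ring

theorem Par.Rel.ev_K {P : Par} {y ρ : ℝ} (h : P.Rel y ρ) : ev ρ P.K = P.e ρ * (y / (1 - y) ^ 2) := by
  unfold Par.K Par.e
  rw [ev_mulL, h.k_eq, h.w_eq]
  have h1 := h.eta
  simp only [ev]
  push_cast
  have : ((P.Q : ℝ) * (1 + ρ)) ^ 2 * (y / (1 - y) * (1 + y / (1 - y)))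
      = ((P.Q : ℝ) * (1 + ρ) * (y / (1 - y))) * (P.Q * (1 + ρ) + (P.Q : ℝ) * (1 + ρ) * (y / (1 - y))) := by ring
  rw [this, h1]
  ring

/-! ### functionals at a word -/

variable {T : Type}

noncomputable def MW (y : ℝ) (b : T) (W : WT T) (c : T → ℕ) (k : ℕ) (f : ℕ → ℝ) : ℝ :=
  match k with
  | 0 => f (c b)
  | 1 => mu' y (c b) (wd c W) f
  | 2 => lam' y (c b) (wd c W) f
  | 3 => mu y (c b) (wd c W) f
  | 4 => lam y (c b) (wd c W) f
  | _ => 0

theorem MW_lin (y : ℝ) (b : T) (W : WT T) (c : T → ℕ) (k : ℕ) : IsLin (MW y b W c k) := by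
  match k with
  | 0 => exact ⟨fun f g => rfl, fun r f => rfl⟩
  | 1 => exact ⟨fun f g => mu'_add _ _ _ f g, fun r f => mu'_smul _ _ _ r f⟩
  | 2 => exact ⟨fun f g => lam'_add _ _ _ f g, fun r f => lam'_smul _ _ _ r f⟩
  | 3 => exact ⟨fun f g => mu_add _ _ _ f g, fun r f => mu_smul _ _ _ r f⟩
  | 4 => exact ⟨fun f g => lam_add _ _ _ f g, fun r f => lam_smul _ _ _ r f⟩
  | _ + 5 =>
    exact ⟨fun f g => by simp [MW], fun r f => by simp [MW]⟩

theorem MW_big (y : ℝ) (b : T) (W : WT T) (c : T → ℕ) (k : ℕ) (hk : 5 ≤ k) (f : ℕ → ℝ) :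
    MW y b W c k f = 0 := by
  obtain ⟨j, rfl⟩ : ∃ j, k = j + 5 := ⟨k - 5, by omega⟩
  rfl

/-! ### monomials in the cone -/

theorem InCone.prod {ι : Type} (s : Finset ι) (F : ι → (T → ℕ) → ℝ) (h : ∀ i ∈ s, InCone (F i)) :
    InCone (fun c => ∏ i ∈ s, F i c) := by
  classical
  induction s using Finset.induction_on with
  | empty => exact InCone.one.congr (fun c => by simp)
  | insert a s ha ih =>
    have h1 := (h a (Finset.mem_insert_self a s)).mul (ih (fun i hi => h i (Finset.mem_insert_of_mem hi)))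
    exact h1.congr (fun c => by rw [Finset.prod_insert ha])

theorem InCone.eGm (pt : ℕ → T) (g : ℕ) : InCone (fun c : T → ℕ => eGm (fun i => c (pt i)) g) := by
  unfold HamChrom.eGm
  apply InCone.prod
  intro k _
  by_cases h : g.testBit k = true
  · exact (InCone.ne01 (pt (edg k).1) (pt (edg k).2)).congr (fun c => by rw [if_pos h])
  · exact InCone.one.congr (fun c => by rw [if_neg h])

/-- vertices selected by a point mask -/
def ptl (pt : ℕ → T) (X : ℕ) : List T := ((List.range 5).filter (fun i => X.testBit i)).map pt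

theorem eXm_star (pt : ℕ → T) (X : ℕ) (c : T → ℕ) (x : ℕ) :
    eXm (fun i => c (pt i)) X x = star x ((ptl pt X).map c) := by
  unfold eXm ptl
  simp only [Finset.prod_range_succ, Finset.prod_range_zero, one_mul]
  have hr : List.range 5 = [0, 1, 2, 3, 4] := by decide
  rw [hr]
  simp only [List.filter_cons, List.filter_nil]
  by_cases h0 : X.testBit 0 = true <;> by_cases h1 : X.testBit 1 = true <;>
    by_cases h2 : X.testBit 2 = true <;> by_cases h3 : X.testBit 3 = true <;>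
    by_cases h4 : X.testBit 4 = true <;>
    simp only [h0, h1, h2, h3, h4, if_true, if_false, List.map_cons, List.map_nil, star_cons, star_nil,
      one_mul, mul_one, Bool.false_eq_true] <;> ring

/-! ### facts -/

inductive Fact
  | nu (X : ℕ)
  | mn (X : ℕ)
  | lm (X : ℕ)
  | dm (X : ℕ)
  | dl (X : ℕ)
  | fam (i a c : ℕ)
  | ef

/-- family of hypotheses: `tm` only for a first argument not identified with `b`; `sg` one argument -/
structure Fam where
  tm : Bool
  sg : Bool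
  tt : List TT

def factFS (P : Par) (fams : List Fam) : Fact → FS
  | .nu X => [⟨0, 0, X, [1], []⟩]
  | .mn X => [⟨1, 0, X, [1], []⟩, ⟨0, 0, X, [], [1]⟩]
  | .lm X => [⟨2, 0, X, [1], []⟩, ⟨1, 0, X, [], [1]⟩]
  | .dm X => [⟨3, 0, X, [1], []⟩, ⟨1, 0, X, [], [1]⟩]
  | .dl X => [⟨4, 0, X, [1], []⟩, ⟨3, 0, X, [], [1]⟩, ⟨2, 0, X, [], [1]⟩, ⟨1, 0, X, [1], []⟩]
  | .fam i a c => instF a c 3 ((fams.getD i ⟨false, false, []⟩).tt)
  | .ef => [⟨2, 0, 1, P.K, []⟩, ⟨4, 0, 0, [], P.H⟩, ⟨4, 0, 1, P.H, []⟩, ⟨2, 0, 0, P.H, []⟩,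
      ⟨2, 0, 1, [], P.H⟩]

/-- admissible facts for words of positive length -/
def factOK (fams : List Fam) (tm : Bool) : Fact → Bool
  | .fam i a c => Nat.blt a 5 && (Nat.blt c 5 && (
      (!(fams.getD i ⟨false, false, []⟩).tm || (tm && Nat.beq a 0)) &&
      (!(fams.getD i ⟨false, false, []⟩).sg || Nat.beq a c)))
  | .ef => tm
  | _ => true

/-- admissible facts for the empty word -/
def factOKB : Fact → Bool
  | .nu _ => true
  | _ => false

/-- the multiplier of the t-mode -/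
noncomputable def tmf (tm : Bool) (x b : T) (c : T → ℕ) : ℝ := if tm then ne01 (c x) (c b) else 1

theorem InCone.tmf (tm : Bool) (x b : T) : InCone (HamChrom.tmf tm x b) := by
  unfold HamChrom.tmf
  cases tm
  · exact InCone.one.congr (fun c => by simp)
  · exact (InCone.ne01 x b).congr (fun c => by simp)

theorem tmf_sq (tm : Bool) (x b : T) (c : T → ℕ) : tmf tm x b c * tmf tm x b c = tmf tm x b c := by
  unfold tmf
  cases tm
  · simp
  · simp [ne01_mul_self]

/-- The induction hypothesis at a word with reference vertex `r`. -/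
def InvW (y : ℝ) (ρ : ℝ) (fams : List Fam) (b : T) (W : WT T) (r : T) : Prop :=
  ∀ F ∈ fams, ∀ x v : T, (F.sg = true → v = x) →
    InCone (fun c : T → ℕ => tmf F.tm x b c * famEv (MW y b W c) ρ (c x) (c v) (c r) F.tt)

/-- value of `phi` at a word in the t-mode -/
def InvF (y : ℝ) (b : T) (W : WT T) : Prop :=
  ∀ x : T, InCone (fun c : T → ℕ => ne01 (c x) (c b) *
    (lam y (c b) (wd c W) (fun z => ne01 z (c x)) - (y / (1 - y)) * lam' y (c b) (wd c W) (fun z => 1 - ne01 z (c x))))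

theorem ev_nil (ρ : ℝ) : ev ρ [] = 0 := rfl

section

variable (y : ℝ) (b : T) (hy0 : 0 < y) (hy1 : y < 1)

include hy0 hy1

theorem fact_cone (P : Par) (ρ : ℝ) (hP : P.Rel y ρ) (fams : List Fam) (tm : Bool) (g : T × List T)
    (W : WT T) (pt : ℕ → T) (h3 : pt 3 = g.1) (hInv : InvW y ρ fams b (g :: W) g.1)
    (hF : InvF y b W) (f : Fact) (hf : factOK fams tm f = true) :
    InCone (fun c => tmf tm (pt 0) b c *
      FS.ev (fun i => c (pt i)) (MW y b (g :: W) c) ρ (factFS P fams f)) := by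
  obtain ⟨m1, m2, m3, m4, m5, m6, m7⟩ := manifest y b hy0 hy1 W
  cases f with
  | nu X =>
    refine ((InCone.tmf tm (pt 0) b).mul (InCone.star b (ptl pt X))).congr (fun c => ?_)
    simp only [factFS, FS.ev, Tm.ev, ev_one, ev_nil, eGm_zero, MW, eXm_star]
    ring
  | mn X =>
    refine ((InCone.tmf tm (pt 0) b).mul (m3 (ptl pt X))).congr (fun c => ?_)
    simp only [factFS, FS.ev, Tm.ev, ev_one, ev_nil, eGm_zero, MW, wd_cons, mu'_cons]
    rw [funext (eXm_star pt X c)]
    ring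
  | lm X =>
    refine ((InCone.tmf tm (pt 0) b).mul (m6 (ptl pt X))).congr (fun c => ?_)
    simp only [factFS, FS.ev, Tm.ev, ev_one, ev_nil, eGm_zero, MW, wd_cons, mu'_cons, lam'_cons]
    rw [funext (eXm_star pt X c)]
    ring
  | dm X =>
    refine ((InCone.tmf tm (pt 0) b).mul (manifest_dmu y b hy0 hy1 g W (ptl pt X))).congr (fun c => ?_)
    simp only [factFS, FS.ev, Tm.ev, ev_one, ev_nil, eGm_zero, MW, wd_cons, mu'_cons]
    rw [funext (eXm_star pt X c)]
    ring
  | dl X =>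
    refine ((InCone.tmf tm (pt 0) b).mul (manifest_dlm y b hy0 hy1 g W (ptl pt X))).congr (fun c => ?_)
    simp only [factFS, FS.ev, Tm.ev, ev_one, ev_nil, eGm_zero, MW, wd_cons, mu'_cons, lam'_cons]
    rw [funext (eXm_star pt X c)]
    ring
  | fam i a c' =>
    unfold factOK at hf
    rw [Bool.and_eq_true, Bool.and_eq_true, Bool.and_eq_true] at hf
    obtain ⟨ha, hc, htm, hsg⟩ := hf
    rw [Nat.blt_eq] at ha hc
    by_cases hi : i < fams.length
    · set F := fams.getD i ⟨false, false, []⟩ with hFdef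
      have hFm : F ∈ fams := by
        rw [hFdef, List.getD_eq_getElem _ _ hi]
        exact List.getElem_mem hi
      have hsg' : F.sg = true → pt c' = pt a := by
        intro h
        rw [h] at hsg
        have := Nat.eq_of_beq_eq_true (by simpa using hsg)
        rw [this]
      have h1 := hInv F hFm (pt a) (pt c') hsg'
      have h2 := (InCone.tmf tm (pt 0) b).mul h1
      refine h2.congr (fun c => ?_)
      show tmf tm (pt 0) b c * (tmf F.tm (pt a) b c * famEv (MW y b (g :: W) c) ρ (c (pt a)) (c (pt c')) (c g.1) F.tt)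
        = tmf tm (pt 0) b c * FS.ev (fun i => c (pt i)) (MW y b (g :: W) c) ρ (instF a c' 3 F.tt)
      rw [instF_ev _ _ ρ ha hc (by norm_num : 3 < 5), h3]
      cases hFt : F.tm
      · simp [tmf]
      · rw [hFt] at htm
        have h5 : tm = true ∧ Nat.beq a 0 = true := by simpa using htm
        have ha0 : a = 0 := Nat.eq_of_beq_eq_true h5.2
        rw [h5.1, ha0, ← mul_assoc, tmf_sq]
    · have hz : instF a c' 3 ((fams.getD i ⟨false, false, []⟩).tt) = [] := by
        rw [List.getD_eq_default _ _ (by omega)]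
        rfl
      exact InCone.zero.congr (fun c => by
        simp only [factFS, hz, FS.ev]
        ring)
  | ef =>
    have htm : tm = true := hf
    have hk := k_nonneg y hy0 hy1
    have h1 := ((InCone.star (pt 0) (g.1 :: g.2)).mul (hF (pt 0))).smul (P.e ρ * (y / (1 - y) ^ 2))
      (mul_nonneg hP.e_pos.le hk)
    refine h1.congr (fun c => ?_)
    have hid := ef_identity y (c b) (c g.1, g.2.map c) (wd c W) (c (pt 0))
    have hst : star (c (pt 0)) ((g.1 :: g.2).map c) = gstar (c (pt 0)) (c g.1, g.2.map c) := by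
      rw [List.map_cons, star_cons]
      rfl
    have e1 : ∀ z, eXm (fun i => c (pt i)) 1 z = ne01 z (c (pt 0)) := by
      intro z
      exact eXm_pow (fun i => c (pt i)) 0 z (by norm_num)
    have e0 : ∀ z, eXm (fun i => c (pt i)) 0 z = 1 := fun z => eXm_zero _ z
    have hsub : lam y (c b) ((c g.1, g.2.map c) :: wd c W) (fun z => 1 - ne01 z (c (pt 0)))
        = lam y (c b) ((c g.1, g.2.map c) :: wd c W) (fun _ => 1)
          - lam y (c b) ((c g.1, g.2.map c) :: wd c W) (fun z => ne01 z (c (pt 0))) :=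
      IsLin.sub ⟨fun f g => lam_add _ _ _ f g, fun r f => lam_smul _ _ _ r f⟩ _ _
    have hsub' : lam y (c b) (wd c W) (fun z => 1 - ne01 z (c (pt 0)))
        = lam y (c b) (wd c W) (fun _ => 1) - lam y (c b) (wd c W) (fun z => ne01 z (c (pt 0))) :=
      IsLin.sub ⟨fun f g => lam_add _ _ _ f g, fun r f => lam_smul _ _ _ r f⟩ _ _
    rw [hsub, hsub'] at hid
    rw [hst, htm]
    simp only [factFS, FS.ev, Tm.ev, ev_nil, eGm_zero, MW, wd_cons, lam'_cons, hP.ev_K, hP.ev_H, tmf,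
      if_true]
    rw [funext e1, funext e0]
    have hid2 : P.e ρ * (y / (1 - y) ^ 2) * (gstar (c (pt 0)) (c g.1, g.2.map c) *
        (ne01 (c (pt 0)) (c b) * (lam y (c b) (wd c W) (fun x => ne01 x (c (pt 0)))
          - y / (1 - y) * lam' y (c b) (wd c W) (fun x => 1 - ne01 x (c (pt 0))))))
        = P.e ρ * ne01 (c (pt 0)) (c b) * (y / (1 - y) ^ 2 * (gstar (c (pt 0)) (c g.1, g.2.map c) *
        ((lam y (c b) (wd c W) (fun x => ne01 x (c (pt 0)))
          - y / (1 - y) * lam' y (c b) (wd c W) (fun x => 1 - ne01 x (c (pt 0))))))) := by ring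
    rw [hid2, ← hid]
    ring

omit hy0 hy1 in
theorem fact_coneB (P : Par) (ρ : ℝ) (fams : List Fam) (tm : Bool) (pt : ℕ → T)
    (f : Fact) (hf : factOKB f = true) :
    InCone (fun c => tmf tm (pt 0) b c *
      FS.ev (fun i => c (pt i)) (MW y b ([] : WT T) c) ρ (factFS P fams f)) := by
  cases f with
  | nu X =>
    refine ((InCone.tmf tm (pt 0) b).mul (InCone.star b (ptl pt X))).congr (fun c => ?_)
    simp only [factFS, FS.ev, Tm.ev, ev_one, ev_nil, eGm_zero, MW, eXm_star]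
    ring
  | mn X => exact absurd hf (by simp [factOKB])
  | lm X => exact absurd hf (by simp [factOKB])
  | dm X => exact absurd hf (by simp [factOKB])
  | dl X => exact absurd hf (by simp [factOKB])
  | fam i a c' => exact absurd hf (by simp [factOKB])
  | ef => exact absurd hf (by simp [factOKB])

end

end Pool.Agent.HamChrom
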