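import Pool.Agent.HamChrom.Check

/-!
A faster version of the test of one combination.
-/

set_option autoImplicit false

namespace Pool.Agent.HamChrom

open Finset

/-- entries `(x, positive part, negative part)` of kind `k` of a formal sum times `(mp - mn)`,
followed by `tail` -/
noncomputable def flF (N k eq mp mn : ℕ) (tail : List (ℕ × ℕ × ℕ)) (fs : FS) : List (ℕ × ℕ × ℕ) :=
  List.rec (motive := fun _ => List (ℕ × ℕ × ℕ)) tail
    (fun t _ ih => cond (Nat.beq t.k k && Nat.beq (Nat.land t.g eq) 0)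
      ((t.x, Nat.add (Nat.mul mp (pkk N t.p)) (Nat.mul mn (pkk N t.n)),
        Nat.add (Nat.mul mp (pkk N t.n)) (Nat.mul mn (pkk N t.p))) :: ih) ih) fs

noncomputable def flC (N k eq : ℕ) (wp wn : ℕ → Bool) (cs : List (FS × List Use)) : List (ℕ × ℕ × ℕ) :=
  List.rec (motive := fun _ => List (ℕ × ℕ × ℕ)) []
    (fun f _ ih => cond (Nat.beq (mk N eq wp f.2) 0 && Nat.beq (mk N eq wn f.2) 0) ih
      (flF N k eq (mk N eq wn f.2) (mk N eq wp f.2) ih f.1)) cs

/-- all entries of kind `k` -/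
noncomputable def flA (N k eq : ℕ) (wp wn : ℕ → Bool) (tg : FS) (cs : List (FS × List Use)) :
    List (ℕ × ℕ × ℕ) := flF N k eq 1 0 (flC N k eq wp wn cs) tg

noncomputable def sumP (mask : ℕ) (l : List (ℕ × ℕ × ℕ)) : ℕ :=
  List.rec (motive := fun _ => ℕ) 0 (fun a _ ih => cond (Nat.beq (Nat.land a.1 mask) 0) (Nat.add a.2.1 ih) ih) l

noncomputable def sumN (mask : ℕ) (l : List (ℕ × ℕ × ℕ)) : ℕ :=
  List.rec (motive := fun _ => ℕ) 0 (fun a _ ih => cond (Nat.beq (Nat.land a.1 mask) 0) (Nat.add a.2.2 ih) ih) l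

theorem sumP_cons (mask : ℕ) (a : ℕ × ℕ × ℕ) (l : List (ℕ × ℕ × ℕ)) :
    sumP mask (a :: l) = (if Nat.beq (Nat.land a.1 mask) 0 then a.2.1 else 0) + sumP mask l := by
  have : sumP mask (a :: l) = cond (Nat.beq (Nat.land a.1 mask) 0) (Nat.add a.2.1 (sumP mask l)) (sumP mask l) := rfl
  rw [this]
  cases Nat.beq (Nat.land a.1 mask) 0
  · show _ = (if false = true then a.2.1 else 0) + _
    rw [if_neg Bool.false_ne_true, zero_add]
    rfl
  · show _ = (if true = true then a.2.1 else 0) + _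
    rw [if_pos rfl]
    rfl

theorem sumN_cons (mask : ℕ) (a : ℕ × ℕ × ℕ) (l : List (ℕ × ℕ × ℕ)) :
    sumN mask (a :: l) = (if Nat.beq (Nat.land a.1 mask) 0 then a.2.2 else 0) + sumN mask l := by
  have : sumN mask (a :: l) = cond (Nat.beq (Nat.land a.1 mask) 0) (Nat.add a.2.2 (sumN mask l)) (sumN mask l) := rfl
  rw [this]
  cases Nat.beq (Nat.land a.1 mask) 0
  · show _ = (if false = true then a.2.2 else 0) + _
    rw [if_neg Bool.false_ne_true, zero_add]
    rfl
  · show _ = (if true = true then a.2.2 else 0) + _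
    rw [if_pos rfl]
    rfl

theorem flF_cons (N k eq mp mn : ℕ) (tail : List (ℕ × ℕ × ℕ)) (t : Tm) (fs : FS) :
    flF N k eq mp mn tail (t :: fs) = cond (Nat.beq t.k k && Nat.beq (Nat.land t.g eq) 0)
      ((t.x, Nat.add (Nat.mul mp (pkk N t.p)) (Nat.mul mn (pkk N t.n)),
        Nat.add (Nat.mul mp (pkk N t.n)) (Nat.mul mn (pkk N t.p))) :: flF N k eq mp mn tail fs)
      (flF N k eq mp mn tail fs) := rfl

theorem sum_flF (N k eq mp mn mask : ℕ) (tail : List (ℕ × ℕ × ℕ)) : ∀ fs : FS,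
    sumP mask (flF N k eq mp mn tail fs) = mp * tP N k mask eq fs + mn * tN N k mask eq fs + sumP mask tail ∧
    sumN mask (flF N k eq mp mn tail fs) = mp * tN N k mask eq fs + mn * tP N k mask eq fs + sumN mask tail
  | [] => by
    constructor
    · show sumP mask tail = _
      simp [tP, tN]
    · show sumN mask tail = _
      simp [tP, tN]
  | t :: fs => by
    obtain ⟨ih1, ih2⟩ := sum_flF N k eq mp mn mask tail fs
    rw [flF_cons]
    have hP : tP N k mask eq (t :: fs) = (if cnd k mask eq t then HamChrom.ev N t.p else 0) + tP N k mask eq fs := rfl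
    have hN : tN N k mask eq (t :: fs) = (if cnd k mask eq t then HamChrom.ev N t.n else 0) + tN N k mask eq fs := rfl
    have ha : ∀ a b : ℕ, Nat.add a b = a + b := fun _ _ => rfl
    have hm : ∀ a b : ℕ, Nat.mul a b = a * b := fun _ _ => rfl
    rw [hP, hN]
    by_cases hc : (Nat.beq t.k k && Nat.beq (Nat.land t.g eq) 0) = true
    · rw [hc, cond_true, sumP_cons, sumN_cons, ih1, ih2, pkk_eq, pkk_eq]
      rw [Bool.and_eq_true] at hc
      by_cases hx : Nat.beq (Nat.land t.x mask) 0 = true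
      · have hcn : cnd k mask eq t = true := by
          unfold cnd
          rw [Bool.and_eq_true, Bool.and_eq_true]
          exact ⟨hc.1, hc.2, hx⟩
        rw [if_pos hcn, if_pos hcn, if_pos hx, if_pos hx, ha, ha, hm, hm, hm, hm]
        constructor <;> ring
      · have hcn : ¬ cnd k mask eq t = true := by
          unfold cnd
          rw [Bool.and_eq_true, Bool.and_eq_true]
          exact fun h => hx h.2.2
        rw [if_neg hcn, if_neg hcn, if_neg hx, if_neg hx]
        constructor <;> ring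
    · have hcn : ¬ cnd k mask eq t = true := by
        unfold cnd
        rw [Bool.and_eq_true, Bool.and_eq_true]
        rw [Bool.and_eq_true] at hc
        exact fun h => hc ⟨h.1, h.2.1⟩
      rw [if_neg hcn, if_neg hcn, zero_add, zero_add]
      rw [Bool.not_eq_true] at hc
      rw [hc, cond_false]
      exact ⟨ih1, ih2⟩

theorem sum_flC (N k eq mask : ℕ) (wp wn : ℕ → Bool) : ∀ cs : List (FS × List Use),
    sumP mask (flC N k eq wp wn cs) = cN N k mask eq wp wn cs ∧
    sumN mask (flC N k eq wp wn cs) = cP N k mask eq wp wn cs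
  | [] => ⟨rfl, rfl⟩
  | f :: cs => by
    obtain ⟨ih1, ih2⟩ := sum_flC N k eq mask wp wn cs
    have hdef : flC N k eq wp wn (f :: cs) = cond (Nat.beq (mk N eq wp f.2) 0 && Nat.beq (mk N eq wn f.2) 0)
      (flC N k eq wp wn cs) (flF N k eq (mk N eq wn f.2) (mk N eq wp f.2) (flC N k eq wp wn cs) f.1) := rfl
    rw [hdef]
    by_cases h : (Nat.beq (mk N eq wp f.2) 0 && Nat.beq (mk N eq wn f.2) 0) = true
    · rw [h, cond_true, ih1, ih2]
      rw [Bool.and_eq_true] at h
      have h1 := Nat.eq_of_beq_eq_true h.1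
      have h2 := Nat.eq_of_beq_eq_true h.2
      rw [mk_eq] at h1 h2
      simp only [cN, cP]
      rw [h1, h2]
      constructor <;> ring
    · rw [Bool.not_eq_true] at h
      rw [h, cond_false]
      obtain ⟨j1, j2⟩ := sum_flF N k eq (mk N eq wn f.2) (mk N eq wp f.2) mask (flC N k eq wp wn cs) f.1
      rw [j1, j2, ih1, ih2, mk_eq, mk_eq]
      simp only [cN, cP]
      constructor <;> ring

theorem sum_flA (N k eq mask : ℕ) (wp wn : ℕ → Bool) (tg : FS) (cs : List (FS × List Use)) :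
    sumP mask (flA N k eq wp wn tg cs) = tP N k mask eq tg + cN N k mask eq wp wn cs ∧
    sumN mask (flA N k eq wp wn tg cs) = tN N k mask eq tg + cP N k mask eq wp wn cs := by
  unfold flA
  obtain ⟨j1, j2⟩ := sum_flF N k eq 1 0 mask (flC N k eq wp wn cs) tg
  obtain ⟨i1, i2⟩ := sum_flC N k eq mask wp wn cs
  rw [j1, j2, i1, i2]
  constructor <;> ring

/-! ### the bound -/

noncomputable def c1 (l : List At) : ℕ :=
  List.rec (motive := fun _ => ℕ) 0 (fun a _ ih => Nat.add (pkk 1 a.c) ih) l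

noncomputable def t1 (fs : FS) : ℕ :=
  List.rec (motive := fun _ => ℕ) 0 (fun t _ ih => Nat.add (Nat.add (pkk 1 t.p) (pkk 1 t.n)) ih) fs

noncomputable def u1 (us : List Use) : ℕ :=
  List.rec (motive := fun _ => ℕ) 0 (fun u _ ih => Nat.add (pkk 1 u.m) ih) us

noncomputable def tot1 (tg : FS) (cs : List (FS × List Use)) : ℕ :=
  List.rec (motive := fun _ => ℕ) (t1 tg) (fun f _ ih => Nat.add (Nat.mul (u1 f.2) (t1 f.1)) ih) cs

theorem t1_bound (k mask eq : ℕ) : ∀ fs : FS, tP 1 k mask eq fs + tN 1 k mask eq fs ≤ t1 fs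
  | [] => by simp [tP, tN, t1]
  | t :: fs => by
    have ih := t1_bound k mask eq fs
    have hdef : t1 (t :: fs) = Nat.add (Nat.add (pkk 1 t.p) (pkk 1 t.n)) (t1 fs) := rfl
    rw [hdef, pkk_eq, pkk_eq]
    simp only [tP, tN]
    show _ ≤ (ev 1 t.p + ev 1 t.n) + t1 fs
    split_ifs <;> omega

theorem u1_bound (eq : ℕ) (wt : ℕ → Bool) : ∀ us : List Use, mS 1 eq wt us ≤ u1 us
  | [] => by simp [mS, u1]
  | u :: us => by
    have ih := u1_bound eq wt us
    have hdef : u1 (u :: us) = Nat.add (pkk 1 u.m) (u1 us) := rfl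
    rw [hdef, pkk_eq]
    simp only [mS]
    show _ ≤ ev 1 u.m + u1 us
    split_ifs <;> omega

theorem c_bound (k mask eq : ℕ) (wp wn : ℕ → Bool) (tg : FS) : ∀ cs : List (FS × List Use),
    (tP 1 k mask eq tg + tN 1 k mask eq tg) + cP 1 k mask eq wp wn cs ≤ tot1 tg cs ∧
    (tP 1 k mask eq tg + tN 1 k mask eq tg) + cN 1 k mask eq wp wn cs ≤ tot1 tg cs
  | [] => by
    have := t1_bound k mask eq tg
    have hdef : tot1 tg [] = t1 tg := rfl
    rw [hdef]
    simp only [cP, cN]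
    omega
  | f :: cs => by
    obtain ⟨ih1, ih2⟩ := c_bound k mask eq wp wn tg cs
    have hdef : tot1 tg (f :: cs) = Nat.add (Nat.mul (u1 f.2) (t1 f.1)) (tot1 tg cs) := rfl
    rw [hdef]
    show _ ≤ u1 f.2 * t1 f.1 + tot1 tg cs ∧ _ ≤ u1 f.2 * t1 f.1 + tot1 tg cs
    have h1 := t1_bound k mask eq f.1
    have h2 := u1_bound eq wp f.2
    have h3 := u1_bound eq wn f.2
    have e1 : mS 1 eq wp f.2 * tP 1 k mask eq f.1 + mS 1 eq wn f.2 * tN 1 k mask eq f.1 ≤ u1 f.2 * t1 f.1 := by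
      calc _ ≤ u1 f.2 * tP 1 k mask eq f.1 + u1 f.2 * tN 1 k mask eq f.1 :=
            Nat.add_le_add (Nat.mul_le_mul_right _ h2) (Nat.mul_le_mul_right _ h3)
        _ = u1 f.2 * (tP 1 k mask eq f.1 + tN 1 k mask eq f.1) := by ring
        _ ≤ _ := Nat.mul_le_mul_left _ h1
    have e2 : mS 1 eq wp f.2 * tN 1 k mask eq f.1 + mS 1 eq wn f.2 * tP 1 k mask eq f.1 ≤ u1 f.2 * t1 f.1 := by
      calc _ ≤ u1 f.2 * tN 1 k mask eq f.1 + u1 f.2 * tP 1 k mask eq f.1 :=
            Nat.add_le_add (Nat.mul_le_mul_right _ h2) (Nat.mul_le_mul_right _ h3)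
        _ = u1 f.2 * (tP 1 k mask eq f.1 + tN 1 k mask eq f.1) := by ring
        _ ≤ _ := Nat.mul_le_mul_left _ h1
    simp only [cP, cN]
    constructor <;> omega

theorem d_bound (eq : ℕ) (wp wn : ℕ → Bool) (tg : FS) (cs : List (FS × List Use)) : ∀ l : List At,
    dP 1 eq wp wn tg cs l ≤ c1 l * tot1 tg cs ∧ dN 1 eq wp wn tg cs l ≤ c1 l * tot1 tg cs
  | [] => by simp [dP, dN]
  | a :: l => by
    obtain ⟨ih1, ih2⟩ := d_bound eq wp wn tg cs l
    obtain ⟨b1, b2⟩ := c_bound a.k a.mask eq wp wn tg cs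
    have hdef : c1 (a :: l) = Nat.add (pkk 1 a.c) (c1 l) := rfl
    rw [hdef, pkk_eq]
    show _ ≤ (ev 1 a.c + c1 l) * tot1 tg cs ∧ _ ≤ (ev 1 a.c + c1 l) * tot1 tg cs
    simp only [dP, dN]
    have e1 : ev 1 a.c * (tP 1 a.k a.mask eq tg + cN 1 a.k a.mask eq wp wn cs) ≤ ev 1 a.c * tot1 tg cs :=
      Nat.mul_le_mul_left _ (by omega)
    have e2 : ev 1 a.c * (tN 1 a.k a.mask eq tg + cP 1 a.k a.mask eq wp wn cs) ≤ ev 1 a.c * tot1 tg cs :=
      Nat.mul_le_mul_left _ (by omega)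
    constructor
    · calc _ ≤ ev 1 a.c * tot1 tg cs + c1 l * tot1 tg cs := Nat.add_le_add e1 ih1
        _ = _ := by ring
    · calc _ ≤ ev 1 a.c * tot1 tg cs + c1 l * tot1 tg cs := Nat.add_le_add e2 ih2
        _ = _ := by ring

/-! ### the fast test -/

noncomputable def dPf (N eq : ℕ) (wp wn : ℕ → Bool) (tg : FS) (cs : List (FS × List Use)) (l : List At) : ℕ :=
  List.rec (motive := fun _ => ℕ) 0 (fun a _ ih => Nat.add (Nat.mul (pkk N a.c)
    (sumP a.mask (flA N a.k eq wp wn tg cs))) ih) l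

noncomputable def dNf (N eq : ℕ) (wp wn : ℕ → Bool) (tg : FS) (cs : List (FS × List Use)) (l : List At) : ℕ :=
  List.rec (motive := fun _ => ℕ) 0 (fun a _ ih => Nat.add (Nat.mul (pkk N a.c)
    (sumN a.mask (flA N a.k eq wp wn tg cs))) ih) l

theorem dPf_eq (N eq : ℕ) (wp wn : ℕ → Bool) (tg : FS) (cs : List (FS × List Use)) (l : List At) :
    dPf N eq wp wn tg cs l = dP N eq wp wn tg cs l := by
  induction l with
  | nil => rfl
  | cons a l ih =>
    have : dPf N eq wp wn tg cs (a :: l) = Nat.add (Nat.mul (pkk N a.c)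
      (sumP a.mask (flA N a.k eq wp wn tg cs))) (dPf N eq wp wn tg cs l) := rfl
    rw [this, ih, dP, pkk_eq, (sum_flA N a.k eq a.mask wp wn tg cs).1]
    rfl

theorem dNf_eq (N eq : ℕ) (wp wn : ℕ → Bool) (tg : FS) (cs : List (FS × List Use)) (l : List At) :
    dNf N eq wp wn tg cs l = dN N eq wp wn tg cs l := by
  induction l with
  | nil => rfl
  | cons a l ih =>
    have : dNf N eq wp wn tg cs (a :: l) = Nat.add (Nat.mul (pkk N a.c)
      (sumN a.mask (flA N a.k eq wp wn tg cs))) (dNf N eq wp wn tg cs l) := rfl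
    rw [this, ih, dN, pkk_eq, (sum_flA N a.k eq a.mask wp wn tg cs).2]
    rfl

noncomputable def tsf (N eq : ℕ) (wp wn : ℕ → Bool) (tg : FS) (cs : List (FS × List Use)) (l : List At) :
    Bool :=
  Nat.beq (dPf N eq wp wn tg cs l) (dNf N eq wp wn tg cs l) && Nat.blt (Nat.mul (c1 l) (tot1 tg cs)) N

theorem tst_of_tsf {N eq : ℕ} {wp wn : ℕ → Bool} {tg : FS} {cs : List (FS × List Use)} {l : List At}
    (h : tsf N eq wp wn tg cs l = true) : tst N eq wp wn tg cs l = true := by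
  unfold tsf at h
  rw [Bool.and_eq_true] at h
  obtain ⟨h1, h2⟩ := h
  have h1 := Nat.eq_of_beq_eq_true h1
  rw [Nat.blt_eq] at h2
  obtain ⟨b1, b2⟩ := d_bound eq wp wn tg cs l
  have h2' : c1 l * tot1 tg cs < N := h2
  unfold tst
  rw [Bool.and_eq_true, Bool.and_eq_true, dPk_eq, dNk_eq, dPk_eq, dNk_eq, Nat.blt_eq, Nat.blt_eq]
  rw [dPf_eq, dNf_eq] at h1
  refine ⟨?_, ?_, ?_⟩
  · rw [h1]
    exact Nat.beq_refl _
  · exact lt_of_le_of_lt b1 h2'
  · exact lt_of_le_of_lt b2 h2'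

end Pool.Agent.HamChrom
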