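import Pool.Agent.HamChrom.Induct
import Pool.Agent.HamChrom.Fast

/-!
From checked certificates to the cone hypothesis.
-/

set_option autoImplicit false

namespace Pool.Agent.HamChrom

open Finset

variable {T : Type}

/-! ### the checks -/

structure Cert where
  D : List ℕ
  N : ℕ
  cs : List (Fact × List Use)

def csFS (P : Par) (fams : List Fam) (cs : List (Fact × List Use)) : List (FS × List Use) :=
  cs.map (fun f => (factFS P fams f.1, f.2))

def wpI (π : List ℕ) (s : ℕ) : Bool :=
  match s with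
  | 0 => true
  | 2 => !Nat.beq (lab π 0) (lab π 2)
  | 3 => !Nat.beq (lab π 1) (lab π 2)
  | 5 => !Nat.beq (lab π 3) (lab π 2)
  | _ => false

def wnI (_ : ℕ) : Bool := false

def wpII (s : ℕ) : Bool :=
  match s with
  | 1 => true
  | _ => false

def wnII (π : List ℕ) (s : ℕ) : Bool :=
  match s with
  | 2 => Nat.beq (lab π 0) (lab π 4)
  | 3 => Nat.beq (lab π 1) (lab π 4)
  | 5 => Nat.beq (lab π 3) (lab π 4)
  | _ => false

def predI (sg base : Bool) (π : List ℕ) : Bool :=
  Nat.beq (lab π 4) (lab π 2) && ((!sg || Nat.beq (lab π 1) (lab π 0)) && (!base || Nat.beq (lab π 3) (lab π 0)))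

def predII (sg base : Bool) (π : List ℕ) : Bool :=
  !Nat.beq (lab π 4) (lab π 2) && ((!sg || Nat.beq (lab π 1) (lab π 0)) && (!base || Nat.beq (lab π 3) (lab π 0)))

/-- head of `D` positive -/
def posD (D : List ℕ) : Bool :=
  match D with
  | [] => false
  | a :: _ => Nat.blt 0 a

def combosOf (P : Par) (base tm : Bool) (π : List ℕ) : List (List At) :=
  cond base (combosBase tm π) (combosMain P.E P.W tm π)

/-- block I check on a list of patterns -/
noncomputable def chkI (P : Par) (fams : List Fam) (F : Fam) (base : Bool) (C : Cert) (ps : List (List ℕ)) : Bool :=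
  ps.all (fun π => cond (predI F.sg base π) ((combosOf P base F.tm π).all (fun l =>
    tsf C.N (eqm π) (wpI π) wnI (famI (mulL C.D P.E) (mulL C.D P.K) (mulL C.D P.W) F.tt)
      (csFS P fams C.cs) l)) true)

/-- block II check on a list of patterns -/
noncomputable def chkII (P : Par) (fams : List Fam) (F : Fam) (base : Bool) (C : Cert) (ps : List (List ℕ)) : Bool :=
  ps.all (fun π => cond (predII F.sg base π) ((combosOf P base F.tm π).all (fun l =>
    tsf C.N (eqm π) wpII (wnII π) (famII (mulL C.D P.K) (mulL C.D P.W) F.tt)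
      (csFS P fams C.cs) l)) true)

/-- side conditions -/
def chkS (P : Par) (fams : List Fam) (F : Fam) (base : Bool) (C : Cert) : Bool :=
  posD C.D && (csOK (csFS P fams C.cs) &&
    C.cs.all (fun f => cond base (factOKB f.1) (factOK fams F.tm f.1)))

/-- everything is checked -/
structure Checked (P : Par) (fams : List Fam) (F : Fam) (base : Bool) (C : Cert) : Prop where
  I : chkI P fams F base C pats = true
  II : chkII P fams F base C pats = true
  S : chkS P fams F base C = true

theorem chkI_append (P : Par) (fams : List Fam) (F : Fam) (base : Bool) (C : Cert) (ps qs : List (List ℕ)) :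
    chkI P fams F base C (ps ++ qs) = (chkI P fams F base C ps && chkI P fams F base C qs) := by
  unfold chkI
  rw [List.all_append]

theorem chkII_append (P : Par) (fams : List Fam) (F : Fam) (base : Bool) (C : Cert) (ps qs : List (List ℕ)) :
    chkII P fams F base C (ps ++ qs) = (chkII P fams F base C ps && chkII P fams F base C qs) := by
  unfold chkII
  rw [List.all_append]

theorem posD_pos {D : List ℕ} (h : posD D = true) {ρ : ℝ} (hρ : 0 ≤ ρ) : 0 < ev ρ D := by
  cases D with
  | nil => exact absurd h (by simp [posD])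
  | cons a l =>
    have ha : 0 < a := by
      have : Nat.blt 0 a = true := h
      rwa [Nat.blt_eq] at this
    have h1 : (0 : ℝ) < a := by exact_mod_cast ha
    have h2 := ev_nonneg hρ l
    simp only [ev]
    have := mul_nonneg hρ h2
    linarith

theorem beq_iff {a b : ℕ} : Nat.beq a b = true ↔ a = b :=
  ⟨Nat.eq_of_beq_eq_true, fun h => by rw [h]; exact Nat.beq_refl b⟩

theorem beq_not_iff {a b : ℕ} : (!Nat.beq a b) = true ↔ a ≠ b := by
  rw [Bool.not_eq_true', ← Bool.not_eq_true, beq_iff]

theorem ne01_ite {π : List ℕ} {col : ℕ → ℕ} (hg : Good π col) {i j : ℕ} (hi : i < 5) (hj : j < 5) :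
    ne01 (col i) (col j) = if (!Nat.beq (lab π i) (lab π j)) = true then 1 else 0 := by
  by_cases h : lab π i = lab π j
  · have h1 : Nat.beq (lab π i) (lab π j) = true := beq_iff.2 h
    rw [(hg.iff i hi j hj).1 h, ne01_self, h1]
    simp
  · have h1 : (!Nat.beq (lab π i) (lab π j)) = true := beq_not_iff.2 h
    rw [if_pos h1, ne01_of_ne (fun h' => h ((hg.iff i hi j hj).2 h'))]

theorem wI_match {π : List ℕ} {col : ℕ → ℕ} (hg : Good π col) (s : ℕ) :
    wtI col s = (if wpI π s then 1 else 0) - (if wnI s then 1 else 0) := by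
  match s with
  | 0 => simp [wtI, wpI, wnI]
  | 1 => simp [wtI, wpI, wnI]
  | 2 =>
    show ne01 (col 0) (col 2) = (if (!Nat.beq (lab π 0) (lab π 2)) = true then 1 else 0)
      - (if false = true then 1 else 0)
    rw [ne01_ite hg (by norm_num) (by norm_num)]
    simp
  | 3 =>
    show ne01 (col 1) (col 2) = (if (!Nat.beq (lab π 1) (lab π 2)) = true then 1 else 0)
      - (if false = true then 1 else 0)
    rw [ne01_ite hg (by norm_num) (by norm_num)]
    simp
  | 4 => simp [wtI, wpI, wnI]
  | 5 =>
    show ne01 (col 3) (col 2) = (if (!Nat.beq (lab π 3) (lab π 2)) = true then 1 else 0)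
      - (if false = true then 1 else 0)
    rw [ne01_ite hg (by norm_num) (by norm_num)]
    simp
  | n + 6 => simp [wtI, wpI, wnI]

theorem neg_ite {π : List ℕ} {col : ℕ → ℕ} (hg : Good π col) {i j : ℕ} (hi : i < 5) (hj : j < 5) :
    -(1 - ne01 (col i) (col j)) = 0 - (if Nat.beq (lab π i) (lab π j) = true then 1 else 0) := by
  rw [ne01_ite hg hi hj]
  cases Nat.beq (lab π i) (lab π j) <;> simp

theorem wII_match {π : List ℕ} {col : ℕ → ℕ} (hg : Good π col) (s : ℕ) :
    wtII col s = (if wpII s then 1 else 0) - (if wnII π s then 1 else 0) := by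
  match s with
  | 0 => simp [wtII, wpII, wnII]
  | 1 => simp [wtII, wpII, wnII]
  | 2 =>
    show -(1 - ne01 (col 0) (col 4)) = (if false = true then 1 else 0)
      - (if Nat.beq (lab π 0) (lab π 4) = true then 1 else 0)
    rw [neg_ite hg (by norm_num) (by norm_num)]
    simp
  | 3 =>
    show -(1 - ne01 (col 1) (col 4)) = (if false = true then 1 else 0)
      - (if Nat.beq (lab π 1) (lab π 4) = true then 1 else 0)
    rw [neg_ite hg (by norm_num) (by norm_num)]
    simp
  | 4 => simp [wtII, wpII, wnII]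
  | 5 =>
    show -(1 - ne01 (col 3) (col 4)) = (if false = true then 1 else 0)
      - (if Nat.beq (lab π 3) (lab π 4) = true then 1 else 0)
    rw [neg_ite hg (by norm_num) (by norm_num)]
    simp
  | n + 6 => simp [wtII, wpII, wnII]

theorem scaled {P : Par} {y ρ : ℝ} (hP : P.Rel y ρ) {D : List ℕ} (hD : posD D = true) :
    0 < ev ρ D * P.e ρ ∧ ev ρ (mulL D P.E) = ev ρ D * P.e ρ ∧
    ev ρ (mulL D P.K) = ev ρ D * P.e ρ * (y / (1 - y) ^ 2) ∧
    ev ρ (mulL D P.W) = ev ρ D * P.e ρ * (1 / (1 - y)) := by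
  refine ⟨mul_pos (posD_pos hD hP.hρ) hP.e_pos, ?_, ?_, ?_⟩
  · rw [ev_mulL, hP.ev_E]
  · rw [ev_mulL, hP.ev_K]; ring
  · rw [ev_mulL, hP.ev_W]; ring

section

variable (y : ℝ) (b : T)

/-- the step for one family, words of positive length -/
theorem step_main {P : Par} {ρ : ℝ} (hP : P.Rel y ρ) {fams : List Fam} {F : Fam} {C : Cert}
    (hC : Checked P fams F false C) (g : T × List T) (W : WT T)
    (hInv : InvW y ρ fams b (g :: W) g.1) (hF : InvF y b W) (g' : T × List T) (x v : T)
    (hsg : F.sg = true → v = x) :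
    InCone (fun c => tmf F.tm x b c * famEv (MW y b (g' :: g :: W) c) ρ (c x) (c v) (c g'.1) F.tt) := by
  obtain ⟨u, L⟩ := g'
  have hS := hC.S
  unfold chkS at hS
  rw [Bool.and_eq_true, Bool.and_eq_true, List.all_eq_true] at hS
  obtain ⟨hD, hok, hfacts⟩ := hS
  obtain ⟨he, hE, hK, hW⟩ := scaled hP hD
  have hc0 : ∀ (c : T → ℕ) (col : ℕ → ℕ), col 0 = c x → c x ≠ c b →
      (F.tm = true → MW y b (g :: W) c 0 (ind (col 0)) = 0) := by
    intro c col h0 hne _
    show ind (col 0) (c b) = 0
    rw [h0]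
    exact ind_of_ne (fun h => hne h.symm)
  have hkey : ∀ (c : T → ℕ) (p : T), (F.tm = true → c x ≠ c b) → ∀ (π : List ℕ),
      π = patc (fun i => c (pts x v u g.1 p i)) → ∀ (wt : ℕ → ℝ) (wp wn : ℕ → Bool),
      (∀ s, wt s = (if wp s then 1 else 0) - (if wn s then 1 else 0)) → ∀ tg : FS,
      (∀ l ∈ combosMain P.E P.W F.tm π, tst C.N (eqm π) wp wn tg (csFS P fams C.cs) l = true) →
      FS.ev (fun i => c (pts x v u g.1 p i)) (MW y b (g :: W) c) ρ tg
        = certEv (fun i => c (pts x v u g.1 p i)) (MW y b (g :: W) c) ρ wt (csFS P fams C.cs) := by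
    intro c p hne π hπ wt wp wn hw tg ht
    have hg : Good π (fun i => c (pts x v u g.1 p i)) := by rw [hπ]; exact patc_good _
    refine main_eq hg (MW_lin y b (g :: W) c) (fun k hk f => MW_big _ _ _ _ _ hk f) (ne_of_gt hP.e_pos)
      hP.ev_E hP.ev_W ?_ ?_ ?_ hw ht
    · show mu y (c b) (wd c (g :: W)) (ind (c g.1)) = mu' y (c b) (wd c (g :: W)) (ind (c g.1))
      exact mu_ref y (c b) (c g.1, g.2.map c) (wd c W)
    · show lam y (c b) (wd c (g :: W)) (ind (c g.1)) = lam' y (c b) (wd c (g :: W)) (ind (c g.1))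
        + (1 / (1 - y)) * lam' y (c b) (wd c (g :: W)) (fun z => ne01 z (c g.1))
      exact lam_ref y (c b) (c g.1, g.2.map c) (wd c W)
    · intro htm
      exact hc0 c (fun i => c (pts x v u g.1 p i)) rfl (hne htm) htm
  have htriv : ∀ (c : T → ℕ), tmf F.tm x b c ≠ 0 → (F.tm = true → c x ≠ c b) := by
    intro c h htm e
    apply h
    unfold tmf
    rw [htm, if_pos rfl, e, ne01_self]
  refine hub_induct y b (g :: W) g.1 x v u F.tm F.tt ρ _ hP.hρ he _ _ _ hE hK hW
    (csFS P fams C.cs) hok ?_ ?_ ?_ L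
  · intro f hf p
    unfold csFS at hf
    rw [List.mem_map] at hf
    obtain ⟨f', hf', rfl⟩ := hf
    exact fact_cone y b hP.y0 hP.y1 P ρ hP fams F.tm g W (pts x v u g.1 p) rfl hInv hF f'.1 (hfacts f' hf')
  · intro c
    by_cases ht : tmf F.tm x b c = 0
    · rw [ht]; ring
    congr 1
    set col : ℕ → ℕ := fun i => c (pts x v u g.1 u i) with hcol
    have hg := patc_good col
    refine hkey c u (htriv c ht) (patc col) rfl _ (wpI (patc col)) wnI (wI_match hg) _ ?_
    have h1 := hC.I
    unfold chkI at h1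
    rw [List.all_eq_true] at h1
    have h2 := h1 (patc col) (patc_mem col)
    have hpred : predI F.sg false (patc col) = true := by
      unfold predI
      rw [Bool.and_eq_true, Bool.and_eq_true]
      refine ⟨beq_iff.2 ((hg.iff 4 (by norm_num) 2 (by norm_num)).2 rfl), ?_, by simp⟩
      cases hs : F.sg
      · simp
      · have : lab (patc col) 1 = lab (patc col) 0 :=
          (hg.iff 1 (by norm_num) 0 (by norm_num)).2 (by simp [hcol, pts, hsg hs])
        simp [this]
    rw [hpred, cond_true, List.all_eq_true] at h2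
    exact fun l hl => tst_of_tsf (h2 l hl)
  · intro p c
    by_cases ht : tmf F.tm x b c = 0
    · rw [ht]; ring
    by_cases hp : c p = c u
    · rw [hp, ne01_self]; ring
    congr 2
    set col : ℕ → ℕ := fun i => c (pts x v u g.1 p i) with hcol
    have hg := patc_good col
    refine hkey c p (htriv c ht) (patc col) rfl _ wpII (wnII (patc col)) (wII_match hg) _ ?_
    have h1 := hC.II
    unfold chkII at h1
    rw [List.all_eq_true] at h1
    have h2 := h1 (patc col) (patc_mem col)
    have hpred : predII F.sg false (patc col) = true := by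
      unfold predII
      rw [Bool.and_eq_true, Bool.and_eq_true]
      refine ⟨beq_not_iff.2 (fun h => hp ((hg.iff 4 (by norm_num) 2 (by norm_num)).1 h)), ?_, by simp⟩
      cases hs : F.sg
      · simp
      · have : lab (patc col) 1 = lab (patc col) 0 :=
          (hg.iff 1 (by norm_num) 0 (by norm_num)).2 (by simp [hcol, pts, hsg hs])
        simp [this]
    rw [hpred, cond_true, List.all_eq_true] at h2
    exact fun l hl => tst_of_tsf (h2 l hl)

/-- the step for one family, from the empty word -/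
theorem step_base {P : Par} {ρ : ℝ} (hP : P.Rel y ρ) {fams : List Fam} {F : Fam} {C : Cert}
    (hC : Checked P fams F true C) (g' : T × List T) (x v : T) (hsg : F.sg = true → v = x) :
    InCone (fun c => tmf F.tm x b c * famEv (MW y b (g' :: []) c) ρ (c x) (c v) (c g'.1) F.tt) := by
  obtain ⟨u, L⟩ := g'
  have hS := hC.S
  unfold chkS at hS
  rw [Bool.and_eq_true, Bool.and_eq_true, List.all_eq_true] at hS
  obtain ⟨hD, hok, hfacts⟩ := hS
  obtain ⟨he, hE, hK, hW⟩ := scaled hP hD
  have hkey : ∀ (c : T → ℕ) (p : T), (F.tm = true → c x ≠ c b) → ∀ (π : List ℕ),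
      π = patc (fun i => c (pts x v u x p i)) → ∀ (wt : ℕ → ℝ) (wp wn : ℕ → Bool),
      (∀ s, wt s = (if wp s then 1 else 0) - (if wn s then 1 else 0)) → ∀ tg : FS,
      (∀ l ∈ combosBase F.tm π, tst C.N (eqm π) wp wn tg (csFS P fams C.cs) l = true) →
      FS.ev (fun i => c (pts x v u x p i)) (MW y b ([] : WT T) c) ρ tg
        = certEv (fun i => c (pts x v u x p i)) (MW y b ([] : WT T) c) ρ wt (csFS P fams C.cs) := by
    intro c p hne π hπ wt wp wn hw tg ht
    have hg : Good π (fun i => c (pts x v u x p i)) := by rw [hπ]; exact patc_good _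
    refine base_eq hg (MW_lin y b ([] : WT T) c) (fun k hk f => MW_big _ _ _ _ _ hk f)
      (fun f => rfl) (fun f => rfl) (fun f => rfl) (fun f => rfl) ?_ hw ht
    intro htm
    show ind (c x) (c b) = 0
    exact ind_of_ne (fun h => hne htm h.symm)
  have htriv : ∀ (c : T → ℕ), tmf F.tm x b c ≠ 0 → (F.tm = true → c x ≠ c b) := by
    intro c h htm e
    apply h
    unfold tmf
    rw [htm, if_pos rfl, e, ne01_self]
  refine hub_induct y b ([] : WT T) x x v u F.tm F.tt ρ _ hP.hρ he _ _ _ hE hK hW
    (csFS P fams C.cs) hok ?_ ?_ ?_ L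
  · intro f hf p
    unfold csFS at hf
    rw [List.mem_map] at hf
    obtain ⟨f', hf', rfl⟩ := hf
    exact fact_coneB y b P ρ fams F.tm (pts x v u x p) f'.1 (hfacts f' hf')
  · intro c
    by_cases ht : tmf F.tm x b c = 0
    · rw [ht]; ring
    congr 1
    set col : ℕ → ℕ := fun i => c (pts x v u x u i) with hcol
    have hg := patc_good col
    refine hkey c u (htriv c ht) (patc col) rfl _ (wpI (patc col)) wnI (wI_match hg) _ ?_
    have h1 := hC.I
    unfold chkI at h1
    rw [List.all_eq_true] at h1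
    have h2 := h1 (patc col) (patc_mem col)
    have hpred : predI F.sg true (patc col) = true := by
      unfold predI
      rw [Bool.and_eq_true, Bool.and_eq_true]
      refine ⟨beq_iff.2 ((hg.iff 4 (by norm_num) 2 (by norm_num)).2 rfl), ?_, ?_⟩
      · cases hs : F.sg
        · simp
        · have : lab (patc col) 1 = lab (patc col) 0 :=
            (hg.iff 1 (by norm_num) 0 (by norm_num)).2 (by simp [hcol, pts, hsg hs])
          simp [this]
      · have : lab (patc col) 3 = lab (patc col) 0 :=
          (hg.iff 3 (by norm_num) 0 (by norm_num)).2 (by simp [hcol, pts])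
        simp [this]
    rw [hpred, cond_true, List.all_eq_true] at h2
    exact fun l hl => tst_of_tsf (h2 l hl)
  · intro p c
    by_cases ht : tmf F.tm x b c = 0
    · rw [ht]; ring
    by_cases hp : c p = c u
    · rw [hp, ne01_self]; ring
    congr 2
    set col : ℕ → ℕ := fun i => c (pts x v u x p i) with hcol
    have hg := patc_good col
    refine hkey c p (htriv c ht) (patc col) rfl _ wpII (wnII (patc col)) (wII_match hg) _ ?_
    have h1 := hC.II
    unfold chkII at h1
    rw [List.all_eq_true] at h1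
    have h2 := h1 (patc col) (patc_mem col)
    have hpred : predII F.sg true (patc col) = true := by
      unfold predII
      rw [Bool.and_eq_true, Bool.and_eq_true]
      refine ⟨beq_not_iff.2 (fun h => hp ((hg.iff 4 (by norm_num) 2 (by norm_num)).1 h)), ?_, ?_⟩
      · cases hs : F.sg
        · simp
        · have : lab (patc col) 1 = lab (patc col) 0 :=
            (hg.iff 1 (by norm_num) 0 (by norm_num)).2 (by simp [hcol, pts, hsg hs])
          simp [this]
      · have : lab (patc col) 3 = lab (patc col) 0 :=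
          (hg.iff 3 (by norm_num) 0 (by norm_num)).2 (by simp [hcol, pts])
        simp [this]
    rw [hpred, cond_true, List.all_eq_true] at h2
    exact fun l hl => tst_of_tsf (h2 l hl)

/-- the family `Q (1 + ρ) * phi` -/
def FF (P : Par) : Fam :=
  ⟨true, true, [⟨4, 0, 1, [P.Q, P.Q], []⟩, ⟨2, 0, 0, [], [P.A, P.B]⟩, ⟨2, 0, 1, [P.A, P.B], []⟩]⟩

theorem invF_of_invW {P : Par} {ρ : ℝ} (hP : P.Rel y ρ) {fams : List Fam} (hFF : FF P ∈ fams)
    (g : T × List T) (W : WT T) (h : InvW y ρ fams b (g :: W) g.1) : InvF y b (g :: W) := by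
  intro x
  have h1 := h (FF P) hFF x x (fun _ => rfl)
  have hpos : (0 : ℝ) < P.Q * (1 + ρ) := by
    have h1 : (0 : ℝ) < P.Q := by exact_mod_cast hP.Q0
    have h2 := hP.hρ
    positivity
  have h2 := h1.smul (1 / (P.Q * (1 + ρ))) (by positivity)
  refine h2.congr (fun c => ?_)
  have hη := hP.eta
  have hsub : lam' y (c b) (wd c (g :: W)) (fun z => 1 - ne01 z (c x))
      = lam' y (c b) (wd c (g :: W)) (fun _ => 1) - lam' y (c b) (wd c (g :: W)) (fun z => ne01 z (c x)) :=
    IsLin.sub ⟨fun f g => lam'_add _ _ _ f g, fun r f => lam'_smul _ _ _ r f⟩ _ _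
  have e1 : ∀ z : ℕ, ((if (1 : ℕ).testBit 0 then ne01 z (c x) else 1) * (if (1 : ℕ).testBit 1 then ne01 z (c x) else 1) *
      (if (1 : ℕ).testBit 2 then ne01 z (c g.1) else 1)) = ne01 z (c x) := by
    intro z
    have b0 : Nat.testBit 1 0 = true := by decide
    have b1 : Nat.testBit 1 1 = false := by decide
    have b2 : Nat.testBit 1 2 = false := by decide
    simp [b0, b1, b2]
  have e0 : ∀ z : ℕ, ((if (0 : ℕ).testBit 0 then ne01 z (c x) else 1) * (if (0 : ℕ).testBit 1 then ne01 z (c x) else 1) *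
      (if (0 : ℕ).testBit 2 then ne01 z (c g.1) else 1)) = 1 := by
    intro z
    simp
  simp only [FF, famEv, TT.ev, tmf, if_true, ev_nil, MW, add_zero]
  simp only [funext e1, funext e0]
  have g0 : ((if (0 : ℕ).testBit 0 then ne01 (c x) (c x) else 1) * (if (0 : ℕ).testBit 1 then ne01 (c x) (c g.1) else 1) *
      (if (0 : ℕ).testBit 2 then ne01 (c x) (c g.1) else 1) : ℝ) = 1 := by simp
  rw [g0, hsub]
  have q1 : ev ρ [P.Q, P.Q] = P.Q * (1 + ρ) := by simp only [ev]; ring
  have q2 : ev ρ [P.A, P.B] = P.Q * (1 + ρ) * (y / (1 - y)) := by rw [hη]; simp only [ev]; ring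
  rw [q1, q2]
  generalize (P.Q : ℝ) * (1 + ρ) = q at *
  generalize y / (1 - y) = η at *
  field_simp
  ring

theorem inv_word {P : Par} {ρ : ℝ} (hP : P.Rel y ρ) {fams : List Fam} (hFF : FF P ∈ fams)
    (hmain : ∀ F ∈ fams, ∃ C : Cert, Checked P fams F false C)
    (hbase : ∀ F ∈ fams, ∃ C : Cert, Checked P fams F true C) :
    ∀ W : WT T, InvF y b W ∧ ∀ g : T × List T, InvW y ρ fams b (g :: W) g.1
  | [] => by
    constructor
    · intro x
      refine (InCone.ne01 x b).congr (fun c => ?_)
      show ne01 (c x) (c b) = ne01 (c x) (c b) * (ne01 (c b) (c x) - (y / (1 - y)) * 0)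
      rw [ne01_comm (c b) (c x), mul_zero, sub_zero, ne01_mul_self]
    · intro g F hF x v hsg
      obtain ⟨C, hC⟩ := hbase F hF
      exact step_base y b hP hC g x v hsg
  | g' :: W => by
    obtain ⟨h1, h2⟩ := inv_word hP hFF hmain hbase W
    have h3 := h2 g'
    refine ⟨invF_of_invW y b hP hFF g' W h3, ?_⟩
    intro g F hF x v hsg
    obtain ⟨C, hC⟩ := hmain F hF
    exact step_main y b hP hC g' W h3 h1 g x v hsg

end

/-- a group as a reference vertex and the list of the others -/
theorem exists_group [DecidableEq T] (S : Finset T) (hS : S.Nonempty) :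
    ∃ g : T × List T, ∀ c : T → ℕ, gset (c g.1, g.2.map c) = S.image c := by
  obtain ⟨u, hu⟩ := hS
  refine ⟨(u, (S.erase u).toList), fun c => ?_⟩
  unfold gset
  ext γ
  simp only [Finset.mem_insert, List.mem_toFinset, List.mem_map, Finset.mem_toList, Finset.mem_erase,
    Finset.mem_image]
  constructor
  · rintro (rfl | ⟨a, ⟨_, ha⟩, rfl⟩)
    · exact ⟨u, hu, rfl⟩
    · exact ⟨a, ha, rfl⟩
  · rintro ⟨a, ha, rfl⟩
    by_cases h : a = u
    · left; rw [h]
    · right; exact ⟨a, ⟨h, ha⟩, rfl⟩

theorem exists_word [DecidableEq T] : ∀ (W : List (Finset T)) (_ : ∀ S ∈ W, S.Nonempty),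
    ∃ W' : WT T, ∀ c : T → ℕ, (wd c W').map gset = W.map (fun S => S.image c)
  | [], _ => ⟨[], fun c => rfl⟩
  | S :: W, h => by
    obtain ⟨g, hg⟩ := exists_group S (h S (by simp))
    obtain ⟨W', hW'⟩ := exists_word W (fun S' hS' => h S' (List.mem_cons_of_mem _ hS'))
    refine ⟨g :: W', fun c => ?_⟩
    rw [wd_cons, List.map_cons, List.map_cons, hg c, hW' c]

theorem coneHyp_of_checked {P : Par} {y ρ : ℝ} (hP : P.Rel y ρ) {fams : List Fam} (hFF : FF P ∈ fams)
    (hmain : ∀ F ∈ fams, ∃ C : Cert, Checked P fams F false C)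
    (hbase : ∀ F ∈ fams, ∃ C : Cert, Checked P fams F true C) : ConeHyp y := by
  intro T _ _ a b W hne _
  obtain ⟨W', hW'⟩ := exists_word W hne
  have h := (inv_word y b hP hFF hmain hbase W').1 a
  refine h.congr (fun c => ?_)
  rw [← hW' c]
  have := ph_eq y (c b) (by have := hP.y1; intro h; linarith) (wd c W') (c a)
  unfold ph at this
  rw [this]

end Pool.Agent.HamChrom
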