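import Pool.Agent.HamChrom.Mask

/-!
Formal sums of terms and their decomposition into atoms.
-/

set_option autoImplicit false

namespace Pool.Agent.HamChrom

open Finset

/-- a term `(p - n) * e_G * M_k[e_X]` -/
structure Tm where
  k : ℕ
  g : ℕ
  x : ℕ
  p : List ℕ
  n : List ℕ

abbrev FS := List Tm

/-- linear functional -/
structure IsLin (M : (ℕ → ℝ) → ℝ) : Prop where
  add : ∀ f g : ℕ → ℝ, M (fun x => f x + g x) = M f + M g
  smul : ∀ (r : ℝ) (f : ℕ → ℝ), M (fun x => r * f x) = r * M f

theorem IsLin.congr (M : (ℕ → ℝ) → ℝ) {f g : ℕ → ℝ} (h : ∀ x, f x = g x) : M f = M g := by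
  rw [funext h]

theorem IsLin.zero {M : (ℕ → ℝ) → ℝ} (hM : IsLin M) : M (fun _ => 0) = 0 := by
  have := hM.smul 0 (fun _ => 0)
  simpa using this

theorem IsLin.sum {M : (ℕ → ℝ) → ℝ} (hM : IsLin M) {ι : Type} (s : Finset ι) (F : ι → ℕ → ℝ) :
    M (fun x => ∑ i ∈ s, F i x) = ∑ i ∈ s, M (F i) := by
  classical
  induction s using Finset.induction_on with
  | empty => simpa using hM.zero
  | insert a s ha ih =>
    simp only [Finset.sum_insert ha]
    rw [hM.add, ih]

theorem IsLin.sub {M : (ℕ → ℝ) → ℝ} (hM : IsLin M) (f g : ℕ → ℝ) :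
    M (fun x => f x - g x) = M f - M g := by
  have h1 : ∀ x, f x - g x = f x + (-1) * g x := fun x => by ring
  rw [IsLin.congr M h1, hM.add, hM.smul]
  ring

/-- value of a term -/
noncomputable def Tm.ev (col : ℕ → ℕ) (M : ℕ → (ℕ → ℝ) → ℝ) (ρ : ℝ) (t : Tm) : ℝ :=
  (HamChrom.ev ρ t.p - HamChrom.ev ρ t.n) * eGm col t.g * M t.k (eXm col t.x)

/-- value of a formal sum -/
noncomputable def FS.ev (col : ℕ → ℕ) (M : ℕ → (ℕ → ℝ) → ℝ) (ρ : ℝ) : FS → ℝ
  | [] => 0
  | t :: fs => t.ev col M ρ + FS.ev col M ρ fs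

theorem FS.ev_append (col : ℕ → ℕ) (M : ℕ → (ℕ → ℝ) → ℝ) (ρ : ℝ) (A B : FS) :
    FS.ev col M ρ (A ++ B) = FS.ev col M ρ A + FS.ev col M ρ B := by
  induction A with
  | nil => simp [FS.ev]
  | cons t A ih => simp only [List.cons_append, FS.ev, ih]; ring

/-- does a term contribute to the atom `(k, mask)` at a pattern with equality mask `eq` -/
def cnd (k mask eq : ℕ) (t : Tm) : Bool :=
  Nat.beq t.k k && (Nat.beq (Nat.land t.g eq) 0 && Nat.beq (Nat.land t.x mask) 0)

section generic

variable {S : Type} [CommSemiring S]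

def tP (N : S) (k mask eq : ℕ) : FS → S
  | [] => 0
  | t :: fs => (if cnd k mask eq t then HamChrom.ev N t.p else 0) + tP N k mask eq fs

def tN (N : S) (k mask eq : ℕ) : FS → S
  | [] => 0
  | t :: fs => (if cnd k mask eq t then HamChrom.ev N t.n else 0) + tN N k mask eq fs

variable {S' : Type} [CommSemiring S']

theorem tP_map (φ : S →+* S') (N : S) (k mask eq : ℕ) : ∀ fs : FS,
    φ (tP N k mask eq fs) = tP (φ N) k mask eq fs
  | [] => by simp [tP]
  | t :: fs => by
    simp only [tP, map_add, tP_map φ N k mask eq fs]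
    by_cases h : cnd k mask eq t = true
    · rw [if_pos h, if_pos h, ev_map]
    · rw [if_neg h, if_neg h, map_zero]

theorem tN_map (φ : S →+* S') (N : S) (k mask eq : ℕ) : ∀ fs : FS,
    φ (tN N k mask eq fs) = tN (φ N) k mask eq fs
  | [] => by simp [tN]
  | t :: fs => by
    simp only [tN, map_add, tN_map φ N k mask eq fs]
    by_cases h : cnd k mask eq t = true
    · rw [if_pos h, if_pos h, ev_map]
    · rw [if_neg h, if_neg h, map_zero]

end generic

/-- the real value at an atom -/
noncomputable def tR (ρ : ℝ) (k mask eq : ℕ) (fs : FS) : ℝ := tP ρ k mask eq fs - tN ρ k mask eq fs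

theorem tR_nil (ρ : ℝ) (k mask eq : ℕ) : tR ρ k mask eq [] = 0 := by simp [tR, tP, tN]

theorem tR_cons (ρ : ℝ) (k mask eq : ℕ) (t : Tm) (fs : FS) : tR ρ k mask eq (t :: fs)
    = (if cnd k mask eq t then (HamChrom.ev ρ t.p - HamChrom.ev ρ t.n) else 0) + tR ρ k mask eq fs := by
  unfold tR
  simp only [tP, tN]
  split_ifs <;> ring

/-- Decomposition of a formal sum at a pattern. -/
theorem FS.ev_pat {π : List ℕ} {col : ℕ → ℕ} (hg : Good π col) {M : ℕ → (ℕ → ℝ) → ℝ}
    (hM : ∀ k, IsLin (M k)) (hM5 : ∀ k, 5 ≤ k → ∀ f, M k f = 0) (ρ : ℝ) : ∀ fs : FS,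
    FS.ev col M ρ fs = ∑ k ∈ range 5, (∑ l ∈ reps π, tR ρ k (bm π l) (eqm π) fs * M k (ind (col l))
      + tR ρ k 0 (eqm π) fs * M k (restf π col))
  | [] => by
    simp only [FS.ev, tR_nil, zero_mul, Finset.sum_const_zero, add_zero]
  | t :: fs => by
    rw [FS.ev, FS.ev_pat hg hM hM5 ρ fs]
    have hX : M t.k (eXm col t.x) = ∑ l ∈ reps π, (if Nat.land t.x (bm π l) = 0 then 1 else 0) *
        M t.k (ind (col l)) + M t.k (restf π col) := by
      rw [IsLin.congr (M t.k) (hg.eXm t.x), (hM t.k).add, (hM t.k).sum]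
      congr 1
      apply Finset.sum_congr rfl
      intro l _
      exact (hM t.k).smul _ _
    have hterm : t.ev col M ρ = ∑ k ∈ range 5, (∑ l ∈ reps π,
        (if cnd k (bm π l) (eqm π) t then (HamChrom.ev ρ t.p - HamChrom.ev ρ t.n) else 0) * M k (ind (col l))
        + (if cnd k 0 (eqm π) t then (HamChrom.ev ρ t.p - HamChrom.ev ρ t.n) else 0) * M k (restf π col)) := by
      have hother : ∀ k, k ≠ t.k → (∑ l ∈ reps π,
          (if cnd k (bm π l) (eqm π) t then (HamChrom.ev ρ t.p - HamChrom.ev ρ t.n) else 0) * M k (ind (col l))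
          + (if cnd k 0 (eqm π) t then (HamChrom.ev ρ t.p - HamChrom.ev ρ t.n) else 0) * M k (restf π col)) = 0 := by
        intro k hk
        have hb : Nat.beq t.k k = false := by
          rw [← Bool.not_eq_true]
          intro h
          exact hk (Nat.eq_of_beq_eq_true h).symm
        have h1 : ∀ mask, cnd k mask (eqm π) t = false := by
          intro mask
          simp [cnd, hb]
        simp only [h1]
        simp
      by_cases hk5 : t.k < 5
      · rw [Finset.sum_eq_single t.k (fun k _ hk => hother k hk)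
          (fun h => absurd (Finset.mem_range.2 hk5) h)]
        unfold Tm.ev
        rw [hg.eGm, hX]
        have hbk : Nat.beq t.k t.k = true := Nat.beq_refl t.k
        by_cases h0 : Nat.land t.g (eqm π) = 0
        · have hc : ∀ mask, cnd t.k mask (eqm π) t = Nat.beq (Nat.land t.x mask) 0 := by
            intro mask
            have hb0 : Nat.beq (Nat.land t.g (eqm π)) 0 = true := by rw [h0]; rfl
            unfold cnd
            rw [hbk, hb0, Bool.true_and, Bool.true_and]
          have hl0 : Nat.land t.x 0 = 0 := Nat.and_zero t.x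
          have hb2 : Nat.beq (Nat.land t.x 0) 0 = true := by rw [hl0]; rfl
          simp only [hc]
          rw [if_pos h0, hb2, if_pos rfl, mul_one, mul_add, Finset.mul_sum]
          congr 1
          apply Finset.sum_congr rfl
          intro l _
          by_cases h2 : Nat.land t.x (bm π l) = 0
          · have h3 : Nat.beq (Nat.land t.x (bm π l)) 0 = true := by rw [h2]; rfl
            rw [if_pos h2, h3, if_pos rfl]
            ring
          · have h3 : ¬ (Nat.beq (Nat.land t.x (bm π l)) 0 = true) := by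
              intro h
              exact h2 (Nat.eq_of_beq_eq_true h)
            rw [if_neg h2, if_neg h3]
            ring
        · have hc : ∀ mask, cnd t.k mask (eqm π) t = false := by
            intro mask
            have hb0 : Nat.beq (Nat.land t.g (eqm π)) 0 = false := by
              rw [← Bool.not_eq_true]
              intro h
              exact h0 (Nat.eq_of_beq_eq_true h)
            unfold cnd
            rw [hb0, Bool.false_and, Bool.and_false]
          simp only [hc]
          rw [if_neg h0]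
          simp
      · rw [Finset.sum_eq_zero (fun k hk => hother k (by
          rw [Finset.mem_range] at hk
          omega))]
        unfold Tm.ev
        rw [hM5 t.k (by omega), mul_zero]
    rw [hterm, ← Finset.sum_add_distrib]
    apply Finset.sum_congr rfl
    intro k _
    simp only [tR_cons, add_mul, Finset.sum_add_distrib]
    ring

/-! ### certificates -/

/-- one use of a fact -/
structure Use where
  s : ℕ
  g : ℕ
  m : List ℕ

section generic

variable {S : Type} [CommSemiring S]

/-- total multiplicity of the active uses at a pattern -/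
def mS (N : S) (eq : ℕ) (wt : ℕ → Bool) : List Use → S
  | [] => 0
  | u :: us => (if wt u.s && Nat.beq (Nat.land u.g eq) 0 then HamChrom.ev N u.m else 0) + mS N eq wt us

/-- positive part of the total of a certificate at an atom -/
def cP (N : S) (k mask eq : ℕ) (wp wn : ℕ → Bool) : List (FS × List Use) → S
  | [] => 0
  | f :: fs => (mS N eq wp f.2 * tP N k mask eq f.1 + mS N eq wn f.2 * tN N k mask eq f.1)
      + cP N k mask eq wp wn fs

def cN (N : S) (k mask eq : ℕ) (wp wn : ℕ → Bool) : List (FS × List Use) → S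
  | [] => 0
  | f :: fs => (mS N eq wp f.2 * tN N k mask eq f.1 + mS N eq wn f.2 * tP N k mask eq f.1)
      + cN N k mask eq wp wn fs

variable {S' : Type} [CommSemiring S']

theorem mS_map (φ : S →+* S') (N : S) (eq : ℕ) (wt : ℕ → Bool) : ∀ us : List Use,
    φ (mS N eq wt us) = mS (φ N) eq wt us
  | [] => by simp [mS]
  | u :: us => by
    simp only [mS, map_add, mS_map φ N eq wt us]
    by_cases h : (wt u.s && Nat.beq (Nat.land u.g eq) 0) = true
    · rw [if_pos h, if_pos h, ev_map]
    · rw [if_neg h, if_neg h, map_zero]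

theorem cP_map (φ : S →+* S') (N : S) (k mask eq : ℕ) (wp wn : ℕ → Bool) :
    ∀ cs : List (FS × List Use), φ (cP N k mask eq wp wn cs) = cP (φ N) k mask eq wp wn cs
  | [] => by simp [cP]
  | f :: fs => by
    simp only [cP, map_add, map_mul, mS_map, tP_map, tN_map, cP_map φ N k mask eq wp wn fs]

theorem cN_map (φ : S →+* S') (N : S) (k mask eq : ℕ) (wp wn : ℕ → Bool) :
    ∀ cs : List (FS × List Use), φ (cN N k mask eq wp wn cs) = cN (φ N) k mask eq wp wn cs
  | [] => by simp [cN]
  | f :: fs => by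
    simp only [cN, map_add, map_mul, mS_map, tP_map, tN_map, cN_map φ N k mask eq wp wn fs]

end generic

/-- real value of the uses of a fact with slots weighted by `wt` (a real function of the slot) -/
noncomputable def usesEv (col : ℕ → ℕ) (ρ : ℝ) (wt : ℕ → ℝ) : List Use → ℝ
  | [] => 0
  | u :: us => wt u.s * (HamChrom.ev ρ u.m * eGm col u.g) + usesEv col ρ wt us

/-- real value of a certificate -/
noncomputable def certEv (col : ℕ → ℕ) (M : ℕ → (ℕ → ℝ) → ℝ) (ρ : ℝ) (wt : ℕ → ℝ) :
    List (FS × List Use) → ℝ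
  | [] => 0
  | f :: fs => usesEv col ρ wt f.2 * FS.ev col M ρ f.1 + certEv col M ρ wt fs

theorem usesEv_pat {π : List ℕ} {col : ℕ → ℕ} (hg : Good π col) (ρ : ℝ) (wt : ℕ → ℝ)
    (wp wn : ℕ → Bool) (hw : ∀ s, wt s = (if wp s then 1 else 0) - (if wn s then 1 else 0)) :
    ∀ us : List Use, usesEv col ρ wt us = mS ρ (eqm π) wp us - mS ρ (eqm π) wn us
  | [] => by simp [usesEv, mS]
  | u :: us => by
    rw [usesEv, usesEv_pat hg ρ wt wp wn hw us, hw, hg.eGm]
    simp only [mS]
    by_cases h0 : Nat.land u.g (eqm π) = 0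
    · have hb0 : Nat.beq (Nat.land u.g (eqm π)) 0 = true := by rw [h0]; rfl
      rw [if_pos h0, hb0, Bool.and_true, Bool.and_true]
      split_ifs <;> ring
    · have hb0 : Nat.beq (Nat.land u.g (eqm π)) 0 = false := by
        rw [← Bool.not_eq_true]
        intro h
        exact h0 (Nat.eq_of_beq_eq_true h)
      rw [if_neg h0, hb0, Bool.and_false, Bool.and_false]
      simp only [Bool.false_eq_true, if_false]
      ring

/-- decomposition of a certificate at a pattern -/
theorem certEv_pat {π : List ℕ} {col : ℕ → ℕ} (hg : Good π col) {M : ℕ → (ℕ → ℝ) → ℝ}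
    (hM : ∀ k, IsLin (M k)) (hM5 : ∀ k, 5 ≤ k → ∀ f, M k f = 0) (ρ : ℝ) (wt : ℕ → ℝ)
    (wp wn : ℕ → Bool) (hw : ∀ s, wt s = (if wp s then 1 else 0) - (if wn s then 1 else 0)) :
    ∀ cs : List (FS × List Use), certEv col M ρ wt cs =
      ∑ k ∈ range 5, (∑ l ∈ reps π, (cP ρ k (bm π l) (eqm π) wp wn cs - cN ρ k (bm π l) (eqm π) wp wn cs)
          * M k (ind (col l))
        + (cP ρ k 0 (eqm π) wp wn cs - cN ρ k 0 (eqm π) wp wn cs) * M k (restf π col))
  | [] => by
    simp only [certEv, cP, cN, sub_self, zero_mul, Finset.sum_const_zero, add_zero]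
  | f :: fs => by
    rw [certEv, certEv_pat hg hM hM5 ρ wt wp wn hw fs, usesEv_pat hg ρ wt wp wn hw,
      FS.ev_pat hg hM hM5 ρ f.1, Finset.mul_sum, ← Finset.sum_add_distrib]
    apply Finset.sum_congr rfl
    intro k _
    rw [mul_add, Finset.mul_sum]
    simp only [cP, cN, tR]
    have h1 : ∑ l ∈ reps π, (mS ρ (eqm π) wp f.2 * tP ρ k (bm π l) (eqm π) f.1
          + mS ρ (eqm π) wn f.2 * tN ρ k (bm π l) (eqm π) f.1 + cP ρ k (bm π l) (eqm π) wp wn fs
          - (mS ρ (eqm π) wp f.2 * tN ρ k (bm π l) (eqm π) f.1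
          + mS ρ (eqm π) wn f.2 * tP ρ k (bm π l) (eqm π) f.1 + cN ρ k (bm π l) (eqm π) wp wn fs))
          * M k (ind (col l))
        = ∑ l ∈ reps π, (mS ρ (eqm π) wp f.2 - mS ρ (eqm π) wn f.2) *
            ((tP ρ k (bm π l) (eqm π) f.1 - tN ρ k (bm π l) (eqm π) f.1) * M k (ind (col l)))
          + ∑ l ∈ reps π, (cP ρ k (bm π l) (eqm π) wp wn fs - cN ρ k (bm π l) (eqm π) wp wn fs)
            * M k (ind (col l)) := by
      rw [← Finset.sum_add_distrib]
      apply Finset.sum_congr rfl
      intro l _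
      ring
    rw [h1]
    ring

end Pool.Agent.HamChrom
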