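import Pool.Agent.HamChrom.Lam

/-!
One-hub and add-one-hub expansions, boundary relations and manifest cone members.
-/

set_option autoImplicit false

namespace Pool.Agent.HamChrom

open Finset

variable (y : ℝ) (β : ℕ)

theorem mu_congr (W : Word) (f g : ℕ → ℝ) (h : ∀ x, f x = g x) : mu y β W f = mu y β W g := by
  rw [funext h]

theorem mu'_congr (W : Word) (f g : ℕ → ℝ) (h : ∀ x, f x = g x) : mu' y β W f = mu' y β W g := by
  rw [funext h]

theorem gstar_single (x u : ℕ) : gstar x (u, []) = ne01 x u := by simp [gstar]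

theorem gstar_cons (x u p : ℕ) (L : List ℕ) :
    gstar x (u, p :: L) = gstar x (u, L) - gstar x (u, L) * (1 - ne01 x p) := by
  simp only [gstar, star_cons]
  ring

theorem gsum_single (u : ℕ) (f : ℕ → ℝ) : gsum (u, []) f = f u := by simp [gsum]

theorem gsum_cons (u p : ℕ) (L : List ℕ) (f : ℕ → ℝ) :
    gsum (u, p :: L) f = gsum (u, L) f + gstar p (u, L) * f p := by
  simp only [gsum, bs_cons, gstar]
  ring

theorem lam_single (u : ℕ) (W : Word) (f : ℕ → ℝ) : lam y β ((u, []) :: W) f =
    lam y β W f + (y / (1 - y) ^ 2) * lam' y β W (fun x => f x * ne01 x u)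
      + (1 / (1 - y)) * (f u * lam y β W (fun x => ne01 x u)) := by
  rw [lam_cons, gsum_single]
  simp only [gstar_single]

theorem mu_single (u : ℕ) (W : Word) (f : ℕ → ℝ) : mu y β ((u, []) :: W) f =
    mu y β W f + (y / (1 - y) ^ 2) * mu' y β W (fun x => f x * ne01 x u) := by
  rw [mu_cons]
  simp only [gstar_single, bs_nil, mul_zero, add_zero]

/-- a function times the indicator of one colour -/
theorem mul_ind (f h : ℕ → ℝ) (p x : ℕ) :
    f x * (h x * (1 - ne01 x p)) = f p * h p * (1 - ne01 x p) := by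
  by_cases hx : x = p
  · subst hx
    ring
  · rw [ne01_of_ne hx]
    ring

theorem lam_hub (u p : ℕ) (L : List ℕ) (W : Word) (f : ℕ → ℝ) :
    lam y β ((u, p :: L) :: W) f = lam y β ((u, L) :: W) f
      + gstar p (u, L) * (f p * ((1 / (1 - y)) * lam y β W (fun x => ne01 x p)
        - (y / (1 - y) ^ 2) * lam' y β W (fun x => 1 - ne01 x p))) := by
  rw [lam_cons, lam_cons, gsum_cons]
  have h1 : lam' y β W (fun x => f x * gstar x (u, p :: L))
      = lam' y β W (fun x => f x * gstar x (u, L))
        - f p * gstar p (u, L) * lam' y β W (fun x => 1 - ne01 x p) := by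
    have h2 : ∀ x, f x * gstar x (u, L) = f x * gstar x (u, p :: L)
        + f p * gstar p (u, L) * (1 - ne01 x p) := by
      intro x
      rw [gstar_cons, ← mul_ind f (fun x => gstar x (u, L)) p x]
      ring
    rw [lam'_congr y β W _ _ h2, lam'_add, lam'_smul]
    ring
  rw [h1]
  ring

theorem mu_hub (u p : ℕ) (L : List ℕ) (W : Word) (f : ℕ → ℝ) :
    mu y β ((u, p :: L) :: W) f = mu y β ((u, L) :: W) f
      + gstar p (u, L) * (f p * ((1 / (1 - y)) * mu y β W (fun x => ne01 x p)
        - (y / (1 - y) ^ 2) * mu' y β W (fun x => 1 - ne01 x p))) := by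
  rw [mu_cons, mu_cons, bs_cons]
  have h1 : mu' y β W (fun x => f x * gstar x (u, p :: L))
      = mu' y β W (fun x => f x * gstar x (u, L))
        - f p * gstar p (u, L) * mu' y β W (fun x => 1 - ne01 x p) := by
    have h2 : ∀ x, f x * gstar x (u, L) = f x * gstar x (u, p :: L)
        + f p * gstar p (u, L) * (1 - ne01 x p) := by
      intro x
      rw [gstar_cons, ← mul_ind f (fun x => gstar x (u, L)) p x]
      ring
    rw [mu'_congr y β W _ _ h2, mu'_add, mu'_smul]
    ring
  rw [h1]
  simp only [gstar]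
  ring

/-! ### the mass at the reference colour -/

theorem bs_zero (u : ℕ) : ∀ (L : List ℕ) (f : ℕ → ℝ) (_ : ∀ x, x ≠ u → f x = 0), bs u L f = 0
  | [], f, _ => rfl
  | p :: L, f, h => by
    rw [bs_cons, bs_zero u L f h]
    by_cases hp : p = u
    · subst hp
      rw [ne01_self]
      ring
    · rw [h p hp]
      ring

theorem lam_ref (g : ℕ × List ℕ) (W : Word) :
    lam y β (g :: W) (fun x => 1 - ne01 x g.1) = lam y β W (fun x => 1 - ne01 x g.1)
      + (1 / (1 - y)) * lam y β W (fun x => ne01 x g.1) := by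
  rw [lam_cons]
  have h1 : ∀ x, (1 - ne01 x g.1) * gstar x g = 0 * (1 - ne01 x g.1) := by
    intro x
    unfold gstar
    by_cases hx : x = g.1
    · rw [hx, ne01_self]
      ring
    · rw [ne01_of_ne hx]
      ring
  rw [lam'_congr y β W _ _ h1, lam'_smul]
  have h2 : gsum g (fun c => (1 - ne01 c g.1) * lam y β W (fun x => ne01 x c))
      = lam y β W (fun x => ne01 x g.1) := by
    unfold gsum
    rw [bs_zero g.1 g.2 _ (by
      intro x hx
      rw [ne01_of_ne hx]
      ring)]
    simp only [ne01_self]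
    ring
  rw [h2]
  ring

theorem mu_ref (g : ℕ × List ℕ) (W : Word) :
    mu y β (g :: W) (fun x => 1 - ne01 x g.1) = mu y β W (fun x => 1 - ne01 x g.1) := by
  rw [mu_cons]
  have h1 : ∀ x, (1 - ne01 x g.1) * gstar x g = 0 * (1 - ne01 x g.1) := by
    intro x
    unfold gstar
    by_cases hx : x = g.1
    · rw [hx, ne01_self]
      ring
    · rw [ne01_of_ne hx]
      ring
  rw [mu'_congr y β W _ _ h1, mu'_smul]
  rw [bs_zero g.1 g.2 _ (by
      intro x hx
      rw [ne01_of_ne hx]
      ring)]
  ring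

/-- the identity behind the fact `EF` -/
theorem ef_identity (g : ℕ × List ℕ) (W : Word) (α : ℕ) :
    (y / (1 - y) ^ 2) * lam y β W (fun x => ne01 x α)
      - (y / (1 - y)) * (lam y β (g :: W) (fun x => 1 - ne01 x α) - lam y β W (fun x => 1 - ne01 x α))
    = (y / (1 - y) ^ 2) * (gstar α g * (lam y β W (fun x => ne01 x α)
      - (y / (1 - y)) * lam' y β W (fun x => 1 - ne01 x α))) := by
  by_cases hy : y = 1
  · subst hy
    simp
  have hz : 1 - y ≠ 0 := fun h => hy (by linarith)
  rw [lam_cons]
  have h1 : ∀ x, (1 - ne01 x α) * gstar x g = gstar α g * (1 - ne01 x α) := by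
    intro x
    by_cases hx : x = α
    · rw [hx]; ring
    · rw [ne01_of_ne hx]; ring
  rw [lam'_congr y β W _ _ h1, lam'_smul]
  have h2 : gsum g (fun c => (1 - ne01 c α) * lam y β W (fun x => ne01 x c))
      = (1 - gstar α g) * lam y β W (fun x => ne01 x α) := by
    rw [gsum_eq, gstar_eq]
    by_cases hα : α ∈ gset g
    · rw [if_pos hα, Finset.sum_eq_single α]
      · rw [ne01_self]
      · intro γ _ hγ
        rw [ne01_of_ne hγ, sub_self, zero_mul]
      · intro h
        exact absurd hα h
    · rw [if_neg hα, sub_self, zero_mul]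
      apply Finset.sum_eq_zero
      intro γ hγ
      have : γ ≠ α := fun h => hα (h ▸ hγ)
      rw [ne01_of_ne this]
      ring
  rw [h2]
  field_simp
  ring

end Pool.Agent.HamChrom
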