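import Pool.Agent.HamChrom.Facts

/-!
Adding hubs one at a time: from the two certificate identities to the cone statement for a
whole group.
-/

set_option autoImplicit false

namespace Pool.Agent.HamChrom

open Finset

variable {T : Type}

/-- the five points -/
def pts (x v u r p : T) (i : ℕ) : T :=
  match i with
  | 0 => x
  | 1 => v
  | 2 => u
  | 3 => r
  | _ => p

noncomputable def wtI (col : ℕ → ℕ) (s : ℕ) : ℝ :=
  match s with
  | 0 => 1
  | 2 => ne01 (col 0) (col 2)
  | 3 => ne01 (col 1) (col 2)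
  | 5 => ne01 (col 3) (col 2)
  | _ => 0

noncomputable def wtII (col : ℕ → ℕ) (s : ℕ) : ℝ :=
  match s with
  | 1 => 1
  | 2 => -(1 - ne01 (col 0) (col 4))
  | 3 => -(1 - ne01 (col 1) (col 4))
  | 5 => -(1 - ne01 (col 3) (col 4))
  | _ => 0

/-- selects one slot -/
noncomputable def slt (j s : ℕ) : ℝ := if s = j then 1 else 0

theorem usesEv_lin (col : ℕ → ℕ) (ρ a b : ℝ) (w1 w2 : ℕ → ℝ) : ∀ us : List Use,
    usesEv col ρ (fun s => a * w1 s + b * w2 s) us = a * usesEv col ρ w1 us + b * usesEv col ρ w2 us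
  | [] => by simp [usesEv]
  | u :: us => by
    simp only [usesEv]
    rw [usesEv_lin col ρ a b w1 w2 us]
    ring

theorem certEv_lin (col : ℕ → ℕ) (M : ℕ → (ℕ → ℝ) → ℝ) (ρ a b : ℝ) (w1 w2 : ℕ → ℝ) :
    ∀ cs : List (FS × List Use), certEv col M ρ (fun s => a * w1 s + b * w2 s) cs
      = a * certEv col M ρ w1 cs + b * certEv col M ρ w2 cs
  | [] => by simp [certEv]
  | f :: fs => by
    simp only [certEv]
    rw [usesEv_lin, certEv_lin col M ρ a b w1 w2 fs]
    ring

theorem certEv_congr (col : ℕ → ℕ) (M : ℕ → (ℕ → ℝ) → ℝ) (ρ : ℝ) (w1 w2 : ℕ → ℝ)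
    (h : ∀ s, w1 s = w2 s) (cs : List (FS × List Use)) : certEv col M ρ w1 cs = certEv col M ρ w2 cs := by
  rw [funext h]

theorem certEv_four (col : ℕ → ℕ) (M : ℕ → (ℕ → ℝ) → ℝ) (ρ : ℝ) (j : ℕ) (a b d : ℝ)
    (wt : ℕ → ℝ) (h : ∀ s, wt s = slt j s + a * slt 2 s + b * slt 3 s + d * slt 5 s)
    (cs : List (FS × List Use)) : certEv col M ρ wt cs = certEv col M ρ (slt j) cs
      + a * certEv col M ρ (slt 2) cs + b * certEv col M ρ (slt 3) cs + d * certEv col M ρ (slt 5) cs := by
  have h1 : ∀ s, wt s = 1 * (1 * (1 * slt j s + a * slt 2 s) + b * slt 3 s) + d * slt 5 s := by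
    intro s
    rw [h s]
    ring
  rw [certEv_congr col M ρ wt _ h1]
  have e1 := certEv_lin col M ρ 1 d (fun s => 1 * (1 * slt j s + a * slt 2 s) + b * slt 3 s) (slt 5) cs
  have e2 := certEv_lin col M ρ 1 b (fun s => 1 * slt j s + a * slt 2 s) (slt 3) cs
  have e3 := certEv_lin col M ρ 1 a (slt j) (slt 2) cs
  rw [e1, e2, e3]
  ring

theorem wtI_eq (col : ℕ → ℕ) (s : ℕ) : wtI col s = slt 0 s + ne01 (col 0) (col 2) * slt 2 s
    + ne01 (col 1) (col 2) * slt 3 s + ne01 (col 3) (col 2) * slt 5 s := by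
  unfold wtI slt
  split <;> simp_all

theorem wtII_eq (col : ℕ → ℕ) (s : ℕ) : wtII col s = slt 1 s + (-(1 - ne01 (col 0) (col 4))) * slt 2 s
    + (-(1 - ne01 (col 1) (col 4))) * slt 3 s + (-(1 - ne01 (col 3) (col 4))) * slt 5 s := by
  unfold wtII slt
  split <;> simp_all

/-! ### independence of the point 4 -/

def noPT (t : Tm) : Bool := Nat.beq (Nat.land t.g 840) 0 && Nat.beq (Nat.land t.x 16) 0

def noP (fs : FS) : Bool := fs.all noPT

def useOK (b : Bool) (u : Use) : Bool := Nat.beq u.s 1 || (b && Nat.beq (Nat.land u.g 840) 0)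

def csOK (cs : List (FS × List Use)) : Bool := cs.all (fun f => f.2.all (useOK (noP f.1)))

theorem land_bit {g m : ℕ} (h : Nat.land g m = 0) (k : ℕ) (hk : m.testBit k = true) :
    g.testBit k = false := by
  have h1 : (Nat.land g m).testBit k = (g.testBit k && m.testBit k) := Nat.testBit_and g m k
  rw [h, hk] at h1
  simpa using h1.symm

theorem eGm_noP {g : ℕ} (h : Nat.land g 840 = 0) {col col' : ℕ → ℕ} (hc : ∀ i < 4, col i = col' i) :
    eGm col g = eGm col' g := by
  unfold eGm
  apply Finset.prod_congr rfl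
  intro k hk
  rw [Finset.mem_range] at hk
  have h3 := land_bit h 3 (by decide)
  have h6 := land_bit h 6 (by decide)
  have h8 := land_bit h 8 (by decide)
  have h9 := land_bit h 9 (by decide)
  have c0 := hc 0 (by norm_num)
  have c1 := hc 1 (by norm_num)
  have c2 := hc 2 (by norm_num)
  have c3 := hc 3 (by norm_num)
  interval_cases k <;> simp [edg, h3, h6, h8, h9, c0, c1, c2, c3]

theorem eXm_noP {X : ℕ} (h : Nat.land X 16 = 0) {col col' : ℕ → ℕ} (hc : ∀ i < 4, col i = col' i)
    (z : ℕ) : eXm col X z = eXm col' X z := by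
  unfold eXm
  apply Finset.prod_congr rfl
  intro k hk
  rw [Finset.mem_range] at hk
  have h4 := land_bit h 4 (by decide)
  have c0 := hc 0 (by norm_num)
  have c1 := hc 1 (by norm_num)
  have c2 := hc 2 (by norm_num)
  have c3 := hc 3 (by norm_num)
  interval_cases k <;> simp [h4, c0, c1, c2, c3]

theorem FS.ev_noP (M : ℕ → (ℕ → ℝ) → ℝ) (ρ : ℝ) {col col' : ℕ → ℕ} (hc : ∀ i < 4, col i = col' i) :
    ∀ (fs : FS) (_ : noP fs = true), FS.ev col M ρ fs = FS.ev col' M ρ fs
  | [], _ => rfl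
  | t :: fs, h => by
    unfold noP at h
    rw [List.all_cons, Bool.and_eq_true] at h
    obtain ⟨h1, h2⟩ := h
    unfold noPT at h1
    rw [Bool.and_eq_true] at h1
    rw [FS.ev, FS.ev, FS.ev_noP M ρ hc fs h2]
    unfold Tm.ev
    rw [eGm_noP (Nat.eq_of_beq_eq_true h1.1) hc,
      IsLin.congr (M t.k) (eXm_noP (Nat.eq_of_beq_eq_true h1.2) hc)]

theorem usesEv_noP (ρ : ℝ) {col col' : ℕ → ℕ} (hc : ∀ i < 4, col i = col' i) (j : ℕ) (hj : j ≠ 1) (bb : Bool) :
    ∀ (us : List Use) (_ : us.all (useOK bb) = true),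
      usesEv col ρ (slt j) us = usesEv col' ρ (slt j) us ∧ (bb = false → usesEv col' ρ (slt j) us = 0)
  | [], _ => by simp [usesEv]
  | u :: us, h => by
    rw [List.all_cons, Bool.and_eq_true] at h
    obtain ⟨h1, h2⟩ := h
    obtain ⟨i1, i2⟩ := usesEv_noP ρ hc j hj bb us h2
    unfold useOK at h1
    rw [Bool.or_eq_true, Bool.and_eq_true] at h1
    simp only [usesEv]
    rcases h1 with h1 | ⟨h1, h3⟩
    · have hs : u.s = 1 := Nat.eq_of_beq_eq_true h1
      have : slt j u.s = 0 := by
        unfold slt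
        rw [hs, if_neg (fun h => hj h.symm)]
      rw [this]
      refine ⟨by rw [i1]; ring, fun hb => by rw [i2 hb]; ring⟩
    · rw [eGm_noP (Nat.eq_of_beq_eq_true h3) hc, i1]
      refine ⟨rfl, fun hb => ?_⟩
      rw [hb] at h1
      exact absurd h1 (by simp)

theorem certEv_noP (M : ℕ → (ℕ → ℝ) → ℝ) (ρ : ℝ) {col col' : ℕ → ℕ} (hc : ∀ i < 4, col i = col' i)
    (j : ℕ) (hj : j ≠ 1) : ∀ (cs : List (FS × List Use)) (_ : csOK cs = true),
    certEv col M ρ (slt j) cs = certEv col' M ρ (slt j) cs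
  | [], _ => rfl
  | f :: fs, h => by
    unfold csOK at h
    rw [List.all_cons, Bool.and_eq_true] at h
    obtain ⟨h1, h2⟩ := h
    obtain ⟨i1, i2⟩ := usesEv_noP ρ hc j hj (noP f.1) f.2 h1
    simp only [certEv]
    rw [certEv_noP M ρ hc j hj fs h2, i1]
    cases hn : noP f.1
    · rw [i2 hn]
      ring
    · rw [FS.ev_noP M ρ hc f.1 hn]

/-! ### cone membership of a slot -/

theorem uses_cone (pt : ℕ → T) (ρ : ℝ) (hρ : 0 ≤ ρ) (j : ℕ) : ∀ us : List Use,
    InCone (fun c : T → ℕ => usesEv (fun i => c (pt i)) ρ (slt j) us)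
  | [] => InCone.zero
  | u :: us => by
    have h1 : 0 ≤ slt j u.s * ev ρ u.m := by
      unfold slt
      split_ifs
      · rw [one_mul]; exact ev_nonneg hρ _
      · rw [zero_mul]
    have h2 := (InCone.eGm pt u.g).smul _ h1
    exact (InCone.add _ _ h2 (uses_cone pt ρ hρ j us)).congr (fun c => by
      simp only [usesEv]
      ring)

theorem cert_cone (y : ℝ) (b : T) (V : WT T) (pt : ℕ → T) (ρ : ℝ) (hρ : 0 ≤ ρ) (tm : Bool) (x : T) (j : ℕ) :
    ∀ (cs : List (FS × List Use))
    (_ : ∀ f ∈ cs, InCone (fun c => tmf tm x b c * FS.ev (fun i => c (pt i)) (MW y b V c) ρ f.1)),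
    InCone (fun c : T → ℕ => tmf tm x b c * certEv (fun i => c (pt i)) (MW y b V c) ρ (slt j) cs)
  | [], _ => InCone.zero.congr (fun c => by simp [certEv])
  | f :: fs, h => by
    have h1 := h f (by simp)
    have h2 := (uses_cone pt ρ hρ j f.2).mul h1
    have h3 := cert_cone y b V pt ρ hρ tm x j fs (fun f' hf' => h f' (List.mem_cons_of_mem _ hf'))
    exact (InCone.add _ _ h2 h3).congr (fun c => by
      simp only [certEv]
      ring)

/-! ### the hub induction -/

theorem ext_MW (y : ℝ) (b u : T) (V : WT T) (c : T → ℕ) :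
    Ext (MW y b V c) (MW y b ((u, []) :: V) c) (c u) (1 / (1 - y)) (y / (1 - y) ^ 2) := by
  constructor
  · intro f; rfl
  · intro f; rfl
  · intro f; rfl
  · intro f
    show mu y (c b) ((c u, []) :: wd c V) f = mu y (c b) (wd c V) f
      + (y / (1 - y) ^ 2) * mu' y (c b) (wd c V) (fun z => f z * ne01 z (c u))
    rw [mu_single]
  · intro f
    show lam y (c b) ((c u, []) :: wd c V) f = lam y (c b) (wd c V) f
      + (y / (1 - y) ^ 2) * lam' y (c b) (wd c V) (fun z => f z * ne01 z (c u))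
      + (1 / (1 - y)) * (f (c u) * lam y (c b) (wd c V) (fun z => ne01 z (c u)))
    rw [lam_single]
  · intro k hk f
    exact MW_big _ _ _ _ _ hk f

theorem incr_MW (y : ℝ) (b u p : T) (L : List T) (V : WT T) (c : T → ℕ) (k : ℕ) (f : ℕ → ℝ) :
    MW y b ((u, p :: L) :: V) c k f = MW y b ((u, L) :: V) c k f
      + gstar (c p) (c u, L.map c) * incr (MW y b V c) (1 / (1 - y)) (y / (1 - y) ^ 2) (c p) k f := by
  match k with
  | 0 => simp [incr, MW]
  | 1 => simp [incr, MW]
  | 2 => simp [incr, MW]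
  | 3 =>
    show mu y (c b) ((c u, c p :: L.map c) :: wd c V) f = mu y (c b) ((c u, L.map c) :: wd c V) f
      + gstar (c p) (c u, L.map c) * incr (MW y b V c) (1 / (1 - y)) (y / (1 - y) ^ 2) (c p) 3 f
    rw [mu_hub]
    simp only [incr, if_true, MW]
  | 4 =>
    show lam y (c b) ((c u, c p :: L.map c) :: wd c V) f = lam y (c b) ((c u, L.map c) :: wd c V) f
      + gstar (c p) (c u, L.map c) * incr (MW y b V c) (1 / (1 - y)) (y / (1 - y) ^ 2) (c p) 4 f
    rw [lam_hub]
    simp only [incr, if_true, MW]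
    norm_num
  | k + 5 =>
    rw [MW_big _ _ _ _ _ (by omega), MW_big _ _ _ _ _ (by omega)]
    unfold incr
    rw [if_neg (by omega), if_neg (by omega)]
    ring

theorem famEv_add {M1 M2 M3 : ℕ → (ℕ → ℝ) → ℝ} {s : ℝ} (h : ∀ k f, M1 k f = M2 k f + s * M3 k f)
    (ρ : ℝ) (a c r : ℕ) : ∀ l : List TT, famEv M1 ρ a c r l = famEv M2 ρ a c r l + s * famEv M3 ρ a c r l
  | [] => by simp [famEv]
  | t :: l => by
    simp only [famEv, TT.ev]
    rw [famEv_add h ρ a c r l, h]
    ring

theorem hub_induct (y : ℝ) (b : T) (V : WT T) (r x v u : T) (tm : Bool) (tt : List TT) (ρ e : ℝ)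
    (hρ : 0 ≤ ρ) (he : 0 < e) (E K Wl : List ℕ) (hE : ev ρ E = e) (hK : ev ρ K = e * (y / (1 - y) ^ 2))
    (hW : ev ρ Wl = e * (1 / (1 - y))) (cs : List (FS × List Use)) (hok : csOK cs = true)
    (hcone : ∀ f ∈ cs, ∀ p : T, InCone (fun c => tmf tm x b c *
      FS.ev (fun i => c (pts x v u r p i)) (MW y b V c) ρ f.1))
    (hI : ∀ c : T → ℕ, tmf tm x b c * FS.ev (fun i => c (pts x v u r u i)) (MW y b V c) ρ (famI E K Wl tt)
      = tmf tm x b c * certEv (fun i => c (pts x v u r u i)) (MW y b V c) ρ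
        (wtI (fun i => c (pts x v u r u i))) cs)
    (hII : ∀ (p : T) (c : T → ℕ), tmf tm x b c * (ne01 (c p) (c u) *
        FS.ev (fun i => c (pts x v u r p i)) (MW y b V c) ρ (famII K Wl tt))
      = tmf tm x b c * (ne01 (c p) (c u) * certEv (fun i => c (pts x v u r p i)) (MW y b V c) ρ
        (wtII (fun i => c (pts x v u r p i))) cs)) :
    ∀ L : List T, InCone (fun c => tmf tm x b c * famEv (MW y b ((u, L) :: V) c) ρ (c x) (c v) (c u) tt) := by
  -- the slack functions
  set X : ℕ → (T → ℕ) → ℝ := fun j c => certEv (fun i => c (pts x v u r u i)) (MW y b V c) ρ (slt j) cs with hX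
  have hXc : ∀ j, InCone (fun c => tmf tm x b c * X j c) := fun j =>
    cert_cone y b V (pts x v u r u) ρ hρ tm x j cs (fun f hf => hcone f hf u)
  have hXp : ∀ (p : T) (j : ℕ), j ≠ 1 → ∀ c : T → ℕ,
      certEv (fun i => c (pts x v u r p i)) (MW y b V c) ρ (slt j) cs = X j c := by
    intro p j hj c
    apply certEv_noP _ _ _ j hj cs hok
    intro i hi
    interval_cases i <;> rfl
  -- the remainder
  have hR : ∀ L : List T, InCone (fun c => tmf tm x b c * (e * famEv (MW y b ((u, L) :: V) c) ρ (c x) (c v) (c u) tt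
      - (gstar (c x) (c u, L.map c) * X 2 c + gstar (c v) (c u, L.map c) * X 3 c
        + gstar (c r) (c u, L.map c) * X 5 c))) := by
    intro L
    induction L with
    | nil =>
      refine (hXc 0).congr (fun c => ?_)
      have h1 := hI c
      have h2 := famI_ev (fun i => c (pts x v u r u i)) (MW y b V c) (MW y b ((u, []) :: V) c) ρ
        (1 / (1 - y)) (y / (1 - y) ^ 2) e E K Wl hE hK hW (ext_MW y b u V c) tt
      have h3 := certEv_four (fun i => c (pts x v u r u i)) (MW y b V c) ρ 0 _ _ _ _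
        (wtI_eq (fun i => c (pts x v u r u i))) cs
      rw [h2, h3] at h1
      have g1 : gstar (c x) (c u, ([] : List T).map c) = ne01 (c x) (c u) := gstar_single _ _
      have g2 : gstar (c v) (c u, ([] : List T).map c) = ne01 (c v) (c u) := gstar_single _ _
      have g3 : gstar (c r) (c u, ([] : List T).map c) = ne01 (c r) (c u) := gstar_single _ _
      rw [g1, g2, g3]
      have h4 : tmf tm x b c * (e * famEv (MW y b ((u, []) :: V) c) ρ (c x) (c v) (c u) tt)
          = tmf tm x b c * (X 0 c + ne01 (c x) (c u) * X 2 c + ne01 (c v) (c u) * X 3 c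
            + ne01 (c r) (c u) * X 5 c) := h1
      linarith [h4]
    | cons p L ih =>
      have hY := cert_cone y b V (pts x v u r p) ρ hρ tm x 1 cs (fun f hf => hcone f hf p)
      have h0 := (InCone.star p L).mul ((InCone.ne01 p u).mul hY)
      refine (InCone.add _ _ ih h0).congr (fun c => ?_)
      have h1 := hII p c
      have h2 := famII_ev (fun i => c (pts x v u r p i)) (MW y b V c) (MW_lin y b V c) ρ
        (1 / (1 - y)) (y / (1 - y) ^ 2) e K Wl hK hW tt
      have h3 := certEv_four (fun i => c (pts x v u r p i)) (MW y b V c) ρ 1 _ _ _ _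
        (wtII_eq (fun i => c (pts x v u r p i))) cs
      rw [h2, h3, hXp p 2 (by norm_num) c, hXp p 3 (by norm_num) c, hXp p 5 (by norm_num) c] at h1
      have h4 : famEv (MW y b ((u, p :: L) :: V) c) ρ (c x) (c v) (c u) tt
          = famEv (MW y b ((u, L) :: V) c) ρ (c x) (c v) (c u) tt + gstar (c p) (c u, L.map c) *
            famEv (incr (MW y b V c) (1 / (1 - y)) (y / (1 - y) ^ 2) (c p)) ρ (c x) (c v) (c u) tt :=
        famEv_add (incr_MW y b u p L V c) ρ (c x) (c v) (c u) tt
      have g : ∀ a : ℕ, gstar a (c u, (p :: L).map c) = gstar a (c u, L.map c)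
          - gstar (c p) (c u, L.map c) * (1 - ne01 a (c p)) := by
        intro a
        rw [List.map_cons, gstar_cons]
        by_cases ha : a = c p
        · rw [ha]
        · rw [ne01_of_ne ha]
          ring
      have gp : gstar (c p) (c u, L.map c) = ne01 (c p) (c u) * star (c p) (L.map c) := rfl
      rw [h4, g (c x), g (c v), g (c r)]
      set Y := certEv (fun i => c (pts x v u r p i)) (MW y b V c) ρ (slt 1) cs with hYdef
      set Fi := famEv (incr (MW y b V c) (1 / (1 - y)) (y / (1 - y) ^ 2) (c p)) ρ (c x) (c v) (c u) tt with hFi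
      have h5 : tmf tm x b c * (ne01 (c p) (c u) * (e * Fi)) = tmf tm x b c * (ne01 (c p) (c u) *
          (Y + -(1 - ne01 (c x) (c p)) * X 2 c + -(1 - ne01 (c v) (c p)) * X 3 c
            + -(1 - ne01 (c r) (c p)) * X 5 c)) := h1
      have h6 : tmf tm x b c * (gstar (c p) (c u, L.map c) * (e * Fi)) = tmf tm x b c *
          (gstar (c p) (c u, L.map c) *
          (Y + -(1 - ne01 (c x) (c p)) * X 2 c + -(1 - ne01 (c v) (c p)) * X 3 c
            + -(1 - ne01 (c r) (c p)) * X 5 c)) := by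
        rw [gp]
        calc tmf tm x b c * (ne01 (c p) (c u) * star (c p) (L.map c) * (e * Fi))
            = star (c p) (L.map c) * (tmf tm x b c * (ne01 (c p) (c u) * (e * Fi))) := by ring
          _ = _ := by rw [h5]; ring
      have h7 : star (c p) (L.map c) * (ne01 (c p) (c u) * (tmf tm x b c * Y))
          = tmf tm x b c * (gstar (c p) (c u, L.map c) * Y) := by
        rw [gp]; ring
      rw [h7]
      set G := gstar (c p) (c u, L.map c) with hG
      have h8 : tmf tm x b c * (G * (e * Fi)) = tmf tm x b c * (G *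
          (Y + -(1 - ne01 (c x) (c p)) * X 2 c + -(1 - ne01 (c v) (c p)) * X 3 c
            + -(1 - ne01 (c r) (c p)) * X 5 c)) := h6
      linear_combination (-1 : ℝ) * h8
  intro L
  have hst : ∀ a : T, InCone (fun c : T → ℕ => gstar (c a) (c u, L.map c)) := by
    intro a
    exact (InCone.star a (u :: L)).congr (fun c => by rw [List.map_cons, star_cons]; rfl)
  have t1 := (hst x).mul (hXc 2)
  have t2 := (hst v).mul (hXc 3)
  have t3 := (hst r).mul (hXc 5)
  have h := (InCone.add _ _ (hR L) (InCone.add _ _ (InCone.add _ _ t1 t2) t3)).smul (1 / e) (by positivity)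
  refine h.congr (fun c => ?_)
  field_simp
  ring

end Pool.Agent.HamChrom
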