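import Pool.Agent.HamChrom.Facts

/-!
The parameter of an interval.
-/

set_option autoImplicit false

namespace Pool.Agent.HamChrom

/-- If `A / Q ≤ y / (1 - y) < B / Q` then `y` is described by the parameters `(A, B, Q)`. -/
theorem rel_of_eta (P : Par) {y : ℝ} (hy0 : 0 < y) (hy1 : y < 1) (hQ : 0 < P.Q)
    (hA : (P.A : ℝ) * (1 - y) ≤ P.Q * y) (hB : (P.Q : ℝ) * y < P.B * (1 - y)) :
    ∃ ρ : ℝ, P.Rel y ρ := by
  have h1 : 0 < 1 - y := by linarith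
  have h1' : (1 : ℝ) - y ≠ 0 := ne_of_gt h1
  set d : ℝ := (P.B : ℝ) * (1 - y) - P.Q * y with hdd
  have hd : 0 < d := by rw [hdd]; linarith
  have hd' : d ≠ 0 := ne_of_gt hd
  refine ⟨(P.Q * y - P.A * (1 - y)) / d, hy0, hy1, div_nonneg (by linarith) hd.le, hQ, ?_⟩
  have e1 : (1 : ℝ) + (P.Q * y - P.A * (1 - y)) / d = ((P.B - P.A) * (1 - y)) / d := by
    rw [eq_div_iff hd', add_mul, div_mul_cancel₀ _ hd', hdd]
    ring
  rw [e1]
  have e2 : (P.Q : ℝ) * (((P.B - P.A) * (1 - y)) / d) * (y / (1 - y)) = P.Q * (P.B - P.A) * y / d := by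
    field_simp
  have e3 : (P.A : ℝ) + P.B * ((P.Q * y - P.A * (1 - y)) / d) = (P.A * d + P.B * (P.Q * y - P.A * (1 - y))) / d := by
    rw [eq_div_iff hd', add_mul, mul_assoc (P.B : ℝ), div_mul_cancel₀ _ hd']
  rw [e2, e3, hdd]
  congr 1
  ring

end Pool.Agent.HamChrom
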