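import Pool.Agent.HamChrom.Cone
import Pool.Agent.HamChrom.Arc

/-!
Reversed-walk functionals on words of groups; every group is a pair (reference colour, list of
the further colours).
-/

set_option autoImplicit false

namespace Pool.Agent.HamChrom

open Finset

/-- `star x L = 1` iff the colour `x` does not occur in `L` -/
noncomputable def star (x : ℕ) (L : List ℕ) : ℝ := (L.map (fun b => ne01 x b)).prod

@[simp] theorem star_nil (x : ℕ) : star x [] = 1 := by simp [star]

@[simp] theorem star_cons (x b : ℕ) (L : List ℕ) : star x (b :: L) = ne01 x b * star x L := by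
  simp [star]

/-- sum of `g` over the distinct colours of `L` different from `u` -/
noncomputable def bs (u : ℕ) : List ℕ → (ℕ → ℝ) → ℝ
  | [], _ => 0
  | p :: L, g => bs u L g + ne01 p u * star p L * g p

@[simp] theorem bs_nil (u : ℕ) (g : ℕ → ℝ) : bs u [] g = 0 := rfl

theorem bs_cons (u p : ℕ) (L : List ℕ) (g : ℕ → ℝ) :
    bs u (p :: L) g = bs u L g + ne01 p u * star p L * g p := rfl

theorem star_eq (x : ℕ) (L : List ℕ) : star x L = if x ∈ L then 0 else 1 := by
  induction L with
  | nil => simp
  | cons b L ih =>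
    rw [star_cons, ih]
    unfold ne01
    by_cases h1 : x = b
    · subst h1; simp
    · by_cases h2 : x ∈ L <;> simp [h1, h2]

theorem bs_eq (u : ℕ) (L : List ℕ) (g : ℕ → ℝ) : bs u L g = ∑ γ ∈ L.toFinset.erase u, g γ := by
  induction L with
  | nil => simp
  | cons p L ih =>
    rw [bs_cons, ih, List.toFinset_cons, star_eq]
    unfold ne01
    by_cases h1 : p = u
    · subst h1
      rw [if_pos rfl, zero_mul, zero_mul, add_zero]
      congr 1
      ext γ
      simp only [Finset.mem_erase, Finset.mem_insert]
      tauto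
    · rw [if_neg h1]
      by_cases h2 : p ∈ L
      · rw [if_pos h2, Finset.insert_eq_of_mem (List.mem_toFinset.2 h2)]
        ring
      · rw [if_neg h2, Finset.erase_insert_of_ne h1, Finset.sum_insert]
        · ring
        · simp [h2]

/-- words: list of (reference colour, further colours) -/
abbrev Word := List (ℕ × List ℕ)

/-- the colour set of a group -/
def gset (g : ℕ × List ℕ) : Finset ℕ := insert g.1 g.2.toFinset

/-- `[x not in the colours of the group]` -/
noncomputable def gstar (x : ℕ) (g : ℕ × List ℕ) : ℝ := ne01 x g.1 * star x g.2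

theorem gstar_eq (x : ℕ) (g : ℕ × List ℕ) : gstar x g = if x ∈ gset g then 0 else 1 := by
  unfold gstar gset
  rw [star_eq]
  unfold ne01
  by_cases h1 : x = g.1
  · simp [h1]
  · by_cases h2 : x ∈ g.2 <;> simp [h1, h2]

/-- sum over the colours of a group -/
noncomputable def gsum (g : ℕ × List ℕ) (f : ℕ → ℝ) : ℝ := f g.1 + bs g.1 g.2 f

theorem gsum_eq (g : ℕ × List ℕ) (f : ℕ → ℝ) : gsum g f = ∑ γ ∈ gset g, f γ := by
  unfold gsum gset
  rw [bs_eq]
  have : insert g.1 g.2.toFinset = insert g.1 (g.2.toFinset.erase g.1) := by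
    ext γ
    simp only [Finset.mem_insert, Finset.mem_erase]
    by_cases h : γ = g.1 <;> simp [h]
  rw [this, Finset.sum_insert (Finset.notMem_erase _ _)]

variable (y : ℝ) (β : ℕ)

/-- the pair of functionals at levels `m` and `m - 1` -/
noncomputable def lamP : Word → ((ℕ → ℝ) → ℝ) × ((ℕ → ℝ) → ℝ)
  | [] => (fun f => f β, fun _ => 0)
  | g :: W => (fun f => (lamP W).1 f + (y / (1 - y) ^ 2) * (lamP W).2 (fun x => f x * gstar x g)
      + (1 / (1 - y)) * gsum g (fun c => f c * (lamP W).1 (fun x => ne01 x c)), (lamP W).1)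

noncomputable def lam (W : Word) (f : ℕ → ℝ) : ℝ := (lamP y β W).1 f
noncomputable def lam' (W : Word) (f : ℕ → ℝ) : ℝ := (lamP y β W).2 f

@[simp] theorem lam_nil (f : ℕ → ℝ) : lam y β [] f = f β := rfl
@[simp] theorem lam'_nil (f : ℕ → ℝ) : lam' y β [] f = 0 := rfl
@[simp] theorem lam'_cons (g : ℕ × List ℕ) (W : Word) (f : ℕ → ℝ) : lam' y β (g :: W) f = lam y β W f := rfl
theorem lam_cons (g : ℕ × List ℕ) (W : Word) (f : ℕ → ℝ) : lam y β (g :: W) f =
    lam y β W f + (y / (1 - y) ^ 2) * lam' y β W (fun x => f x * gstar x g)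
      + (1 / (1 - y)) * gsum g (fun c => f c * lam y β W (fun x => ne01 x c)) := rfl

/-- the same without jumps to the reference colours -/
noncomputable def muP : Word → ((ℕ → ℝ) → ℝ) × ((ℕ → ℝ) → ℝ)
  | [] => (fun f => f β, fun _ => 0)
  | g :: W => (fun f => (muP W).1 f + (y / (1 - y) ^ 2) * (muP W).2 (fun x => f x * gstar x g)
      + (1 / (1 - y)) * bs g.1 g.2 (fun c => f c * (muP W).1 (fun x => ne01 x c)), (muP W).1)

noncomputable def mu (W : Word) (f : ℕ → ℝ) : ℝ := (muP y β W).1 f
noncomputable def mu' (W : Word) (f : ℕ → ℝ) : ℝ := (muP y β W).2 f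

@[simp] theorem mu_nil (f : ℕ → ℝ) : mu y β [] f = f β := rfl
@[simp] theorem mu'_nil (f : ℕ → ℝ) : mu' y β [] f = 0 := rfl
@[simp] theorem mu'_cons (g : ℕ × List ℕ) (W : Word) (f : ℕ → ℝ) : mu' y β (g :: W) f = mu y β W f := rfl
theorem mu_cons (g : ℕ × List ℕ) (W : Word) (f : ℕ → ℝ) : mu y β (g :: W) f =
    mu y β W f + (y / (1 - y) ^ 2) * mu' y β W (fun x => f x * gstar x g)
      + (1 / (1 - y)) * bs g.1 g.2 (fun c => f c * mu y β W (fun x => ne01 x c)) := rfl

/-! ### linearity -/

theorem bs_add (u : ℕ) (L : List ℕ) (f g : ℕ → ℝ) : bs u L (fun x => f x + g x) = bs u L f + bs u L g := by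
  induction L with
  | nil => simp
  | cons p L ih => rw [bs_cons, bs_cons, bs_cons, ih]; ring

theorem bs_smul (u : ℕ) (L : List ℕ) (r : ℝ) (f : ℕ → ℝ) : bs u L (fun x => r * f x) = r * bs u L f := by
  induction L with
  | nil => simp
  | cons p L ih => rw [bs_cons, bs_cons, ih]; ring

theorem gsum_add (g : ℕ × List ℕ) (f h : ℕ → ℝ) : gsum g (fun x => f x + h x) = gsum g f + gsum g h := by
  unfold gsum; rw [bs_add]; ring

theorem gsum_smul (g : ℕ × List ℕ) (r : ℝ) (f : ℕ → ℝ) : gsum g (fun x => r * f x) = r * gsum g f := by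
  unfold gsum; rw [bs_smul]; ring

theorem lamP_add : ∀ (W : Word) (f g : ℕ → ℝ),
    lam y β W (fun x => f x + g x) = lam y β W f + lam y β W g ∧
    lam' y β W (fun x => f x + g x) = lam' y β W f + lam' y β W g
  | [], f, g => by simp
  | a :: W, f, g => by
    refine ⟨?_, by simpa using (lamP_add W f g).1⟩
    rw [lam_cons, lam_cons, lam_cons, (lamP_add W f g).1]
    have h1 : (fun x => (f x + g x) * gstar x a) = (fun x => f x * gstar x a + g x * gstar x a) := by
      funext x; ring
    rw [h1, (lamP_add W _ _).2]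
    have h2 : (fun c => (f c + g c) * lam y β W (fun x => ne01 x c))
        = (fun c => f c * lam y β W (fun x => ne01 x c) + g c * lam y β W (fun x => ne01 x c)) := by
      funext x; ring
    rw [h2, gsum_add]
    ring

theorem lam_add (W : Word) (f g : ℕ → ℝ) :
    lam y β W (fun x => f x + g x) = lam y β W f + lam y β W g := (lamP_add y β W f g).1
theorem lam'_add (W : Word) (f g : ℕ → ℝ) :
    lam' y β W (fun x => f x + g x) = lam' y β W f + lam' y β W g := (lamP_add y β W f g).2

theorem lamP_smul : ∀ (W : Word) (r : ℝ) (f : ℕ → ℝ),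
    lam y β W (fun x => r * f x) = r * lam y β W f ∧
    lam' y β W (fun x => r * f x) = r * lam' y β W f
  | [], r, f => by simp
  | a :: W, r, f => by
    refine ⟨?_, by simpa using (lamP_smul W r f).1⟩
    rw [lam_cons, lam_cons, (lamP_smul W r f).1]
    have h1 : (fun x => (r * f x) * gstar x a) = (fun x => r * (f x * gstar x a)) := by
      funext x; ring
    rw [h1, (lamP_smul W _ _).2]
    have h2 : (fun c => (r * f c) * lam y β W (fun x => ne01 x c))
        = (fun c => r * (f c * lam y β W (fun x => ne01 x c))) := by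
      funext x; ring
    rw [h2, gsum_smul]
    ring

theorem lam_smul (W : Word) (r : ℝ) (f : ℕ → ℝ) : lam y β W (fun x => r * f x) = r * lam y β W f :=
  (lamP_smul y β W r f).1
theorem lam'_smul (W : Word) (r : ℝ) (f : ℕ → ℝ) : lam' y β W (fun x => r * f x) = r * lam' y β W f :=
  (lamP_smul y β W r f).2

theorem muP_add : ∀ (W : Word) (f g : ℕ → ℝ),
    mu y β W (fun x => f x + g x) = mu y β W f + mu y β W g ∧
    mu' y β W (fun x => f x + g x) = mu' y β W f + mu' y β W g
  | [], f, g => by simp
  | a :: W, f, g => by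
    refine ⟨?_, by simpa using (muP_add W f g).1⟩
    rw [mu_cons, mu_cons, mu_cons, (muP_add W f g).1]
    have h1 : (fun x => (f x + g x) * gstar x a) = (fun x => f x * gstar x a + g x * gstar x a) := by
      funext x; ring
    rw [h1, (muP_add W _ _).2]
    have h2 : (fun c => (f c + g c) * mu y β W (fun x => ne01 x c))
        = (fun c => f c * mu y β W (fun x => ne01 x c) + g c * mu y β W (fun x => ne01 x c)) := by
      funext x; ring
    rw [h2, bs_add]
    ring

theorem mu_add (W : Word) (f g : ℕ → ℝ) :
    mu y β W (fun x => f x + g x) = mu y β W f + mu y β W g := (muP_add y β W f g).1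
theorem mu'_add (W : Word) (f g : ℕ → ℝ) :
    mu' y β W (fun x => f x + g x) = mu' y β W f + mu' y β W g := (muP_add y β W f g).2

theorem muP_smul : ∀ (W : Word) (r : ℝ) (f : ℕ → ℝ),
    mu y β W (fun x => r * f x) = r * mu y β W f ∧
    mu' y β W (fun x => r * f x) = r * mu' y β W f
  | [], r, f => by simp
  | a :: W, r, f => by
    refine ⟨?_, by simpa using (muP_smul W r f).1⟩
    rw [mu_cons, mu_cons, (muP_smul W r f).1]
    have h1 : (fun x => (r * f x) * gstar x a) = (fun x => r * (f x * gstar x a)) := by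
      funext x; ring
    rw [h1, (muP_smul W _ _).2]
    have h2 : (fun c => (r * f c) * mu y β W (fun x => ne01 x c))
        = (fun c => r * (f c * mu y β W (fun x => ne01 x c))) := by
      funext x; ring
    rw [h2, bs_smul]
    ring

theorem mu_smul (W : Word) (r : ℝ) (f : ℕ → ℝ) : mu y β W (fun x => r * f x) = r * mu y β W f :=
  (muP_smul y β W r f).1
theorem mu'_smul (W : Word) (r : ℝ) (f : ℕ → ℝ) : mu' y β W (fun x => r * f x) = r * mu' y β W f :=
  (muP_smul y β W r f).2

/-- finite sums over colours may be exchanged with `lam` -/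
theorem lam_gsum (W : Word) (g : ℕ × List ℕ) (F : ℕ → ℕ → ℝ) :
    lam y β W (fun x => ∑ γ ∈ gset g, F γ x) = ∑ γ ∈ gset g, lam y β W (F γ) := by
  induction gset g using Finset.induction_on with
  | empty =>
    have := lam_smul y β W 0 (fun _ => 0)
    simpa using this
  | insert a s ha ih =>
    simp only [Finset.sum_insert ha]
    rw [lam_add, ih]

/-! ### the exact identity between `phi` and `lam` -/

/-- `phi` on words -/
noncomputable def ph (W : Word) (α : ℕ) : ℝ := phi y β (W.map gset) α

theorem lam_congr (W : Word) (f g : ℕ → ℝ) (h : ∀ x, f x = g x) : lam y β W f = lam y β W g := by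
  rw [funext h]

theorem lam'_congr (W : Word) (f g : ℕ → ℝ) (h : ∀ x, f x = g x) : lam' y β W f = lam' y β W g := by
  rw [funext h]

theorem ph_eq (hy : y ≠ 1) : ∀ (W : Word) (α : ℕ),
    ph y β W α = lam y β W (fun x => ne01 x α) - (y / (1 - y)) * lam' y β W (fun x => 1 - ne01 x α)
  | [], α => by simp [ph, phi, ne01_comm β α]
  | [g], α => by
    have hz : 1 - y ≠ 0 := fun h => hy (by linarith)
    simp only [ph, List.map_cons, List.map_nil, phi, lam_cons, lam_nil, lam'_nil, lam'_cons,
      mul_zero, add_zero]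
    rw [gsum_eq]
    have h1 : ∑ γ ∈ gset g, ne01 γ α * ne01 β γ = ∑ γ ∈ (gset g).erase α, ne01 γ β := by
      rw [← Finset.sum_erase (s := gset g) (a := α) (f := fun γ => ne01 γ α * ne01 β γ)
        (by rw [ne01_self, zero_mul])]
      apply Finset.sum_congr rfl
      intro γ hγ
      rw [ne01_of_ne (Finset.ne_of_mem_erase hγ), one_mul, ne01_comm]
    rw [h1, ne01_comm β α]
    ring
  | g :: g2 :: W, α => by
    have hz : 1 - y ≠ 0 := fun h => hy (by linarith)
    have ih1 := fun γ => ph_eq hy (g2 :: W) γ
    have ih2 := ph_eq hy W α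
    have hdef : ph y β (g :: g2 :: W) α = ph y β (g2 :: W) α
        + (y / (1 - y) ^ 2) * ((if α ∈ gset g2 then 0 else 1) * ph y β W α)
        + (1 / (1 - y)) * ∑ γ ∈ (gset g).erase α, ph y β (g2 :: W) γ := rfl
    rw [hdef, lam_cons, lam'_cons, lam'_cons]
    -- the sum over the first group
    have h1 : ∑ γ ∈ (gset g).erase α, ph y β (g2 :: W) γ
        = gsum g (fun c => ne01 c α * lam y β (g2 :: W) (fun x => ne01 x c))
          - (y / (1 - y)) * lam y β W (fun x => ne01 x α * (1 - gstar x g)) := by
      have h2 : ∑ γ ∈ (gset g).erase α, ph y β (g2 :: W) γ = ∑ γ ∈ gset g, ne01 γ α * ph y β (g2 :: W) γ := by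
        rw [← Finset.sum_erase (s := gset g) (a := α) (f := fun γ => ne01 γ α * ph y β (g2 :: W) γ)
          (by rw [ne01_self, zero_mul])]
        apply Finset.sum_congr rfl
        intro γ hγ
        rw [ne01_of_ne (Finset.ne_of_mem_erase hγ), one_mul]
      have h3 : ∀ x, ne01 x α * (1 - gstar x g) = ∑ γ ∈ gset g, ne01 γ α * (1 - ne01 x γ) := by
        intro x
        rw [gstar_eq]
        by_cases hx : x ∈ gset g
        · rw [if_pos hx, sub_zero, mul_one, Finset.sum_eq_single x]
          · rw [ne01_self, sub_zero, mul_one]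
          · intro γ _ hγ
            rw [ne01_of_ne (fun h => hγ h.symm), sub_self, mul_zero]
          · intro h
            exact absurd hx h
        · rw [if_neg hx, sub_self, mul_zero]
          symm
          apply Finset.sum_eq_zero
          intro γ hγ
          have : x ≠ γ := fun h => hx (h ▸ hγ)
          rw [ne01_of_ne this, sub_self, mul_zero]
      rw [h2, lam_congr y β W _ _ h3, lam_gsum y β W g (fun γ x => ne01 γ α * (1 - ne01 x γ)), gsum_eq,
        Finset.mul_sum, ← Finset.sum_sub_distrib]
      apply Finset.sum_congr rfl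
      intro γ _
      rw [ih1 γ, lam'_cons, lam_smul]
      ring
    rw [h1, ih1 α, ih2, lam'_cons]
    -- expand the terms
    have h4 : lam y β W (fun x => ne01 x α * gstar x g) + lam y β W (fun x => ne01 x α * (1 - gstar x g))
        = lam y β W (fun x => ne01 x α) := by
      rw [← lam_add]
      apply lam_congr
      intro x
      ring
    have h5 : lam y β (g2 :: W) (fun x => 1 - ne01 x α) = lam y β W (fun x => 1 - ne01 x α)
        + (y / (1 - y) ^ 2) * ((if α ∈ gset g2 then 0 else 1) * lam' y β W (fun x => 1 - ne01 x α))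
        + (1 / (1 - y)) * ((if α ∈ gset g2 then 1 else 0) * lam y β W (fun x => ne01 x α)) := by
      rw [lam_cons]
      have h6 : ∀ x, (1 - ne01 x α) * gstar x g2 = (if α ∈ gset g2 then 0 else 1) * (1 - ne01 x α) := by
        intro x
        rw [gstar_eq]
        by_cases hx : x = α
        · subst hx
          ring
        · rw [ne01_of_ne hx]
          ring
      rw [lam'_congr y β W _ _ h6, lam'_smul, gsum_eq]
      have h7 : ∑ γ ∈ gset g2, (1 - ne01 γ α) * lam y β W (fun x => ne01 x γ)
          = (if α ∈ gset g2 then 1 else 0) * lam y β W (fun x => ne01 x α) := by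
        by_cases hα : α ∈ gset g2
        · rw [if_pos hα, one_mul, Finset.sum_eq_single α]
          · rw [ne01_self, sub_zero, one_mul]
          · intro γ _ hγ
            rw [ne01_of_ne hγ, sub_self, zero_mul]
          · intro h
            exact absurd hα h
        · rw [if_neg hα, zero_mul]
          apply Finset.sum_eq_zero
          intro γ hγ
          have : γ ≠ α := fun h => hα (h ▸ hγ)
          rw [ne01_of_ne this, sub_self, zero_mul]
      rw [h7]
    rw [h5]
    have h8 : lam y β W (fun x => ne01 x α * (1 - gstar x g)) = lam y β W (fun x => ne01 x α)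
        - lam y β W (fun x => ne01 x α * gstar x g) := by linarith
    rw [h8]
    by_cases hα : α ∈ gset g2
    · rw [if_pos hα, if_pos hα]
      field_simp
      ring
    · rw [if_neg hα, if_neg hα]
      field_simp
      ring

end Pool.Agent.HamChrom
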