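import Pool.Agent.HamChrom.ArcStep

/-!
The induction: the cone hypothesis at `y` implies positivity for all Hamiltonian graphs at
`x = 1 + y`.
-/

set_option autoImplicit false

namespace Pool.Agent.HamChrom

open Finset

/-- rotation of the vertex labels -/
def rot {n : ℕ} [NeZero n] (r : Fin n) (G : SimpleGraph (Fin n)) : SimpleGraph (Fin n) :=
  G.comap (Equiv.addRight r)

theorem rot_adj {n : ℕ} [NeZero n] (r : Fin n) (G : SimpleGraph (Fin n)) (i j : Fin n) :
    (rot r G).Adj i j ↔ G.Adj (i + r) (j + r) := Iff.rfl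

theorem L_rot {n : ℕ} [NeZero n] (r : Fin n) (G : SimpleGraph (Fin n)) (x : ℝ) :
    L x n (eG (rot r G)) = L x n (eG G) := L_eG_comap G (Equiv.addRight r) x

theorem Cyc.rot {n : ℕ} [NeZero n] {G : SimpleGraph (Fin n)} (hG : Cyc G) (r : Fin n) :
    Cyc (rot r G) := by
  intro i
  rw [rot_adj, add_right_comm]
  exact hG _

theorem fin_shift {n : ℕ} [NeZero n] (i j : Fin n) (h : (i : ℕ) ≤ j) :
    i + Fin.ofNat n ((j : ℕ) - i) = j := by
  apply Fin.ext
  rw [Fin.val_add, Fin.val_ofNat, Nat.add_mod_mod]
  have : (i : ℕ) + ((j : ℕ) - i) = j := by omega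
  rw [this, Nat.mod_eq_of_lt j.2]

theorem fin_shift_zero {n : ℕ} [NeZero n] (i : Fin n) :
    i + Fin.ofNat n (n - (i : ℕ)) = 0 := by
  apply Fin.ext
  rw [Fin.val_add, Fin.val_ofNat, Nat.add_mod_mod]
  have : (i : ℕ) + (n - (i : ℕ)) = n := by have := i.2; omega
  rw [this, Nat.mod_self]
  simp

theorem main_ind (y : ℝ) (hy0 : 0 < y) (hy1 : y < 1) (hcone : ConeHyp y) :
    ∀ (n : ℕ) [NeZero n] (_ : 2 ≤ n) (G : SimpleGraph (Fin n)) (_ : Cyc G),
      0 < (-1 : ℝ) ^ n * L (1 + y) n (eG G) := by
  intro n
  induction n using Nat.strong_induction_on with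
  | _ n IH =>
  intro hnz hn G hG
  rcases Nat.lt_or_ge 2 n with hn3 | hn2
  swap
  · -- n = 2
    have : n = 2 := le_antisymm hn2 hn
    subst this
    have h01 : G.Adj 0 1 := hG.adj_succ (by simp)
    rw [base_two _ G h01]
    have : (-1 : ℝ) ^ 2 * ((1 + y) * (1 + y - 1)) = (1 + y) * y := by ring
    rw [this]
    exact mul_pos (by linarith) hy0
  by_cases hdeg : ∃ v : Fin n, ∀ u, G.Adj v u → u = v + 1 ∨ v = u + 1
  · -- a vertex of degree two
    obtain ⟨v, hv⟩ := hdeg
    rw [← L_rot (v + 1) G]
    have hG' := hG.rot (v + 1)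
    obtain ⟨t, rfl⟩ : ∃ t, n = t + 1 := ⟨n - 1, by omega⟩
    have : NeZero t := ⟨by omega⟩
    refine deg2_step y hy0 hy1 (by omega) _ hG' ?_ ?_ ?_
    · intro j hj
      rw [rot_adj] at hj
      have hlast : Fin.last t + (v + 1) = v := by
        have h1 : Fin.last t + 1 = 0 := fin_add_one_last _ (by simp)
        calc Fin.last t + (v + 1) = v + (Fin.last t + 1) := by abel
          _ = v := by rw [h1, add_zero]
      rw [hlast] at hj
      rcases hv _ hj.symm with h | h
      · left
        have h2 : j.castSucc = 0 := by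
          have h3 : j.castSucc + (v + 1) = 0 + (v + 1) := by rw [h, zero_add]
          exact add_right_cancel h3
        have := congrArg Fin.val h2
        simpa using this
      · right
        have h2 : j.castSucc + 1 + 1 = 0 := by
          have h3 : (j.castSucc + 1 + 1) + v = 0 + v := by
            rw [zero_add]
            calc (j.castSucc + 1 + 1) + v = j.castSucc + (v + 1) + 1 := by abel
              _ = v := h.symm
          exact add_right_cancel h3
        have hjt := j.2
        have h4 : ((j.castSucc + 1 : Fin (t + 1)) : ℕ) = (j : ℕ) + 1 :=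
          fin_add_one_val j.castSucc (by simp)
        by_contra hcon
        have h5 : ((j.castSucc + 1 + 1 : Fin (t + 1)) : ℕ) = (j : ℕ) + 1 + 1 := by
          rw [fin_add_one_val (j.castSucc + 1) (by rw [h4]; omega), h4]
        rw [h2] at h5
        simp at h5
    · exact IH t (by omega) (by omega)
    · intro s _ hs hst H hH
      exact IH s (by omega) hs H hH
  · push Not at hdeg
    -- chord lengths
    have hex : ∃ e : ℕ, 2 ≤ e ∧ ∃ p : Fin n, G.Adj p (p + Fin.ofNat n e) := by
      obtain ⟨u, hu, hu1, hu2⟩ := hdeg 0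
      refine ⟨(u : ℕ), ?_, 0, ?_⟩
      · by_contra hcon
        have h1 : (u : ℕ) = 0 ∨ (u : ℕ) = 1 := by omega
        rcases h1 with h1 | h1
        · have : u = 0 := by apply Fin.ext; simpa using h1
          rw [this] at hu
          exact G.loopless.irrefl _ hu
        · apply hu1
          apply Fin.ext
          rw [fin_add_one_val 0 (by simp; omega), h1]
          simp
      · rw [zero_add]
        have : Fin.ofNat n (u : ℕ) = u := by
          apply Fin.ext
          rw [Fin.val_ofNat, Nat.mod_eq_of_lt u.2]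
        rw [this]
        exact hu
    classical
    obtain ⟨e0, ⟨he2, p, hp⟩, hmin⟩ : ∃ e : ℕ, (2 ≤ e ∧ ∃ p : Fin n, G.Adj p (p + Fin.ofNat n e)) ∧
        ∀ e' < e, ¬ (2 ≤ e' ∧ ∃ p : Fin n, G.Adj p (p + Fin.ofNat n e')) :=
      ⟨Nat.find hex, Nat.find_spec hex, fun e' he' => Nat.find_min hex he'⟩
    -- the minimal chord length is at most n - 2
    have hele : e0 + 2 ≤ n := by
      obtain ⟨u, hu, hu1, hu2⟩ := hdeg 0
      have hu' : G.Adj 0 (0 + Fin.ofNat n (u : ℕ)) := by
        have : Fin.ofNat n (u : ℕ) = u := by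
          apply Fin.ext
          rw [Fin.val_ofNat, Nat.mod_eq_of_lt u.2]
        rw [zero_add, this]
        exact hu
      have hu3 : (u : ℕ) + 2 ≤ n := by
        by_contra hcon
        have h1 : (u : ℕ) + 1 = n := by have := u.2; omega
        apply hu2
        rw [fin_add_one_last u h1]
      by_contra hcon
      have h2 : (u : ℕ) < e0 := by omega
      apply hmin _ h2
      refine ⟨?_, 0, hu'⟩
      by_contra hcon2
      have h1 : (u : ℕ) = 0 ∨ (u : ℕ) = 1 := by omega
      rcases h1 with h1 | h1
      · have : u = 0 := by apply Fin.ext; simpa using h1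
        rw [this] at hu
        exact G.loopless.irrefl _ hu
      · apply hu1
        apply Fin.ext
        rw [fin_add_one_val 0 (by simp; omega), h1]
        simp
    -- rotate
    set r : Fin n := p + Fin.ofNat n e0 with hr
    rw [← L_rot r G]
    have hG' := hG.rot r
    have hdeg' : ∀ v : Fin n, ∃ u, (rot r G).Adj v u ∧ u ≠ v + 1 ∧ v ≠ u + 1 := by
      intro v
      obtain ⟨u, hu, hu1, hu2⟩ := hdeg (v + r)
      refine ⟨u - r, ?_, ?_, ?_⟩
      · rw [rot_adj, sub_add_cancel]
        exact hu
      · intro e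
        apply hu1
        have : u = (u - r) + r := by rw [sub_add_cancel]
        rw [this, e]
        abel
      · intro e
        apply hu2
        rw [e]
        abel
    have hmin' : ∀ e, 2 ≤ e → e < e0 → ∀ i : Fin n, ¬ (rot r G).Adj i (i + Fin.ofNat n e) := by
      intro e he1 he2 i hi
      rw [rot_adj, add_right_comm] at hi
      exact hmin e he2 ⟨he1, _, hi⟩
    have hchord : ∀ i j : Fin n, (i : ℕ) + e0 = n → (j : ℕ) = 0 → (rot r G).Adj i j := by
      intro i j hi hj
      have ej : j = 0 := by apply Fin.ext; simpa using hj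
      rw [rot_adj, ej, zero_add, hr]
      have h1 : i + Fin.ofNat n e0 = 0 := by
        have := fin_shift_zero i
        have h2 : n - (i : ℕ) = e0 := by omega
        rwa [h2] at this
      have h2 : i + (p + Fin.ofNat n e0) = p := by
        calc i + (p + Fin.ofNat n e0) = p + (i + Fin.ofNat n e0) := by abel
          _ = p := by rw [h1, add_zero]
      rw [h2]
      exact hp
    have hM : ∀ i j : Fin n, n ≤ (i : ℕ) + e0 → (i : ℕ) < j → (rot r G).Adj i j → (j : ℕ) = i + 1 := by
      intro i j hi hij hadj
      by_contra hcon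
      have h1 := fin_shift i j hij.le
      rw [← h1] at hadj
      refine hmin' ((j : ℕ) - i) (by omega) ?_ i hadj
      have := j.2
      omega
    have hM0 : ∀ i j : Fin n, n < (i : ℕ) + e0 → (j : ℕ) = 0 → (rot r G).Adj i j → (i : ℕ) + 1 = n := by
      intro i j hi hj hadj
      have ej : j = 0 := by apply Fin.ext; simpa using hj
      rw [ej, ← fin_shift_zero i] at hadj
      by_contra hcon
      have := i.2
      exact hmin' (n - (i : ℕ)) (by omega) (by omega) i hadj
    have hub : ∀ v : Fin n, n < (v : ℕ) + e0 → ∃ u : Fin n, (u : ℕ) + e0 < n ∧ (u : ℕ) ≠ 0 ∧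
        (rot r G).Adj u v := by
      intro v hv
      obtain ⟨u, hu, hu1, hu2⟩ := hdeg' v
      refine ⟨u, ?_, ?_, hu.symm⟩
      · by_contra hcon
        rcases lt_trichotomy (u : ℕ) (v : ℕ) with h | h | h
        · have h1 := hM u v (by omega) h hu.symm
          apply hu2
          apply Fin.ext
          rw [fin_add_one_val u (by rw [← h1]; exact v.2), h1]
        · have : u = v := Fin.ext h
          rw [this] at hu
          exact (rot r G).loopless.irrefl _ hu
        · have h1 := hM v u (by omega) h hu
          apply hu1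
          apply Fin.ext
          rw [fin_add_one_val v (by rw [← h1]; exact u.2), h1]
      · intro h0
        have h1 := hM0 v u hv h0 hu
        apply hu1
        rw [fin_add_one_last v h1]
        apply Fin.ext
        simpa using h0
    generalize rot r G = G' at *
    obtain ⟨d, rfl⟩ : ∃ d, e0 = d + 2 := ⟨e0 - 2, by omega⟩
    obtain ⟨t, rfl⟩ : ∃ t, n = t + (d + 1) := ⟨n - (d + 1), by omega⟩
    have : NeZero t := ⟨by omega⟩
    refine arc_step y hy0 hy1 hcone (by omega) G' hG' ?_ ?_ ?_ ?_ (IH t (by omega) (by omega))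
    · intro i j hi hj
      exact hchord i j (by omega) hj
    · intro i j hi hij h
      exact hM i j (by omega) hij h
    · intro i j hi hj h
      have := hM0 i j (by omega) hj h
      omega
    · intro v hv
      obtain ⟨u, h1, h2, h3⟩ := hub v (by omega)
      exact ⟨u, by omega, h2, h3⟩

/-- The cone hypothesis implies Thomassen's statement at `x = 1 + y`. -/
theorem ham_pos (y : ℝ) (hy0 : 0 < y) (hy1 : y < 1) (hcone : ConeHyp y)
    (V : Type) [Fintype V] [DecidableEq V] (G : SimpleGraph V) [DecidableRel G.Adj]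
    (hH : ∃ v : V, ∃ p : G.Walk v v, p.IsHamiltonianCycle) :
    0 < ((-1 : ℝ) ^ Fintype.card V) *
      ∑ S ∈ G.edgeFinset.powerset, ((-1 : ℝ) ^ S.card) *
        (1 + y) ^ Nat.card (SimpleGraph.fromEdgeSet (S : Set (Sym2 V))).ConnectedComponent := by
  obtain ⟨v, p, hp⟩ := hH
  have hcyc : p.IsCycle := hp.isCycle
  have hlen : p.length = Fintype.card V := hp.length_eq
  have h3 : 3 ≤ p.length := hcyc.three_le_length
  have hnz : NeZero (Fintype.card V) := ⟨by omega⟩
  have hinj : Function.Injective (fun i : Fin (Fintype.card V) => p.getVert (i : ℕ)) := by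
    intro i j hij
    apply Fin.ext
    have hi := i.2
    have hj := j.2
    exact hcyc.getVert_injOn' (by simp only [Set.mem_ofPred_eq]; omega)
      (by simp only [Set.mem_ofPred_eq]; omega) hij
  have hbij : Function.Bijective (fun i : Fin (Fintype.card V) => p.getVert (i : ℕ)) :=
    (Fintype.bijective_iff_injective_and_card _).2 ⟨hinj, by simp⟩
  set σ : Fin (Fintype.card V) ≃ V := Equiv.ofBijective _ hbij with hσ
  have hσv : ∀ i, σ i = p.getVert (i : ℕ) := fun i => rfl
  have hC : Cyc (G.comap σ) := by
    apply cyc_of_val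
    · intro i j hij
      show G.Adj (σ i) (σ j)
      rw [hσv, hσv, ← hij]
      apply p.adj_getVert_succ
      have := j.2
      omega
    · intro i j hi hj
      show G.Adj (σ i) (σ j)
      rw [hσv, hσv, hj]
      have h1 := p.adj_getVert_succ (i := (i : ℕ)) (by have := i.2; omega)
      have h2 : p.getVert ((i : ℕ) + 1) = p.getVert 0 := by
        have h4 : (i : ℕ) + 1 = p.length := by omega
        rw [h4, p.getVert_length, p.getVert_zero]
      rw [h2] at h1
      exact h1
  have h := main_ind y hy0 hy1 hcone (Fintype.card V) (by omega) _ hC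
  rw [← whitney_eq_L G σ (1 + y)] at h
  exact h

end Pool.Agent.HamChrom
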