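import Pool.Agent.HamChrom.Func

/-!
Manifest members of the cone.
-/

set_option autoImplicit false

namespace Pool.Agent.HamChrom

open Finset

variable {T : Type}

/-- words of vertices -/
abbrev WT (T : Type) := List (T × List T)

/-- the coloured word -/
def wd (c : T → ℕ) (W : WT T) : Word := W.map (fun g => (c g.1, g.2.map c))

@[simp] theorem wd_nil (c : T → ℕ) : wd c ([] : WT T) = [] := rfl
@[simp] theorem wd_cons (c : T → ℕ) (g : T × List T) (W : WT T) :
    wd c (g :: W) = (c g.1, g.2.map c) :: wd c W := rfl

theorem InCone.congr {F G : (T → ℕ) → ℝ} (hF : InCone F) (h : ∀ c, F c = G c) : InCone G := by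
  have : F = G := funext h
  rw [← this]
  exact hF

theorem InCone.zero : InCone (fun _ : T → ℕ => (0 : ℝ)) := InCone.const 0 le_rfl

theorem InCone.one : InCone (fun _ : T → ℕ => (1 : ℝ)) := InCone.const 1 zero_le_one

theorem InCone.ne01 (s t : T) : InCone (fun c : T → ℕ => HamChrom.ne01 (c s) (c t)) :=
  (InCone.edge s t _ InCone.one).congr (fun c => by ring)

theorem InCone.star (s : T) : ∀ (X : List T), InCone (fun c : T → ℕ => HamChrom.star (c s) (X.map c))
  | [] => InCone.one.congr (fun c => by simp)
  | a :: X => ((InCone.ne01 s a).mul (InCone.star s X)).congr (fun c => by simp)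

theorem InCone.bs (u : T) (G : (T → ℕ) → ℕ → ℝ) (h : ∀ p : T, InCone (fun c => G c (c p))) :
    ∀ (L : List T), InCone (fun c : T → ℕ => HamChrom.bs (c u) (L.map c) (G c))
  | [] => InCone.zero.congr (fun c => by simp)
  | p :: L => by
    have h1 := InCone.bs u G h L
    have h2 := ((InCone.ne01 p u).mul (InCone.star p L)).mul (h p)
    exact (InCone.add _ _ h1 h2).congr (fun c => by rw [List.map_cons, bs_cons])

theorem star_append (x : ℕ) (A B : List ℕ) : star x (A ++ B) = star x A * star x B := by
  simp [star]

theorem star_gstar (c : T → ℕ) (X : List T) (g : T × List T) (x : ℕ) :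
    star x (X.map c) * gstar x (c g.1, g.2.map c) = star x ((X ++ (g.1 :: g.2)).map c) := by
  rw [List.map_append, star_append, List.map_cons, star_cons]
  rfl

theorem star_sing (c : T → ℕ) (p : T) (x : ℕ) : star x ([p].map c) = ne01 x (c p) := by simp

variable (y : ℝ) (b : T)

section

variable (hy0 : 0 < y) (hy1 : y < 1)

theorem w_nonneg (hy1 : y < 1) : 0 ≤ 1 / (1 - y) := div_nonneg zero_le_one (by linarith)
theorem k_nonneg (hy0 : 0 < y) (hy1 : y < 1) : 0 ≤ y / (1 - y) ^ 2 :=
  div_nonneg hy0.le (pow_nonneg (by linarith) 2)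

include hy0 hy1

/-- all manifest members at once -/
theorem manifest : ∀ (W : WT T),
    (∀ X : List T, InCone (fun c => mu y (c b) (wd c W) (fun x => star x (X.map c)))) ∧
    (∀ X : List T, InCone (fun c => mu' y (c b) (wd c W) (fun x => star x (X.map c)))) ∧
    (∀ X : List T, InCone (fun c => mu y (c b) (wd c W) (fun x => star x (X.map c))
      - star (c b) (X.map c))) ∧
    (∀ X : List T, InCone (fun c => lam y (c b) (wd c W) (fun x => star x (X.map c)))) ∧
    (∀ X : List T, InCone (fun c => lam' y (c b) (wd c W) (fun x => star x (X.map c)))) ∧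
    (∀ X : List T, InCone (fun c => lam y (c b) (wd c W) (fun x => star x (X.map c))
      - mu y (c b) (wd c W) (fun x => star x (X.map c)))) ∧
    (∀ X : List T, InCone (fun c => lam' y (c b) (wd c W) (fun x => star x (X.map c))
      - mu' y (c b) (wd c W) (fun x => star x (X.map c))))
  | [] => by
    refine ⟨?_, ?_, ?_, ?_, ?_, ?_, ?_⟩ <;> intro X
    · exact (InCone.star b X).congr (fun c => by simp)
    · exact InCone.zero.congr (fun c => by simp)
    · exact InCone.zero.congr (fun c => by simp)
    · exact (InCone.star b X).congr (fun c => by simp)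
    · exact InCone.zero.congr (fun c => by simp)
    · exact InCone.zero.congr (fun c => by simp)
    · exact InCone.zero.congr (fun c => by simp)
  | g :: W => by
    obtain ⟨h1, h2, h3, h4, h5, h6, h7⟩ := manifest W
    have hw := w_nonneg y hy1
    have hk := k_nonneg y hy0 hy1
    -- common pieces
    have dmu : ∀ X : List T, InCone (fun c => (y / (1 - y) ^ 2) * mu' y (c b) (wd c W)
        (fun x => star x (X.map c) * gstar x (c g.1, g.2.map c))
        + (1 / (1 - y)) * bs (c g.1) (g.2.map c) (fun γ => star γ (X.map c) *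
          mu y (c b) (wd c W) (fun x => ne01 x γ))) := by
      intro X
      have a1 := (h2 (X ++ (g.1 :: g.2))).smul _ hk
      have a2 := (InCone.bs g.1 (fun c γ => star γ (X.map c) * mu y (c b) (wd c W) (fun x => ne01 x γ))
        (fun p => ((InCone.star p X).mul (h1 [p])).congr (fun c => by simp only [star_sing])) g.2).smul _ hw
      exact (InCone.add _ _ a1 a2).congr (fun c => by simp only [star_gstar])
    have dlm : ∀ X : List T, InCone (fun c => (y / (1 - y) ^ 2) * (lam' y (c b) (wd c W)
        (fun x => star x (X.map c) * gstar x (c g.1, g.2.map c)) - mu' y (c b) (wd c W)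
        (fun x => star x (X.map c) * gstar x (c g.1, g.2.map c)))
        + (1 / (1 - y)) * (star (c g.1) (X.map c) * lam y (c b) (wd c W) (fun x => ne01 x (c g.1)))
        + (1 / (1 - y)) * bs (c g.1) (g.2.map c) (fun γ => star γ (X.map c) *
          (lam y (c b) (wd c W) (fun x => ne01 x γ) - mu y (c b) (wd c W) (fun x => ne01 x γ)))) := by
      intro X
      have a1 := (h7 (X ++ (g.1 :: g.2))).smul _ hk
      have a2 := (InCone.bs g.1 (fun c γ => star γ (X.map c) * (lam y (c b) (wd c W) (fun x => ne01 x γ)
          - mu y (c b) (wd c W) (fun x => ne01 x γ)))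
        (fun p => ((InCone.star p X).mul (h6 [p])).congr (fun c => by simp only [star_sing])) g.2).smul _ hw
      have a3 := ((InCone.star g.1 X).mul (h4 [g.1])).smul _ hw
      exact (InCone.add _ _ (InCone.add _ _ a1 a3) a2).congr (fun c => by
        simp only [star_gstar, star_sing])
    have hbs : ∀ (c : T → ℕ) (X : List T), bs (c g.1) (g.2.map c) (fun γ => star γ (X.map c) *
          (lam y (c b) (wd c W) (fun x => ne01 x γ) - mu y (c b) (wd c W) (fun x => ne01 x γ)))
        = bs (c g.1) (g.2.map c) (fun γ => star γ (X.map c) * lam y (c b) (wd c W) (fun x => ne01 x γ))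
          - bs (c g.1) (g.2.map c) (fun γ => star γ (X.map c) * mu y (c b) (wd c W) (fun x => ne01 x γ)) := by
      intro c X
      have e1 : bs (c g.1) (g.2.map c) (fun γ => star γ (X.map c) * lam y (c b) (wd c W) (fun x => ne01 x γ))
          = bs (c g.1) (g.2.map c) (fun γ => star γ (X.map c) *
          (lam y (c b) (wd c W) (fun x => ne01 x γ) - mu y (c b) (wd c W) (fun x => ne01 x γ))
            + star γ (X.map c) * mu y (c b) (wd c W) (fun x => ne01 x γ)) := by
        congr 1
        funext γ
        ring
      rw [e1, bs_add]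
      ring
    refine ⟨?_, ?_, ?_, ?_, ?_, ?_, ?_⟩ <;> intro X
    · exact (InCone.add _ _ (h1 X) (dmu X)).congr (fun c => by
        rw [wd_cons, mu_cons]
        ring)
    · exact (h1 X).congr (fun c => by rw [wd_cons, mu'_cons])
    · exact (InCone.add _ _ (h3 X) (dmu X)).congr (fun c => by
        rw [wd_cons, mu_cons]
        ring)
    · exact (InCone.add _ _ (h4 X) (InCone.add _ _ (dlm X) (dmu X))).congr (fun c => by
        rw [wd_cons, lam_cons, hbs]
        unfold gsum
        ring)
    · exact (h4 X).congr (fun c => by rw [wd_cons, lam'_cons])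
    · exact (InCone.add _ _ (h6 X) (dlm X)).congr (fun c => by
        rw [wd_cons, lam_cons, mu_cons, hbs]
        unfold gsum
        ring)
    · exact (h6 X).congr (fun c => by rw [wd_cons, lam'_cons, mu'_cons])

/-- increments of `mu` -/
theorem manifest_dmu (g : T × List T) (W : WT T) (X : List T) :
    InCone (fun c => mu y (c b) (wd c (g :: W)) (fun x => star x (X.map c))
      - mu y (c b) (wd c W) (fun x => star x (X.map c))) := by
  obtain ⟨h1, h2, -⟩ := manifest y b hy0 hy1 W
  have hw := w_nonneg y hy1
  have hk := k_nonneg y hy0 hy1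
  have a1 := (h2 (X ++ (g.1 :: g.2))).smul _ hk
  have a2 := (InCone.bs g.1 (fun c γ => star γ (X.map c) * mu y (c b) (wd c W) (fun x => ne01 x γ))
    (fun p => ((InCone.star p X).mul (h1 [p])).congr (fun c => by simp only [star_sing])) g.2).smul _ hw
  exact (InCone.add _ _ a1 a2).congr (fun c => by
    rw [wd_cons, mu_cons]
    simp only [star_gstar]
    ring)

/-- increments of `lam - mu` -/
theorem manifest_dlm (g : T × List T) (W : WT T) (X : List T) :
    InCone (fun c => (lam y (c b) (wd c (g :: W)) (fun x => star x (X.map c))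
      - mu y (c b) (wd c (g :: W)) (fun x => star x (X.map c)))
      - (lam y (c b) (wd c W) (fun x => star x (X.map c))
      - mu y (c b) (wd c W) (fun x => star x (X.map c)))) := by
  obtain ⟨h1, h2, h3, h4, h5, h6, h7⟩ := manifest y b hy0 hy1 W
  have hw := w_nonneg y hy1
  have hk := k_nonneg y hy0 hy1
  have a1 := (h7 (X ++ (g.1 :: g.2))).smul _ hk
  have a2 := (InCone.bs g.1 (fun c γ => star γ (X.map c) * (lam y (c b) (wd c W) (fun x => ne01 x γ)
      - mu y (c b) (wd c W) (fun x => ne01 x γ)))
    (fun p => ((InCone.star p X).mul (h6 [p])).congr (fun c => by simp only [star_sing])) g.2).smul _ hw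
  have a3 := ((InCone.star g.1 X).mul (h4 [g.1])).smul _ hw
  exact (InCone.add _ _ (InCone.add _ _ a1 a3) a2).congr (fun c => by
    have e1 : bs (c g.1) (g.2.map c) (fun γ => star γ (X.map c) * lam y (c b) (wd c W) (fun x => ne01 x γ))
        = bs (c g.1) (g.2.map c) (fun γ => star γ (X.map c) *
        (lam y (c b) (wd c W) (fun x => ne01 x γ) - mu y (c b) (wd c W) (fun x => ne01 x γ))
          + star γ (X.map c) * mu y (c b) (wd c W) (fun x => ne01 x γ)) := by
      congr 1
      funext γ
      ring
    rw [wd_cons, lam_cons, mu_cons]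
    unfold gsum
    rw [e1, bs_add]
    simp only [star_gstar, star_sing]
    ring)

end

end Pool.Agent.HamChrom
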