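import Mathlib

/-!
Kronecker packing: equality of polynomials with natural coefficients from one evaluation.
-/

set_option autoImplicit false

namespace Pool.Agent.HamChrom

open Polynomial

theorem coeff_le_eval_one (P : ℕ[X]) (i : ℕ) : P.coeff i ≤ P.eval 1 := by
  rw [Polynomial.eval_eq_sum_range]
  by_cases h : i ≤ P.natDegree
  · calc P.coeff i = P.coeff i * 1 ^ i := by simp
      _ ≤ ∑ j ∈ Finset.range (P.natDegree + 1), P.coeff j * 1 ^ j :=
        Finset.single_le_sum (f := fun j => P.coeff j * 1 ^ j) (fun _ _ => Nat.zero_le _)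
          (Finset.mem_range.2 (by omega))
  · rw [Polynomial.coeff_eq_zero_of_natDegree_lt (by omega)]
    exact Nat.zero_le _

theorem pack_unique_aux (N : ℕ) : ∀ (d : ℕ) (P Q : ℕ[X]), P.natDegree ≤ d → Q.natDegree ≤ d →
    P.eval N = Q.eval N → P.eval 1 < N → Q.eval 1 < N → P = Q
  | 0, P, Q, hP, hQ, h, _, _ => by
    rw [Polynomial.eq_C_of_natDegree_le_zero hP, Polynomial.eq_C_of_natDegree_le_zero hQ] at h ⊢
    simp only [Polynomial.eval_C] at h
    rw [h]
  | d + 1, P, Q, hP, hQ, h, h1, h2 => by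
    have eP := Polynomial.divX_mul_X_add P
    have eQ := Polynomial.divX_mul_X_add Q
    have hPN : P.eval N = P.divX.eval N * N + P.coeff 0 := by
      conv_lhs => rw [← eP]
      simp
    have hQN : Q.eval N = Q.divX.eval N * N + Q.coeff 0 := by
      conv_lhs => rw [← eQ]
      simp
    have hP1 : P.eval 1 = P.divX.eval 1 + P.coeff 0 := by
      conv_lhs => rw [← eP]
      simp
    have hQ1 : Q.eval 1 = Q.divX.eval 1 + Q.coeff 0 := by
      conv_lhs => rw [← eQ]
      simp
    have hc : P.coeff 0 = Q.coeff 0 := by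
      have hp : P.coeff 0 < N := lt_of_le_of_lt (coeff_le_eval_one P 0) h1
      have hq : Q.coeff 0 < N := lt_of_le_of_lt (coeff_le_eval_one Q 0) h2
      rw [hPN, hQN] at h
      have := congrArg (fun t => t % N) h
      simp only [Nat.mul_add_mod', Nat.mod_eq_of_lt hp, Nat.mod_eq_of_lt hq] at this
      exact this
    have hdiv : P.divX.eval N = Q.divX.eval N := by
      rw [hPN, hQN, hc] at h
      have hN : 0 < N := lt_of_le_of_lt (Nat.zero_le _) h1
      exact Nat.eq_of_mul_eq_mul_right hN (Nat.add_right_cancel h)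
    have ih := pack_unique_aux N d P.divX Q.divX
      (by rw [Polynomial.natDegree_divX_eq_natDegree_tsub_one]; omega)
      (by rw [Polynomial.natDegree_divX_eq_natDegree_tsub_one]; omega) hdiv (by omega) (by omega)
    rw [← eP, ← eQ, ih, hc]

theorem pack_unique (N : ℕ) (P Q : ℕ[X]) (h : P.eval N = Q.eval N) (h1 : P.eval 1 < N)
    (h2 : Q.eval 1 < N) : P = Q :=
  pack_unique_aux N (max P.natDegree Q.natDegree) P Q (le_max_left _ _) (le_max_right _ _) h h1 h2

/-- evaluation of a coefficient list at a point of a semiring -/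
def ev {S : Type*} [CommSemiring S] (N : S) : List ℕ → S
  | [] => 0
  | a :: l => (a : S) + N * ev N l

theorem ev_map {S S' : Type*} [CommSemiring S] [CommSemiring S'] (φ : S →+* S') (N : S) :
    ∀ l : List ℕ, φ (ev N l) = ev (φ N) l
  | [] => by simp [ev]
  | a :: l => by simp [ev, ev_map φ N l]

theorem ev_nonneg {ρ : ℝ} (hρ : 0 ≤ ρ) : ∀ l : List ℕ, 0 ≤ ev ρ l
  | [] => by simp [ev]
  | a :: l => by
    simp only [ev]
    have := ev_nonneg hρ l
    positivity

/-- kernel-friendly version -/
def pk (N : ℕ) : List ℕ → ℕ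
  | [] => 0
  | a :: l => Nat.add a (Nat.mul N (pk N l))

theorem pk_eq (N : ℕ) : ∀ l : List ℕ, pk N l = ev N l
  | [] => rfl
  | a :: l => by
    simp only [pk, ev, pk_eq N l]
    rfl

end Pool.Agent.HamChrom
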