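import Pool.Agent.HamChrom.Manifest
import Pool.Agent.HamChrom.Pack

/-!
Bit masks for monomials on five points, equality patterns.
-/

set_option autoImplicit false

namespace Pool.Agent.HamChrom

open Finset

/-- the ten edges on five points -/
def edg (k : ℕ) : ℕ × ℕ :=
  ([(0, 1), (0, 2), (0, 3), (0, 4), (1, 2), (1, 3), (1, 4), (2, 3), (2, 4), (3, 4)] : List (ℕ × ℕ)).getD k (0, 0)

/-- monomial given by an edge mask -/
noncomputable def eGm (col : ℕ → ℕ) (g : ℕ) : ℝ :=
  ∏ k ∈ range 10, if g.testBit k then ne01 (col (edg k).1) (col (edg k).2) else 1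

/-- star function given by a point mask -/
noncomputable def eXm (col : ℕ → ℕ) (X : ℕ) (x : ℕ) : ℝ :=
  ∏ i ∈ range 5, if X.testBit i then ne01 x (col i) else 1

theorem ne01_mul_self (a b : ℕ) : ne01 a b * ne01 a b = ne01 a b := by
  unfold ne01; split_ifs <;> norm_num

theorem eGm_or (col : ℕ → ℕ) (g h : ℕ) : eGm col (Nat.lor g h) = eGm col g * eGm col h := by
  unfold eGm
  rw [← Finset.prod_mul_distrib]
  apply Finset.prod_congr rfl
  intro k _
  have : (Nat.lor g h).testBit k = (g.testBit k || h.testBit k) := Nat.testBit_or g h k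
  rw [this]
  by_cases h1 : g.testBit k <;> by_cases h2 : h.testBit k <;> simp [h1, h2, ne01_mul_self]

theorem eXm_or (col : ℕ → ℕ) (X Y : ℕ) (x : ℕ) : eXm col (Nat.lor X Y) x = eXm col X x * eXm col Y x := by
  unfold eXm
  rw [← Finset.prod_mul_distrib]
  apply Finset.prod_congr rfl
  intro k _
  have : (Nat.lor X Y).testBit k = (X.testBit k || Y.testBit k) := Nat.testBit_or X Y k
  rw [this]
  by_cases h1 : X.testBit k <;> by_cases h2 : Y.testBit k <;> simp [h1, h2, ne01_mul_self]

theorem eGm_zero (col : ℕ → ℕ) : eGm col 0 = 1 := by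
  unfold eGm; simp

theorem eXm_zero (col : ℕ → ℕ) (x : ℕ) : eXm col 0 x = 1 := by
  unfold eXm; simp

/-- mask with the bits satisfying `p` -/
def maskOf : ℕ → (ℕ → Bool) → ℕ
  | 0, _ => 0
  | n + 1, p => cond (p n) (Nat.add (2 ^ n) (maskOf n p)) (maskOf n p)

theorem maskOf_lt : ∀ (n : ℕ) (p : ℕ → Bool), maskOf n p < 2 ^ n
  | 0, p => by simp [maskOf]
  | n + 1, p => by
    have ih := maskOf_lt n p
    have h2 : 2 ^ (n + 1) = 2 ^ n + 2 ^ n := by ring
    unfold maskOf
    cases p n
    · show maskOf n p < _
      omega
    · show 2 ^ n + maskOf n p < _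
      omega

theorem testBit_maskOf : ∀ (n : ℕ) (p : ℕ → Bool) (k : ℕ),
    (maskOf n p).testBit k = (decide (k < n) && p k)
  | 0, p, k => by simp [maskOf]
  | n + 1, p, k => by
    have ih := testBit_maskOf n p k
    have hlt := maskOf_lt n p
    unfold maskOf
    rcases hp : p n
    · show (maskOf n p).testBit k = _
      rw [ih]
      by_cases h1 : k < n
      · simp [h1, Nat.lt_succ_of_lt h1]
      · by_cases h2 : k = n
        · subst h2; simp [hp]
        · have : ¬ k < n + 1 := by omega
          simp [h1, this]
    · show (2 ^ n + maskOf n p).testBit k = _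
      rcases lt_trichotomy k n with h | h | h
      · rw [Nat.testBit_two_pow_add_gt h, ih]
        simp [h, Nat.lt_succ_of_lt h]
      · subst h
        rw [Nat.testBit_two_pow_add_eq, Nat.testBit_lt_two_pow hlt]
        simp [hp]
      · have h1 : ¬ k < n + 1 := by omega
        have h2 : 2 ^ n + maskOf n p < 2 ^ k := by
          have : 2 ^ (n + 1) ≤ 2 ^ k := Nat.pow_le_pow_right (by norm_num) h
          have h3 : 2 ^ (n + 1) = 2 ^ n + 2 ^ n := by ring
          omega
        rw [Nat.testBit_lt_two_pow h2]
        simp [h1]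

theorem land_maskOf_eq_zero (g n : ℕ) (p : ℕ → Bool) :
    Nat.land g (maskOf n p) = 0 ↔ ∀ k < n, g.testBit k = true → p k = false := by
  constructor
  · intro h k hk hg
    have h1 : (Nat.land g (maskOf n p)).testBit k = (g.testBit k && (maskOf n p).testBit k) :=
      Nat.testBit_and g _ k
    rw [h, testBit_maskOf, hg] at h1
    simpa [hk] using h1
  · intro h
    apply Nat.eq_of_testBit_eq
    intro k
    have h1 : (Nat.land g (maskOf n p)).testBit k = (g.testBit k && (maskOf n p).testBit k) :=
      Nat.testBit_and g _ k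
    rw [h1, testBit_maskOf]
    by_cases hk : k < n
    · by_cases hg : g.testBit k = true
      · simp [h k hk hg]
      · simp [hg]
    · simp [hk]

/-! ### patterns -/

/-- label of a point in a pattern -/
def lab (π : List ℕ) (i : ℕ) : ℕ := π.getD i 9

/-- mask of the pairs of equal points -/
def eqm (π : List ℕ) : ℕ := maskOf 10 (fun k => Nat.beq (lab π (edg k).1) (lab π (edg k).2))

/-- mask of the block with label `l` -/
def bm (π : List ℕ) (l : ℕ) : ℕ := maskOf 5 (fun i => Nat.beq (lab π i) l)

/-- `π` describes the equalities among `col 0, ..., col 4` -/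
structure Good (π : List ℕ) (col : ℕ → ℕ) : Prop where
  iff : ∀ i < 5, ∀ j < 5, lab π i = lab π j ↔ col i = col j
  lt : ∀ i < 5, lab π i < 5
  idem : ∀ i < 5, lab π (lab π i) = lab π i

theorem Good.col_lab {π : List ℕ} {col : ℕ → ℕ} (h : Good π col) {i : ℕ} (hi : i < 5) :
    col (lab π i) = col i := (h.iff _ (h.lt i hi) i hi).1 (h.idem i hi)

theorem edg_lt (k : ℕ) (hk : k < 10) : (edg k).1 < 5 ∧ (edg k).2 < 5 := by
  interval_cases k <;> simp [edg]

theorem Good.eGm {π : List ℕ} {col : ℕ → ℕ} (h : Good π col) (g : ℕ) :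
    eGm col g = if Nat.land g (eqm π) = 0 then 1 else 0 := by
  by_cases h0 : Nat.land g (eqm π) = 0
  · rw [if_pos h0]
    rw [eqm, land_maskOf_eq_zero] at h0
    unfold HamChrom.eGm
    apply Finset.prod_eq_one
    intro k hk
    rw [Finset.mem_range] at hk
    by_cases hg : g.testBit k = true
    · rw [if_pos hg]
      have h1 := h0 k hk hg
      apply ne01_of_ne
      intro he
      have h2 := (h.iff _ (edg_lt k hk).1 _ (edg_lt k hk).2).2 he
      rw [h2] at h1
      simp at h1
    · rw [if_neg hg]
  · rw [if_neg h0]
    rw [eqm, land_maskOf_eq_zero] at h0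
    push Not at h0
    obtain ⟨k, hk, hg, hp⟩ := h0
    unfold HamChrom.eGm
    apply Finset.prod_eq_zero (Finset.mem_range.2 hk)
    rw [if_pos hg]
    have h1 : lab π (edg k).1 = lab π (edg k).2 := by simpa using hp
    rw [(h.iff _ (edg_lt k hk).1 _ (edg_lt k hk).2).1 h1, ne01_self]

/-- representatives of the blocks -/
def reps (π : List ℕ) : Finset ℕ := (range 5).filter (fun l => lab π l = l)

theorem Good.mem_reps {π : List ℕ} {col : ℕ → ℕ} (h : Good π col) {i : ℕ} (hi : i < 5) :
    lab π i ∈ reps π := by
  rw [reps, Finset.mem_filter, Finset.mem_range]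
  exact ⟨h.lt i hi, h.idem i hi⟩

/-- indicator of one colour -/
noncomputable def ind (a x : ℕ) : ℝ := 1 - ne01 x a

theorem ind_self (a : ℕ) : ind a a = 1 := by simp [ind, ne01_self]
theorem ind_of_ne {a x : ℕ} (h : x ≠ a) : ind a x = 0 := by simp [ind, ne01_of_ne h]

/-- the colours outside of the points -/
noncomputable def restf (π : List ℕ) (col : ℕ → ℕ) (x : ℕ) : ℝ := 1 - ∑ l ∈ reps π, ind (col l) x

theorem Good.eXm {π : List ℕ} {col : ℕ → ℕ} (h : Good π col) (X x : ℕ) :
    eXm col X x = ∑ l ∈ reps π, (if Nat.land X (bm π l) = 0 then 1 else 0) * ind (col l) x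
      + restf π col x := by
  by_cases hx : ∃ i < 5, x = col i
  · obtain ⟨i, hi, rfl⟩ := hx
    have hl := h.mem_reps hi
    have hcl := h.col_lab hi
    have hs : ∀ l ∈ reps π, l ≠ lab π i → ind (col l) (col i) = 0 := by
      intro l hl' hne
      apply ind_of_ne
      intro he
      rw [reps, Finset.mem_filter, Finset.mem_range] at hl'
      have := (h.iff i hi l hl'.1).2 he
      rw [hl'.2] at this
      exact hne this.symm
    have h1 : restf π col (col i) = 0 := by
      unfold restf
      rw [Finset.sum_eq_single (lab π i) hs (fun h' => absurd hl h'), hcl, ind_self, sub_self]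
    rw [h1, add_zero, Finset.sum_eq_single (lab π i)
      (fun l hl' hne => by rw [hs l hl' hne, mul_zero]) (fun h' => absurd hl h'), hcl, ind_self, mul_one]
    by_cases h0 : Nat.land X (bm π (lab π i)) = 0
    · rw [if_pos h0]
      rw [bm, land_maskOf_eq_zero] at h0
      unfold HamChrom.eXm
      apply Finset.prod_eq_one
      intro j hj
      rw [Finset.mem_range] at hj
      by_cases hg : X.testBit j = true
      · rw [if_pos hg]
        apply ne01_of_ne
        intro he
        have h2 := (h.iff i hi j hj).2 he
        have h3 := h0 j hj hg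
        rw [h2] at h3
        simp at h3
      · rw [if_neg hg]
    · rw [if_neg h0]
      rw [bm, land_maskOf_eq_zero] at h0
      push Not at h0
      obtain ⟨j, hj, hg, hp⟩ := h0
      unfold HamChrom.eXm
      apply Finset.prod_eq_zero (Finset.mem_range.2 hj)
      rw [if_pos hg]
      have h2 : lab π j = lab π i := by simpa using hp
      rw [(h.iff j hj i hi).1 h2, ne01_self]
  · push Not at hx
    have hs : ∀ l ∈ reps π, ind (col l) x = 0 := by
      intro l hl
      rw [reps, Finset.mem_filter, Finset.mem_range] at hl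
      exact ind_of_ne (hx l hl.1)
    have h1 : restf π col x = 1 := by
      unfold restf
      rw [Finset.sum_eq_zero hs, sub_zero]
    rw [h1, Finset.sum_eq_zero (fun l hl => by rw [hs l hl, mul_zero]), zero_add]
    unfold HamChrom.eXm
    apply Finset.prod_eq_one
    intro j hj
    rw [Finset.mem_range] at hj
    by_cases hg : X.testBit j = true
    · rw [if_pos hg]
      exact ne01_of_ne (hx j hj)
    · rw [if_neg hg]

/-! ### enumeration of the patterns -/

/-- candidate label lists -/
def cands : List (List ℕ) :=
  (List.range 2).flatMap fun a1 => (List.range 3).flatMap fun a2 => (List.range 4).flatMap fun a3 =>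
    (List.range 5).map fun a4 => [0, a1, a2, a3, a4]

/-- all equality patterns on five points -/
def pats : List (List ℕ) := cands.filter (fun π => (List.range 5).all (fun i =>
  Nat.beq (lab π (lab π i)) (lab π i)))

/-- first index with the same colour -/
noncomputable def labc (col : ℕ → ℕ) (i : ℕ) : ℕ := by
  classical
  exact Nat.find (⟨i, rfl⟩ : ∃ j, col j = col i)

theorem labc_le (col : ℕ → ℕ) (i : ℕ) : labc col i ≤ i := by
  classical
  unfold labc
  exact Nat.find_min' _ rfl

theorem col_labc (col : ℕ → ℕ) (i : ℕ) : col (labc col i) = col i := by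
  classical
  unfold labc
  exact Nat.find_spec (⟨i, rfl⟩ : ∃ j, col j = col i)

theorem labc_eq_iff (col : ℕ → ℕ) (i j : ℕ) : labc col i = labc col j ↔ col i = col j := by
  classical
  constructor
  · intro h
    rw [← col_labc col i, ← col_labc col j, h]
  · intro h
    unfold labc
    simp only [h]

theorem labc_idem (col : ℕ → ℕ) (i : ℕ) : labc col (labc col i) = labc col i :=
  (labc_eq_iff col _ _).2 (col_labc col i)

/-- the pattern of a colouring of the points -/
noncomputable def patc (col : ℕ → ℕ) : List ℕ :=
  [labc col 0, labc col 1, labc col 2, labc col 3, labc col 4]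

theorem lab_patc (col : ℕ → ℕ) (i : ℕ) (hi : i < 5) : lab (patc col) i = labc col i := by
  interval_cases i <;> rfl

theorem patc_good (col : ℕ → ℕ) : Good (patc col) col := by
  constructor
  · intro i hi j hj
    rw [lab_patc col i hi, lab_patc col j hj, labc_eq_iff]
  · intro i hi
    rw [lab_patc col i hi]
    exact lt_of_le_of_lt (labc_le col i) hi
  · intro i hi
    rw [lab_patc col i hi, lab_patc col _ (lt_of_le_of_lt (labc_le col i) hi), labc_idem]

theorem patc_mem (col : ℕ → ℕ) : patc col ∈ pats := by
  have hg := patc_good col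
  unfold pats
  rw [List.mem_filter]
  constructor
  · unfold cands
    have h0 : labc col 0 = 0 := Nat.le_zero.1 (labc_le col 0)
    have h1 := labc_le col 1
    have h2 := labc_le col 2
    have h3 := labc_le col 3
    have h4 := labc_le col 4
    simp only [List.mem_flatMap, List.mem_map, List.mem_range]
    refine ⟨labc col 1, by omega, labc col 2, by omega, labc col 3, by omega, labc col 4, by omega, ?_⟩
    rw [patc, h0]
  · rw [List.all_eq_true]
    intro i hi
    rw [List.mem_range] at hi
    rw [hg.idem i hi]
    simp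

end Pool.Agent.HamChrom
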