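import Pool.Agent.HamChrom.Targets

/-!
The linear conditions to be tested at a pattern, and their sufficiency.
-/

set_option autoImplicit false

namespace Pool.Agent.HamChrom

open Finset

def blkMain (E Wl : List ℕ) (tm : Bool) (π : List ℕ) (l : ℕ) : List (List At) :=
  cond (tm && Nat.beq l (lab π 0)) [] [[⟨[1], 0, bm π l⟩]] ++
    cond (Nat.beq l (lab π 3))
      [[⟨[1], 1, bm π l⟩, ⟨[1], 3, bm π l⟩], [⟨[1], 2, bm π l⟩, ⟨[1], 4, bm π l⟩]]
      [[⟨[1], 3, bm π l⟩], [⟨[1], 4, bm π l⟩], [⟨[1], 1, bm π l⟩],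
        [⟨E, 2, bm π l⟩, ⟨Wl, 4, bm π (lab π 3)⟩]]

def repL (π : List ℕ) : List ℕ := (List.range 5).filter (fun l => Nat.beq (lab π l) l)

def combosMain (E Wl : List ℕ) (tm : Bool) (π : List ℕ) : List (List At) :=
  [[⟨[1], 0, 0⟩], [⟨[1], 3, 0⟩], [⟨[1], 4, 0⟩], [⟨[1], 1, 0⟩], [⟨E, 2, 0⟩, ⟨Wl, 4, bm π (lab π 3)⟩]] ++
    (repL π).flatMap (blkMain E Wl tm π)

def combosBase (tm : Bool) (π : List ℕ) : List (List At) :=
  [[⟨[1], 0, 0⟩, ⟨[1], 3, 0⟩, ⟨[1], 4, 0⟩]] ++
    (repL π).flatMap (fun l => cond (tm && Nat.beq l (lab π 0)) []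
      [[⟨[1], 0, bm π l⟩, ⟨[1], 3, bm π l⟩, ⟨[1], 4, bm π l⟩]])

theorem mem_repL {π : List ℕ} {l : ℕ} : l ∈ repL π ↔ l ∈ reps π := by
  rw [repL, List.mem_filter, List.mem_range, reps, Finset.mem_filter, Finset.mem_range]
  constructor
  · rintro ⟨h1, h2⟩
    exact ⟨h1, Nat.eq_of_beq_eq_true h2⟩
  · rintro ⟨h1, h2⟩
    refine ⟨h1, ?_⟩
    rw [h2]
    exact Nat.beq_refl l

theorem ev_one (ρ : ℝ) : ev ρ [1] = 1 := by simp [ev]

theorem main_eq {π : List ℕ} {col : ℕ → ℕ} (hg : Good π col) {M : ℕ → (ℕ → ℝ) → ℝ}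
    (hM : ∀ k, IsLin (M k)) (hM5 : ∀ k, 5 ≤ k → ∀ f, M k f = 0) {ρ w e : ℝ} (he : e ≠ 0)
    {E Wl : List ℕ} (hE : ev ρ E = e) (hW : ev ρ Wl = e * w)
    (hr3 : M 3 (ind (col 3)) = M 1 (ind (col 3)))
    (hr4 : M 4 (ind (col 3)) = M 2 (ind (col 3)) + w * M 2 (fun z => ne01 z (col 3)))
    {tm : Bool} (ht : tm = true → M 0 (ind (col 0)) = 0)
    {N : ℕ} {wt : ℕ → ℝ} {wp wn : ℕ → Bool}
    (hw : ∀ s, wt s = (if wp s then 1 else 0) - (if wn s then 1 else 0))
    {tg : FS} {cs : List (FS × List Use)}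
    (hc : ∀ l ∈ combosMain E Wl tm π, tst N (eqm π) wp wn tg cs l = true) :
    FS.ev col M ρ tg = certEv col M ρ wt cs := by
  have h3lt : (3 : ℕ) < 5 := by norm_num
  have h0lt : (0 : ℕ) < 5 := by norm_num
  rw [← sub_eq_zero, diff_pat hg hM hM5 ρ wt wp wn hw tg cs]
  set D : ℕ → ℕ → ℝ := fun k m => dR ρ k m (eqm π) wp wn tg cs with hD
  have single : ∀ k m, tst N (eqm π) wp wn tg cs [⟨[1], k, m⟩] = true → D k m = 0 := by
    intro k m h
    have := tst_real h ρ
    simpa [ev_one] using this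
  have double : ∀ k k' m m', tst N (eqm π) wp wn tg cs [⟨[1], k, m⟩, ⟨[1], k', m'⟩] = true →
      D k m + D k' m' = 0 := by
    intro k k' m m' h
    have := tst_real h ρ
    simpa [ev_one] using this
  have dbl2 : ∀ m m', tst N (eqm π) wp wn tg cs [⟨E, 2, m⟩, ⟨Wl, 4, m'⟩] = true →
      D 2 m + w * D 4 m' = 0 := by
    intro m m' h
    have h1 := tst_real h ρ
    simp only [List.map_cons, List.map_nil, List.sum_cons, List.sum_nil, hE, hW, add_zero] at h1
    have h2 : e * (D 2 m + w * D 4 m') = 0 := by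
      rw [← h1]
      simp only [hD]
      ring
    exact (mul_eq_zero.1 h2).resolve_left he
  have hin : ∀ l ∈ reps π, ∀ c ∈ blkMain E Wl tm π l, tst N (eqm π) wp wn tg cs c = true := by
    intro l hl c hcl
    apply hc
    unfold combosMain
    apply List.mem_append_right
    rw [List.mem_flatMap]
    exact ⟨l, mem_repL.2 hl, hcl⟩
  have hrest : ∀ c ∈ ([[⟨[1], 0, 0⟩], [⟨[1], 3, 0⟩], [⟨[1], 4, 0⟩], [⟨[1], 1, 0⟩],
      [⟨E, 2, 0⟩, ⟨Wl, 4, bm π (lab π 3)⟩]] : List (List At)), tst N (eqm π) wp wn tg cs c = true := by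
    intro c hcl
    apply hc
    unfold combosMain
    exact List.mem_append_left _ hcl
  set lr := lab π 3 with hlr
  have hlrm : lr ∈ reps π := hg.mem_reps h3lt
  have hcolr : col lr = col 3 := hg.col_lab h3lt
  have r0 : D 0 0 = 0 := single 0 0 (hrest _ (by simp))
  have r3 : D 3 0 = 0 := single 3 0 (hrest _ (by simp))
  have r4 : D 4 0 = 0 := single 4 0 (hrest _ (by simp))
  have r1 : D 1 0 = 0 := single 1 0 (hrest _ (by simp))
  have r2 : D 2 0 + w * D 4 (bm π lr) = 0 := dbl2 _ _ (hrest _ (by simp))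
  have d0 : ∀ l ∈ reps π, D 0 (bm π l) * M 0 (ind (col l)) = 0 := by
    intro l hl
    by_cases htl : (tm && Nat.beq l (lab π 0)) = true
    · rw [Bool.and_eq_true] at htl
      have h1 := Nat.eq_of_beq_eq_true htl.2
      have h2 : col l = col 0 := by rw [h1]; exact hg.col_lab h0lt
      rw [h2, ht htl.1, mul_zero]
    · have : D 0 (bm π l) = 0 := by
        apply single
        apply hin l hl
        unfold blkMain
        rw [Bool.not_eq_true] at htl
        rw [htl]
        simp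
      rw [this, zero_mul]
  have beq_r : Nat.beq lr (lab π 3) = true := by rw [hlr]; exact Nat.beq_refl _
  have dr13 : D 1 (bm π lr) + D 3 (bm π lr) = 0 := by
    apply double
    apply hin lr hlrm
    unfold blkMain
    rw [beq_r]
    simp
  have dr24 : D 2 (bm π lr) + D 4 (bm π lr) = 0 := by
    apply double
    apply hin lr hlrm
    unfold blkMain
    rw [beq_r]
    simp
  have beq_n : ∀ l, l ≠ lr → Nat.beq l (lab π 3) = false := by
    intro l hl
    rw [← Bool.not_eq_true]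
    intro h
    exact hl (Nat.eq_of_beq_eq_true h)
  have dn3 : ∀ l ∈ reps π, l ≠ lr → D 3 (bm π l) = 0 := by
    intro l hl hne
    apply single
    apply hin l hl
    unfold blkMain
    rw [beq_n l hne]
    simp
  have dn4 : ∀ l ∈ reps π, l ≠ lr → D 4 (bm π l) = 0 := by
    intro l hl hne
    apply single
    apply hin l hl
    unfold blkMain
    rw [beq_n l hne]
    simp
  have dn1 : ∀ l ∈ reps π, l ≠ lr → D 1 (bm π l) = 0 := by
    intro l hl hne
    apply single
    apply hin l hl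
    unfold blkMain
    rw [beq_n l hne]
    simp
  have dn2 : ∀ l ∈ reps π, l ≠ lr → D 2 (bm π l) + w * D 4 (bm π lr) = 0 := by
    intro l hl hne
    apply dbl2
    apply hin l hl
    unfold blkMain
    rw [beq_n l hne]
    simp [hlr]
  -- the sums
  have s0 : ∑ l ∈ reps π, D 0 (bm π l) * M 0 (ind (col l)) = 0 := Finset.sum_eq_zero d0
  have s3 : ∑ l ∈ reps π, D 3 (bm π l) * M 3 (ind (col l)) = D 3 (bm π lr) * M 1 (ind (col 3)) := by
    rw [Finset.sum_eq_single lr (fun l hl hne => by rw [dn3 l hl hne, zero_mul])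
      (fun h => absurd hlrm h), hcolr, hr3]
  have s1 : ∑ l ∈ reps π, D 1 (bm π l) * M 1 (ind (col l)) = D 1 (bm π lr) * M 1 (ind (col 3)) := by
    rw [Finset.sum_eq_single lr (fun l hl hne => by rw [dn1 l hl hne, zero_mul])
      (fun h => absurd hlrm h), hcolr]
  have s4 : ∑ l ∈ reps π, D 4 (bm π l) * M 4 (ind (col l)) = D 4 (bm π lr) * M 4 (ind (col 3)) := by
    rw [Finset.sum_eq_single lr (fun l hl hne => by rw [dn4 l hl hne, zero_mul])
      (fun h => absurd hlrm h), hcolr]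
  have s2 : ∑ l ∈ reps π, D 2 (bm π l) * M 2 (ind (col l)) + D 2 0 * M 2 (restf π col)
      + D 4 (bm π lr) * M 4 (ind (col 3)) = 0 := by
    have hne01 : M 2 (fun z => ne01 z (col 3)) = ∑ l ∈ (reps π).erase lr, M 2 (ind (col l))
        + M 2 (restf π col) := by
      have h1 : ∀ z, ne01 z (col 3) = ∑ l ∈ (reps π).erase lr, ind (col l) z + restf π col z := by
        intro z
        unfold restf
        rw [← Finset.add_sum_erase (reps π) (fun l => ind (col l) z) hlrm, hcolr]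
        unfold ind
        ring
      rw [IsLin.congr (M 2) h1, (hM 2).add, (hM 2).sum]
    rw [hr4, hne01, ← Finset.add_sum_erase (reps π) (fun l => D 2 (bm π l) * M 2 (ind (col l))) hlrm, hcolr]
    have h2 : ∑ l ∈ (reps π).erase lr, D 2 (bm π l) * M 2 (ind (col l))
        = ∑ l ∈ (reps π).erase lr, (-(w * D 4 (bm π lr))) * M 2 (ind (col l)) := by
      apply Finset.sum_congr rfl
      intro l hl
      rw [Finset.mem_erase] at hl
      have := dn2 l hl.2 hl.1
      have h3 : D 2 (bm π l) = -(w * D 4 (bm π lr)) := by linarith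
      rw [h3]
    rw [h2, ← Finset.mul_sum]
    have h4 : D 2 0 = -(w * D 4 (bm π lr)) := by linarith
    have h5 : D 2 (bm π lr) = - D 4 (bm π lr) := by linarith
    rw [h4, h5]
    ring
  have hsplit : ∑ k ∈ range 5, (∑ l ∈ reps π, dR ρ k (bm π l) (eqm π) wp wn tg cs * M k (ind (col l))
        + dR ρ k 0 (eqm π) wp wn tg cs * M k (restf π col))
      = ((∑ l ∈ reps π, D 0 (bm π l) * M 0 (ind (col l)) + D 0 0 * M 0 (restf π col))
        + (∑ l ∈ reps π, D 1 (bm π l) * M 1 (ind (col l)) + D 1 0 * M 1 (restf π col)))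
        + (∑ l ∈ reps π, D 2 (bm π l) * M 2 (ind (col l)) + D 2 0 * M 2 (restf π col))
        + (∑ l ∈ reps π, D 3 (bm π l) * M 3 (ind (col l)) + D 3 0 * M 3 (restf π col))
        + (∑ l ∈ reps π, D 4 (bm π l) * M 4 (ind (col l)) + D 4 0 * M 4 (restf π col)) := by
    simp only [Finset.sum_range_succ, Finset.sum_range_zero, zero_add, hD]
  rw [hsplit, s0, s1, s3, s4, r0, r1, r3, r4]
  have : D 1 (bm π lr) * M 1 (ind (col 3)) + D 3 (bm π lr) * M 1 (ind (col 3)) = 0 := by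
    rw [← add_mul, dr13, zero_mul]
  linarith

theorem base_eq {π : List ℕ} {col : ℕ → ℕ} (hg : Good π col) {M : ℕ → (ℕ → ℝ) → ℝ}
    (hM : ∀ k, IsLin (M k)) (hM5 : ∀ k, 5 ≤ k → ∀ f, M k f = 0) {ρ : ℝ}
    (h1 : ∀ f, M 1 f = 0) (h2 : ∀ f, M 2 f = 0) (h3 : ∀ f, M 3 f = M 0 f) (h4 : ∀ f, M 4 f = M 0 f)
    {tm : Bool} (ht : tm = true → M 0 (ind (col 0)) = 0)
    {N : ℕ} {wt : ℕ → ℝ} {wp wn : ℕ → Bool}
    (hw : ∀ s, wt s = (if wp s then 1 else 0) - (if wn s then 1 else 0))
    {tg : FS} {cs : List (FS × List Use)}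
    (hc : ∀ l ∈ combosBase tm π, tst N (eqm π) wp wn tg cs l = true) :
    FS.ev col M ρ tg = certEv col M ρ wt cs := by
  have h0lt : (0 : ℕ) < 5 := by norm_num
  rw [← sub_eq_zero, diff_pat hg hM hM5 ρ wt wp wn hw tg cs]
  set D : ℕ → ℕ → ℝ := fun k m => dR ρ k m (eqm π) wp wn tg cs with hD
  have triple : ∀ m, tst N (eqm π) wp wn tg cs [⟨[1], 0, m⟩, ⟨[1], 3, m⟩, ⟨[1], 4, m⟩] = true →
      D 0 m + D 3 m + D 4 m = 0 := by
    intro m h
    have := tst_real h ρ
    simp only [List.map_cons, List.map_nil, List.sum_cons, List.sum_nil, ev_one, one_mul, add_zero] at this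
    linarith
  have r0 : D 0 0 + D 3 0 + D 4 0 = 0 := by
    apply triple
    apply hc
    unfold combosBase
    apply List.mem_append_left
    simp
  have d0 : ∀ l ∈ reps π, (D 0 (bm π l) + D 3 (bm π l) + D 4 (bm π l)) * M 0 (ind (col l)) = 0 := by
    intro l hl
    by_cases htl : (tm && Nat.beq l (lab π 0)) = true
    · rw [Bool.and_eq_true] at htl
      have h1 := Nat.eq_of_beq_eq_true htl.2
      have h2 : col l = col 0 := by rw [h1]; exact hg.col_lab h0lt
      rw [h2, ht htl.1, mul_zero]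
    · have : D 0 (bm π l) + D 3 (bm π l) + D 4 (bm π l) = 0 := by
        apply triple
        apply hc
        unfold combosBase
        apply List.mem_append_right
        rw [List.mem_flatMap]
        refine ⟨l, mem_repL.2 hl, ?_⟩
        rw [Bool.not_eq_true] at htl
        rw [htl]
        simp
      rw [this, zero_mul]
  have hsplit : ∑ k ∈ range 5, (∑ l ∈ reps π, dR ρ k (bm π l) (eqm π) wp wn tg cs * M k (ind (col l))
        + dR ρ k 0 (eqm π) wp wn tg cs * M k (restf π col))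
      = ∑ l ∈ reps π, (D 0 (bm π l) + D 3 (bm π l) + D 4 (bm π l)) * M 0 (ind (col l))
        + (D 0 0 + D 3 0 + D 4 0) * M 0 (restf π col) := by
    simp only [Finset.sum_range_succ, Finset.sum_range_zero, zero_add, h1, h2, h3, h4, mul_zero,
      Finset.sum_const_zero, add_zero]
    have : ∑ l ∈ reps π, (D 0 (bm π l) + D 3 (bm π l) + D 4 (bm π l)) * M 0 (ind (col l))
        = ∑ l ∈ reps π, D 0 (bm π l) * M 0 (ind (col l)) + ∑ l ∈ reps π, D 3 (bm π l) * M 0 (ind (col l))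
          + ∑ l ∈ reps π, D 4 (bm π l) * M 0 (ind (col l)) := by
      rw [← Finset.sum_add_distrib, ← Finset.sum_add_distrib]
      apply Finset.sum_congr rfl
      intro l _
      ring
    rw [this]
    simp only [hD]
    ring
  rw [hsplit, Finset.sum_eq_zero d0, r0]
  ring

end Pool.Agent.HamChrom
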