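import Pool.Agent.HamChrom.Interval
import Pool.Agent.HamChrom.D1.All
import Pool.Agent.HamChrom.D2.All
import Pool.Agent.HamChrom.D3.All
import Pool.Agent.HamChrom.D4.All
import Pool.Agent.HamChrom.D5.All
import Pool.Agent.HamChrom.D6.All

/-!
The union of the intervals: the cone hypothesis for `1 / 9 ≤ y < 67 / 195`.
-/

set_option autoImplicit false

namespace Pool.Agent.HamChrom

theorem cone_range {y : ℝ} (h1 : 1 / 9 ≤ y) (h2 : y < 67 / 195) : ConeHyp y := by
  have hy0 : 0 < y := by linarith
  have hy1 : y < 1 := by linarith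
  by_cases c1 : (64 : ℝ) * y < 14 * (1 - y)
  · obtain ⟨ρ, hρ⟩ := rel_of_eta D1.par hy0 hy1 (by decide)
      (by simp only [D1.par]; push_cast; linarith) (by simp only [D1.par]; push_cast; linarith)
    exact D1.cone hρ
  by_cases c2 : (64 : ℝ) * y < 20 * (1 - y)
  · obtain ⟨ρ, hρ⟩ := rel_of_eta D2.par hy0 hy1 (by decide)
      (by simp only [D2.par]; push_cast; linarith) (by simp only [D2.par]; push_cast; linarith)
    exact D2.cone hρ
  by_cases c3 : (64 : ℝ) * y < 25 * (1 - y)
  · obtain ⟨ρ, hρ⟩ := rel_of_eta D3.par hy0 hy1 (by decide)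
      (by simp only [D3.par]; push_cast; linarith) (by simp only [D3.par]; push_cast; linarith)
    exact D3.cone hρ
  by_cases c4 : (64 : ℝ) * y < 31 * (1 - y)
  · obtain ⟨ρ, hρ⟩ := rel_of_eta D4.par hy0 hy1 (by decide)
      (by simp only [D4.par]; push_cast; linarith) (by simp only [D4.par]; push_cast; linarith)
    exact D4.cone hρ
  by_cases c5 : (128 : ℝ) * y < 64 * (1 - y)
  · obtain ⟨ρ, hρ⟩ := rel_of_eta D5.par hy0 hy1 (by decide)
      (by simp only [D5.par]; push_cast; linarith) (by simp only [D5.par]; push_cast; linarith)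
    exact D5.cone hρ
  · obtain ⟨ρ, hρ⟩ := rel_of_eta D6.par hy0 hy1 (by decide)
      (by simp only [D6.par]; push_cast; linarith) (by simp only [D6.par]; push_cast; linarith)
    exact D6.cone hρ

end Pool.Agent.HamChrom
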