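import Pool.Agent.HamChrom.Main
import Pool.Agent.HamChrom.Range

/-!
Thomassen's conjecture on the chromatic polynomial of Hamiltonian graphs, for all real arguments
in the interval `[10 / 9, 262 / 195)`, where `262 / 195 = 1.3435...`.
-/

set_option autoImplicit false

namespace Pool.Agent.Results.MP_8989bc_co.RootFreeInterval

theorem result :
    ∀ (V : Type) [Fintype V] [DecidableEq V] (G : SimpleGraph V) [DecidableRel G.Adj],
      (∃ v : V, ∃ p : G.Walk v v, p.IsHamiltonianCycle) →
      ∀ x : ℝ, 10 / 9 ≤ x → x < 262 / 195 →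
        0 < ((-1 : ℝ) ^ Fintype.card V) *
          ∑ S ∈ G.edgeFinset.powerset,
            ((-1 : ℝ) ^ S.card) *
              x ^ Nat.card (SimpleGraph.fromEdgeSet (S : Set (Sym2 V))).ConnectedComponent := by
  intro V _ _ G _ hG x h1 h2
  have h := Pool.Agent.HamChrom.ham_pos (x - 1) (by linarith) (by linarith)
    (Pool.Agent.HamChrom.cone_range (by linarith) (by linarith)) V G hG
  rwa [add_sub_cancel] at h

end Pool.Agent.Results.MP_8989bc_co.RootFreeInterval
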