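import Pool.Agent.HamChrom.ArcId

/-!
The reduction steps: base case, vertices of degree two, arcs of a minimal chord.
-/

set_option autoImplicit false

namespace Pool.Agent.HamChrom

open Finset

theorem eG_absorb {V : Type} {G : SimpleGraph V} {a b : V} (hab : G.Adj a b) (c : V → ℕ) :
    eG G c * ne01 (c a) (c b) = eG G c := by
  by_cases hp : Proper G c
  · rw [ne01_of_ne (hp a b hab), mul_one]
  · rw [eG_neg hp, zero_mul]

/-! ### base case -/

theorem base_two (x : ℝ) (G : SimpleGraph (Fin 2)) (h : G.Adj 0 1) :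
    L x 2 (eG G) = x * (x - 1) := by
  have h1 : ∀ c : Fin 1 → ℕ, elim x (eG G) c = x - 1 := by
    intro c
    have himg : univ.image c = {c 0} := by
      ext γ
      simp only [Finset.mem_image, Finset.mem_univ, true_and, Finset.mem_singleton]
      constructor
      · rintro ⟨i, rfl⟩
        rw [Fin.fin_one_eq_zero i]
      · intro hγ
        exact ⟨0, hγ.symm⟩
    have hnew : newc c ≠ c 0 := by
      intro e
      apply newc_notMem c
      rw [himg, Finset.mem_singleton]
      exact e
    unfold elim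
    rw [himg, Finset.sum_singleton, Finset.card_singleton]
    have h2 : eG G (Fin.snoc c (c 0)) = 0 := by
      apply eG_neg
      intro H
      exact H 0 1 h rfl
    have h3 : eG G (Fin.snoc c (newc c)) = 1 := by
      apply eG_pos
      intro i j hij
      have e0 : (Fin.snoc c (newc c) : Fin 2 → ℕ) 0 = c 0 := rfl
      have e1 : (Fin.snoc c (newc c) : Fin 2 → ℕ) 1 = newc c := rfl
      fin_cases i <;> fin_cases j
      · exact absurd hij (G.loopless.irrefl _)
      · show (Fin.snoc c (newc c) : Fin 2 → ℕ) 0 ≠ (Fin.snoc c (newc c) : Fin 2 → ℕ) 1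
        rw [e0, e1]
        exact fun e => hnew e.symm
      · show (Fin.snoc c (newc c) : Fin 2 → ℕ) 1 ≠ (Fin.snoc c (newc c) : Fin 2 → ℕ) 0
        rw [e0, e1]
        exact hnew
      · exact absurd hij (G.loopless.irrefl _)
    rw [h2, h3]
    push_cast
    ring
  rw [L_succ, L_congr x 1 _ (fun _ => x - 1) h1, L_succ, L_zero]
  unfold elim
  simp

/-! ### vertices of degree two -/

/-- identification of the last vertex with the first one -/
def ident {t : ℕ} [NeZero t] (H : SimpleGraph (Fin (t + 1))) : SimpleGraph (Fin t) :=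
  SimpleGraph.fromRel (fun i j => H.Adj i.castSucc j.castSucc ∨ (i = 0 ∧ H.Adj (Fin.last t) j.castSucc))

theorem L_ident (x : ℝ) {t : ℕ} [NeZero t] (H : SimpleGraph (Fin (t + 1)))
    (hab : ¬ H.Adj (Fin.last t) (Fin.castSucc 0)) :
    L x (t + 1) (fun c => eG H c * (1 - ne01 (c (Fin.last t)) (c (Fin.castSucc 0))))
      = L x t (eG (ident H)) := by
  rw [L_succ]
  apply L_congr
  intro c
  unfold elim
  have h1 : ∀ γ, (Fin.snoc c γ : Fin (t + 1) → ℕ) (Fin.last t) = γ := fun γ => Fin.snoc_last _ _
  have h2 : ∀ γ, (Fin.snoc c γ : Fin (t + 1) → ℕ) (Fin.castSucc 0) = c 0 := fun γ => by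
    simp only [Fin.snoc_castSucc]
  simp only [h1, h2]
  have hnew : newc c ≠ c 0 := by
    intro e
    apply newc_notMem c
    rw [e]
    exact Finset.mem_image_of_mem _ (Finset.mem_univ _)
  rw [ne01_of_ne hnew, sub_self, mul_zero, mul_zero, add_zero]
  rw [Finset.sum_eq_single (c 0)]
  · rw [ne01_self, sub_zero, mul_one]
    apply eG_congr
    constructor
    · intro HP i j hij
      rw [ident, SimpleGraph.fromRel_adj] at hij
      obtain ⟨hne, hij⟩ := hij
      have key : ∀ i j : Fin t, (H.Adj i.castSucc j.castSucc ∨ (i = 0 ∧ H.Adj (Fin.last t) j.castSucc)) →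
          c i ≠ c j := by
        intro i j h
        rcases h with h | ⟨rfl, h⟩
        · have := HP _ _ h
          simpa using this
        · have := HP _ _ h
          simpa using this
      rcases hij with h | h
      · exact key i j h
      · exact fun e => key j i h e.symm
    · intro HP i j hij
      have hlast : ∀ j : Fin t, H.Adj (Fin.last t) j.castSucc → c 0 ≠ c j := by
        intro j hj
        apply HP 0 j
        rw [ident, SimpleGraph.fromRel_adj]
        refine ⟨?_, Or.inl (Or.inr ⟨rfl, hj⟩)⟩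
        rintro rfl
        exact hab hj
      have hcast : ∀ i j : Fin t, H.Adj i.castSucc j.castSucc → c i ≠ c j := by
        intro i j h
        apply HP i j
        rw [ident, SimpleGraph.fromRel_adj]
        refine ⟨?_, Or.inl (Or.inl h)⟩
        rintro rfl
        exact H.loopless.irrefl _ h
      induction i using Fin.lastCases with
      | last =>
        induction j using Fin.lastCases with
        | last => exact absurd hij (H.loopless.irrefl _)
        | cast j' =>
          rw [Fin.snoc_last, Fin.snoc_castSucc]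
          exact hlast j' hij
      | cast i' =>
        induction j using Fin.lastCases with
        | last =>
          rw [Fin.snoc_last, Fin.snoc_castSucc]
          exact fun e => hlast i' hij.symm e.symm
        | cast j' =>
          rw [Fin.snoc_castSucc, Fin.snoc_castSucc]
          exact hcast i' j' hij
  · intro γ _ hγ
    rw [ne01_of_ne hγ, sub_self, mul_zero]
  · intro h
    exact absurd (Finset.mem_image_of_mem _ (Finset.mem_univ _)) h

theorem fin_add_one_val {n : ℕ} [NeZero n] (i : Fin n) (h : (i : ℕ) + 1 < n) :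
    ((i + 1 : Fin n) : ℕ) = (i : ℕ) + 1 := by
  rw [Fin.val_add]
  have h1 : ((1 : Fin n) : ℕ) = 1 % n := Fin.val_one' n
  rw [h1, Nat.mod_eq_of_lt (by omega : 1 < n), Nat.mod_eq_of_lt h]

theorem fin_add_one_last {n : ℕ} [NeZero n] (i : Fin n) (h : (i : ℕ) + 1 = n) :
    (i + 1 : Fin n) = 0 := by
  apply Fin.ext
  rw [Fin.val_add, Fin.val_one' n, Nat.add_mod_mod, h, Nat.mod_self]
  simp

/-- adjacency in terms of values -/
theorem Cyc.adj_succ {n : ℕ} [NeZero n] {G : SimpleGraph (Fin n)} (hG : Cyc G) {i j : Fin n}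
    (h : (i : ℕ) + 1 = j) : G.Adj i j := by
  have := hG i
  have e : i + 1 = j := by
    apply Fin.ext
    rw [fin_add_one_val i (by rw [h]; exact j.2), h]
  rwa [e] at this

theorem Cyc.adj_last {n : ℕ} [NeZero n] {G : SimpleGraph (Fin n)} (hG : Cyc G) {i j : Fin n}
    (h : (i : ℕ) + 1 = n) (hj : (j : ℕ) = 0) : G.Adj i j := by
  have := hG i
  have e : i + 1 = j := by
    rw [fin_add_one_last i h]
    apply Fin.ext
    simp [hj]
  rwa [e] at this

theorem cyc_of_val {n : ℕ} [NeZero n] {G : SimpleGraph (Fin n)}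
    (h1 : ∀ i j : Fin n, (i : ℕ) + 1 = j → G.Adj i j)
    (h2 : ∀ i j : Fin n, (i : ℕ) + 1 = n → (j : ℕ) = 0 → G.Adj i j) : Cyc G := by
  intro i
  rcases Nat.lt_or_ge ((i : ℕ) + 1) n with h | h
  · exact h1 i (i + 1) (fin_add_one_val i h).symm
  · have hi : (i : ℕ) + 1 = n := by have := i.2; omega
    apply h2 i (i + 1) hi
    rw [fin_add_one_last i hi]
    simp

theorem deg2_step (y : ℝ) (hy0 : 0 < y) (hy1 : y < 1) {t : ℕ} [NeZero t] [NeZero (t + 1)]
    (ht : 2 ≤ t) (G : SimpleGraph (Fin (t + 1))) (hG : Cyc G)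
    (hnb : ∀ j : Fin t, G.Adj j.castSucc (Fin.last t) → (j : ℕ) = 0 ∨ (j : ℕ) + 1 = t)
    (ih1 : ∀ H : SimpleGraph (Fin t), Cyc H → 0 < (-1 : ℝ) ^ t * L (1 + y) t (eG H))
    (ih2 : ∀ (s : ℕ) [NeZero s], 2 ≤ s → s < t → ∀ H : SimpleGraph (Fin s), Cyc H →
      0 < (-1 : ℝ) ^ s * L (1 + y) s (eG H)) :
    0 < (-1 : ℝ) ^ (t + 1) * L (1 + y) (t + 1) (eG G) := by
  obtain ⟨t', rfl⟩ : ∃ t', t = t' + 1 := ⟨t - 1, by omega⟩
  have ht' : NeZero t' := ⟨by omega⟩
  -- arc data with one vertex and an empty group
  have hD : ArcData (t := t' + 1) (d := 0) G (Fin.last t') (Fin.castSucc 0) (fun _ => ∅) := by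
    constructor
    · intro s j
      have hj : j = 0 := Fin.fin_one_eq_zero j
      subst hj
      have e1 : (Fin.natAdd (t' + 1) (0 : Fin 1) : Fin (t' + 1 + 1)) = Fin.last (t' + 1) := rfl
      have e2 : Fin.castAdd (0 + 1) s = s.castSucc := rfl
      show G.Adj s.castSucc (Fin.last (t' + 1)) ↔ _
      constructor
      · intro h
        rcases hnb s h with h0 | h0
        · right; right
          refine ⟨?_, rfl⟩
          apply Fin.ext
          simpa using h0
        · right; left
          refine ⟨?_, rfl⟩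
          apply Fin.ext
          simp only [Fin.val_last]
          omega
      · rintro (h | ⟨rfl, -⟩ | ⟨rfl, -⟩)
        · exact absurd h (Finset.notMem_empty _)
        · apply hG.adj_succ
          simp
        · apply SimpleGraph.Adj.symm
          apply hG.adj_last
          · simp
          · simp
    · intro i j
      have hi : i = 0 := Fin.fin_one_eq_zero i
      have hj : j = 0 := Fin.fin_one_eq_zero j
      subst hi hj
      constructor
      · intro h
        exact absurd h (G.loopless.irrefl _)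
      · intro h
        simp at h
  have hid := arc_identity hD (1 + y)
  set H : SimpleGraph (Fin (t' + 1)) := G.comap (Fin.castAdd (0 + 1)) with hH
  have hHs : ∀ i j : Fin (t' + 1), (i : ℕ) + 1 = j → H.Adj i j := by
    intro i j hij
    show G.Adj (Fin.castAdd (0 + 1) i) (Fin.castAdd (0 + 1) j)
    apply hG.adj_succ
    simpa using hij
  have hff : ∀ c : Fin (t' + 1) → ℕ, eG H c * ff (1 + y) (c (Fin.castSucc 0))
      (List.ofFn (fun _ : Fin (0 + 1) => (∅ : Finset (Fin (t' + 1))).image c)) (c (Fin.last t'))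
      = (1 - y) * (eG H c * ne01 (c (Fin.last t')) (c (Fin.castSucc 0)))
        + (-y) * (eG H c * (1 - ne01 (c (Fin.last t')) (c (Fin.castSucc 0)))) := by
    intro c
    simp only [Finset.image_empty, List.ofFn_succ, List.ofFn_zero, ff, Finset.erase_empty,
      Finset.sum_empty]
    ring
  have hid2 : (-1 : ℝ) ^ (0 + 1) * L (1 + y) (t' + 1 + (0 + 1)) (eG G)
      = (1 - y) * L (1 + y) (t' + 1) (fun c => eG H c * ne01 (c (Fin.last t')) (c (Fin.castSucc 0)))
        + (-y) * L (1 + y) (t' + 1) (fun c => eG H c * (1 - ne01 (c (Fin.last t')) (c (Fin.castSucc 0)))) := by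
    rw [hid, L_congr _ _ _ _ hff, L_add, L_smul, L_smul]
  have hgoal : (-1 : ℝ) ^ (t' + 1 + 1) * L (1 + y) (t' + 1 + 1) (eG G)
      = (-1 : ℝ) ^ (t' + 1) * ((-1 : ℝ) ^ (0 + 1) * L (1 + y) (t' + 1 + (0 + 1)) (eG G)) := by
    show (-1 : ℝ) ^ (t' + 1 + 1) * L (1 + y) (t' + 1 + 1) (eG G)
      = (-1 : ℝ) ^ (t' + 1) * ((-1 : ℝ) ^ (0 + 1) * L (1 + y) (t' + 1 + 1) (eG G))
    ring
  rw [hgoal, hid2]
  by_cases hab : H.Adj (Fin.last t') (Fin.castSucc 0)
  · have hcyc : Cyc H := by
      apply cyc_of_val hHs
      intro i j hi hj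
      have ei : i = Fin.last t' := by apply Fin.ext; simp only [Fin.val_last]; omega
      have ej : j = Fin.castSucc 0 := by apply Fin.ext; simpa using hj
      rw [ei, ej]
      exact hab
    have e1 : ∀ c : Fin (t' + 1) → ℕ, eG H c * ne01 (c (Fin.last t')) (c (Fin.castSucc 0)) = eG H c :=
      fun c => eG_absorb hab c
    have e2 : ∀ c : Fin (t' + 1) → ℕ, eG H c * (1 - ne01 (c (Fin.last t')) (c (Fin.castSucc 0)))
        = 0 * eG H c := by
      intro c
      rw [mul_sub, e1 c]
      ring
    rw [L_congr _ _ _ _ e1, L_congr _ _ _ _ e2, L_smul]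
    have h := ih1 H hcyc
    have : (-1 : ℝ) ^ (t' + 1) * ((1 - y) * L (1 + y) (t' + 1) (eG H) + -y * (0 * L (1 + y) (t' + 1) (eG H)))
        = (1 - y) * ((-1 : ℝ) ^ (t' + 1) * L (1 + y) (t' + 1) (eG H)) := by ring
    rw [this]
    exact mul_pos (by linarith) h
  · have hne : (Fin.last t' : Fin (t' + 1)) ≠ Fin.castSucc 0 := by
      intro e
      have := congrArg Fin.val e
      simp at this
      omega
    have ht2 : 2 ≤ t' := by
      by_contra hcon
      have ht1 : t' = 1 := by omega
      subst ht1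
      apply hab
      apply SimpleGraph.Adj.symm
      apply hHs
      simp
    have hcyc : Cyc (H ⊔ SimpleGraph.edge (Fin.last t') (Fin.castSucc 0)) := by
      apply cyc_of_val
      · intro i j hij
        exact Or.inl (hHs i j hij)
      · intro i j hi hj
        right
        rw [SimpleGraph.edge_adj]
        have ei : i = Fin.last t' := by apply Fin.ext; simp only [Fin.val_last]; omega
        have ej : j = Fin.castSucc 0 := by apply Fin.ext; simpa using hj
        refine ⟨Or.inl ⟨ei, ej⟩, ?_⟩
        rw [ei, ej]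
        exact hne
    have e1 : ∀ c : Fin (t' + 1) → ℕ, eG H c * ne01 (c (Fin.last t')) (c (Fin.castSucc 0))
        = eG (H ⊔ SimpleGraph.edge (Fin.last t') (Fin.castSucc 0)) c :=
      fun c => eG_mul_ne01 H _ _ hne c
    rw [L_congr _ _ _ _ e1, L_ident (1 + y) H hab]
    have hcyc2 : Cyc (ident H) := by
      apply cyc_of_val
      · intro i j hij
        rw [ident, SimpleGraph.fromRel_adj]
        refine ⟨?_, Or.inl (Or.inl (hHs _ _ (by simpa using hij)))⟩
        rintro rfl
        omega
      · intro i j hi hj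
        rw [ident, SimpleGraph.fromRel_adj]
        refine ⟨?_, Or.inr (Or.inr ⟨by apply Fin.ext; simpa using hj, ?_⟩)⟩
        · rintro rfl
          omega
        · apply SimpleGraph.Adj.symm
          apply hHs
          simpa using hi
    have h1 := ih1 _ hcyc
    have h2 := ih2 t' ht2 (by omega) _ hcyc2
    have : (-1 : ℝ) ^ (t' + 1) * ((1 - y) * L (1 + y) (t' + 1) (eG (H ⊔ SimpleGraph.edge (Fin.last t') (Fin.castSucc 0)))
          + -y * L (1 + y) t' (eG (ident H)))
        = (1 - y) * ((-1 : ℝ) ^ (t' + 1) * L (1 + y) (t' + 1) (eG (H ⊔ SimpleGraph.edge (Fin.last t') (Fin.castSucc 0))))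
          + y * ((-1 : ℝ) ^ t' * L (1 + y) t' (eG (ident H))) := by ring
    rw [this]
    exact add_pos (mul_pos (by linarith) h1) (mul_pos hy0 h2)

end Pool.Agent.HamChrom
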