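import Pool.Agent.HamChrom.Tmpl

/-!
Instances of templates and the two kinds of targets.
-/

set_option autoImplicit false

namespace Pool.Agent.HamChrom

open Finset

theorem eXm_pow (col : ℕ → ℕ) (a z : ℕ) (ha : a < 5) : eXm col (2 ^ a) z = ne01 z (col a) := by
  unfold eXm
  rw [Finset.prod_eq_single a]
  · rw [Nat.testBit_two_pow_self, if_pos rfl]
  · intro j _ hja
    rw [Nat.testBit_two_pow_of_ne (fun h => hja h.symm)]
    simp
  · intro h
    exact absurd (Finset.mem_range.2 ha) h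

/-- value of the edge part of a template -/
noncomputable def Gp (a c r : ℕ) (g : ℕ) : ℝ :=
  (if g.testBit 0 then ne01 a c else 1) * (if g.testBit 1 then ne01 a r else 1) *
      (if g.testBit 2 then ne01 c r else 1)

/-- value of the star part of a template -/
noncomputable def Xp (a c r : ℕ) (x z : ℕ) : ℝ :=
  (if x.testBit 0 then ne01 z a else 1) * (if x.testBit 1 then ne01 z c else 1) *
      (if x.testBit 2 then ne01 z r else 1)

theorem TT.ev_eq (M : ℕ → (ℕ → ℝ) → ℝ) (ρ : ℝ) (a c r : ℕ) (t : TT) :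
    t.ev M ρ a c r = (HamChrom.ev ρ t.p - HamChrom.ev ρ t.n) * Gp a c r t.g * M t.k (Xp a c r t.x) := rfl

def gmk (a c r g : ℕ) : ℕ :=
  Nat.lor (Nat.lor (cond (g.testBit 0) (eb a c) 0) (cond (g.testBit 1) (eb a r) 0))
    (cond (g.testBit 2) (eb c r) 0)

def xmk (a c r x : ℕ) : ℕ :=
  Nat.lor (Nat.lor (cond (x.testBit 0) (2 ^ a) 0) (cond (x.testBit 1) (2 ^ c) 0))
    (cond (x.testBit 2) (2 ^ r) 0)

def bad (a c r g : ℕ) : Bool :=
  (g.testBit 0 && Nat.beq a c) || ((g.testBit 1 && Nat.beq a r) || (g.testBit 2 && Nat.beq c r))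

theorem gmk_ev (col : ℕ → ℕ) {a c r : ℕ} (ha : a < 5) (hc : c < 5) (hr : r < 5) (g : ℕ)
    (hb : bad a c r g = false) : eGm col (gmk a c r g) = Gp (col a) (col c) (col r) g := by
  unfold bad at hb
  rw [Bool.or_eq_false_iff, Bool.or_eq_false_iff, Bool.and_eq_false_iff, Bool.and_eq_false_iff,
    Bool.and_eq_false_iff] at hb
  obtain ⟨h1, h2, h3⟩ := hb
  unfold gmk Gp
  rw [eGm_or, eGm_or]
  congr 1
  · congr 1
    · cases hg : g.testBit 0
      · simp [eGm_zero]
      · rw [hg] at h1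
        have hne : a ≠ c := by
          rintro rfl
          simp at h1
        simp only [cond_true, if_true]
        exact eGm_eb col a ha c hc hne
    · cases hg : g.testBit 1
      · simp [eGm_zero]
      · rw [hg] at h2
        have hne : a ≠ r := by
          rintro rfl
          simp at h2
        simp only [cond_true, if_true]
        exact eGm_eb col a ha r hr hne
  · cases hg : g.testBit 2
    · simp [eGm_zero]
    · rw [hg] at h3
      have hne : c ≠ r := by
        rintro rfl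
        simp at h3
      simp only [cond_true, if_true]
      exact eGm_eb col c hc r hr hne

theorem Gp_bad (col : ℕ → ℕ) {a c r : ℕ} (g : ℕ) (hb : bad a c r g = true) :
    Gp (col a) (col c) (col r) g = 0 := by
  unfold bad at hb
  rw [Bool.or_eq_true, Bool.or_eq_true, Bool.and_eq_true, Bool.and_eq_true, Bool.and_eq_true] at hb
  unfold Gp
  rcases hb with ⟨h1, h2⟩ | ⟨h1, h2⟩ | ⟨h1, h2⟩
  · rw [Nat.eq_of_beq_eq_true h2, h1, if_pos rfl, ne01_self]
    ring
  · rw [Nat.eq_of_beq_eq_true h2, h1, if_pos rfl, ne01_self]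
    ring
  · rw [Nat.eq_of_beq_eq_true h2, h1, if_pos rfl, ne01_self]
    ring

theorem xmk_ev (col : ℕ → ℕ) {a c r : ℕ} (ha : a < 5) (hc : c < 5) (hr : r < 5) (x z : ℕ) :
    eXm col (xmk a c r x) z = Xp (col a) (col c) (col r) x z := by
  unfold xmk Xp
  rw [eXm_or, eXm_or]
  congr 1
  · congr 1
    · cases x.testBit 0
      · simp [eXm_zero]
      · simp only [cond_true, if_true]
        exact eXm_pow col a z ha
    · cases x.testBit 1
      · simp [eXm_zero]
      · simp only [cond_true, if_true]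
        exact eXm_pow col c z hc
  · cases x.testBit 2
    · simp [eXm_zero]
    · simp only [cond_true, if_true]
      exact eXm_pow col r z hr

/-- general term with template edge and star parts, extra edges `g'` and extra points `x'` -/
def instG (k a c r g x g' x' : ℕ) (p n : List ℕ) : FS :=
  cond (bad a c r g) [] [⟨k, Nat.lor (gmk a c r g) g', Nat.lor (xmk a c r x) x', p, n⟩]

theorem instG_ev (col : ℕ → ℕ) (M : ℕ → (ℕ → ℝ) → ℝ) (ρ : ℝ) (k : ℕ) {a c r : ℕ} (ha : a < 5)
    (hc : c < 5) (hr : r < 5) (g x g' x' : ℕ) (p n : List ℕ) :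
    FS.ev col M ρ (instG k a c r g x g' x' p n) =
      (HamChrom.ev ρ p - HamChrom.ev ρ n) * (Gp (col a) (col c) (col r) g * eGm col g') *
        M k (fun z => Xp (col a) (col c) (col r) x z * eXm col x' z) := by
  unfold instG
  cases hb : bad a c r g
  · simp only [cond_false, FS.ev, Tm.ev, add_zero]
    rw [eGm_or, gmk_ev col ha hc hr g hb]
    congr 1
    apply IsLin.congr (M k)
    intro z
    rw [eXm_or, xmk_ev col ha hc hr]
  · simp only [cond_true, FS.ev]
    rw [Gp_bad col g hb]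
    ring

/-! ### instances -/

def instF (a c r : ℕ) : List TT → FS
  | [] => []
  | t :: l => instG t.k a c r t.g t.x 0 0 t.p t.n ++ instF a c r l

theorem instF_ev (col : ℕ → ℕ) (M : ℕ → (ℕ → ℝ) → ℝ) (ρ : ℝ) {a c r : ℕ} (ha : a < 5) (hc : c < 5)
    (hr : r < 5) : ∀ l : List TT, FS.ev col M ρ (instF a c r l) = famEv M ρ (col a) (col c) (col r) l
  | [] => rfl
  | t :: l => by
    rw [instF, FS.ev_append, instF_ev col M ρ ha hc hr l, famEv, instG_ev col M ρ _ ha hc hr, TT.ev_eq,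
      eGm_zero, mul_one]
    congr 2
    apply IsLin.congr (M t.k)
    intro z
    rw [eXm_zero, mul_one]

/-! ### targets -/

/-- star edges from a point `p` to the points `0, 1, 2` selected by a template point mask -/
def sed (p x : ℕ) : ℕ :=
  Nat.lor (Nat.lor (cond (x.testBit 0) (eb 0 p) 0) (cond (x.testBit 1) (eb 1 p) 0))
    (cond (x.testBit 2) (eb 2 p) 0)

theorem sed_ev (col : ℕ → ℕ) (p x : ℕ) (hp : p < 5) (h0 : p ≠ 0) (h1 : p ≠ 1)
    (h2 : x.testBit 2 = true → p ≠ 2) :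
    eGm col (sed p x) = Xp (col 0) (col 1) (col 2) x (col p) := by
  unfold sed Xp
  rw [eGm_or, eGm_or]
  congr 1
  · congr 1
    · cases x.testBit 0
      · simp [eGm_zero]
      · simp only [cond_true, if_true]
        rw [eGm_eb col 0 (by norm_num) p hp (fun h => h0 h.symm), ne01_comm]
    · cases x.testBit 1
      · simp [eGm_zero]
      · simp only [cond_true, if_true]
        rw [eGm_eb col 1 (by norm_num) p hp (fun h => h1 h.symm), ne01_comm]
  · cases hx : x.testBit 2
    · simp [eGm_zero]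
    · simp only [cond_true, if_true]
      rw [eGm_eb col 2 (by norm_num) p hp (fun h => h2 hx h.symm), ne01_comm]

/-- one-hub target of a template term -/
def tgI (E K Wl : List ℕ) (t : TT) : FS :=
  match t.k with
  | 0 => instG 0 0 1 2 t.g t.x 0 0 (mulL E t.p) (mulL E t.n)
  | 1 => instG 3 0 1 2 t.g t.x 0 0 (mulL E t.p) (mulL E t.n)
  | 2 => instG 4 0 1 2 t.g t.x 0 0 (mulL E t.p) (mulL E t.n)
  | 3 => instG 3 0 1 2 t.g t.x 0 0 (mulL E t.p) (mulL E t.n) ++
      instG 1 0 1 2 t.g t.x 0 4 (mulL K t.p) (mulL K t.n)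
  | 4 => instG 4 0 1 2 t.g t.x 0 0 (mulL E t.p) (mulL E t.n) ++
      (instG 2 0 1 2 t.g t.x 0 4 (mulL K t.p) (mulL K t.n) ++
        cond (t.x.testBit 2) [] (instG 4 0 1 2 t.g 0 (sed 2 t.x) 4 (mulL Wl t.p) (mulL Wl t.n)))
  | _ => []

/-- hub-increment target of a template term -/
def tgII (K Wl : List ℕ) (t : TT) : FS :=
  match t.k with
  | 3 => instG 3 0 1 2 t.g 0 (sed 4 t.x) 16 (mulL Wl t.p) (mulL Wl t.n) ++
      (instG 1 0 1 2 t.g 0 (sed 4 t.x) 0 (mulL K t.n) (mulL K t.p) ++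
        instG 1 0 1 2 t.g 0 (sed 4 t.x) 16 (mulL K t.p) (mulL K t.n))
  | 4 => instG 4 0 1 2 t.g 0 (sed 4 t.x) 16 (mulL Wl t.p) (mulL Wl t.n) ++
      (instG 2 0 1 2 t.g 0 (sed 4 t.x) 0 (mulL K t.n) (mulL K t.p) ++
        instG 2 0 1 2 t.g 0 (sed 4 t.x) 16 (mulL K t.p) (mulL K t.n))
  | _ => []

theorem Xp_zero (a c r z : ℕ) : Xp a c r 0 z = 1 := by simp [Xp]

/-- the relation between the functionals of a one-hub extension and those of the word -/
structure Ext (M M' : ℕ → (ℕ → ℝ) → ℝ) (u : ℕ) (w κ : ℝ) : Prop where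
  h0 : ∀ f, M' 0 f = M 0 f
  h1 : ∀ f, M' 1 f = M 3 f
  h2 : ∀ f, M' 2 f = M 4 f
  h3 : ∀ f, M' 3 f = M 3 f + κ * M 1 (fun z => f z * ne01 z u)
  h4 : ∀ f, M' 4 f = M 4 f + κ * M 2 (fun z => f z * ne01 z u) + w * (f u * M 4 (fun z => ne01 z u))
  h5 : ∀ k, 5 ≤ k → ∀ f, M' k f = 0

theorem tgI_ev (col : ℕ → ℕ) (M M' : ℕ → (ℕ → ℝ) → ℝ) (ρ w κ e : ℝ) (E K Wl : List ℕ)
    (hE : ev ρ E = e) (hK : ev ρ K = e * κ) (hW : ev ρ Wl = e * w) (hM : Ext M M' (col 2) w κ) (t : TT) :
    FS.ev col M ρ (tgI E K Wl t) = e * t.ev M' ρ (col 0) (col 1) (col 2) := by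
  have l0 : (0 : ℕ) < 5 := by norm_num
  have l1 : (1 : ℕ) < 5 := by norm_num
  have l2 : (2 : ℕ) < 5 := by norm_num
  have key : ∀ k : ℕ, FS.ev col M ρ (instG k 0 1 2 t.g t.x 0 0 (mulL E t.p) (mulL E t.n))
      = e * ((ev ρ t.p - ev ρ t.n) * Gp (col 0) (col 1) (col 2) t.g * M k (Xp (col 0) (col 1) (col 2) t.x)) := by
    intro k
    rw [instG_ev col M ρ k l0 l1 l2, ev_mulL, ev_mulL, hE, eGm_zero]
    have : M k (fun z => Xp (col 0) (col 1) (col 2) t.x z * eXm col 0 z)
        = M k (Xp (col 0) (col 1) (col 2) t.x) := by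
      apply IsLin.congr (M k)
      intro z
      rw [eXm_zero, mul_one]
    rw [this]
    ring
  have keyK : ∀ k : ℕ, FS.ev col M ρ (instG k 0 1 2 t.g t.x 0 4 (mulL K t.p) (mulL K t.n))
      = e * ((ev ρ t.p - ev ρ t.n) * Gp (col 0) (col 1) (col 2) t.g *
        (κ * M k (fun z => Xp (col 0) (col 1) (col 2) t.x z * ne01 z (col 2)))) := by
    intro k
    rw [instG_ev col M ρ k l0 l1 l2, ev_mulL, ev_mulL, hK, eGm_zero]
    have : M k (fun z => Xp (col 0) (col 1) (col 2) t.x z * eXm col 4 z)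
        = M k (fun z => Xp (col 0) (col 1) (col 2) t.x z * ne01 z (col 2)) := by
      apply IsLin.congr (M k)
      intro z
      have : (4 : ℕ) = 2 ^ 2 := by norm_num
      rw [this, eXm_pow col 2 z l2]
    rw [this]
    ring
  rw [TT.ev_eq]
  unfold tgI
  split
  · next hk => rw [hk, key, hM.h0]
  · next hk => rw [hk, key, hM.h1]
  · next hk => rw [hk, key, hM.h2]
  · next hk =>
    rw [hk, FS.ev_append, key, keyK, hM.h3]
    ring
  · next hk =>
    rw [hk, FS.ev_append, FS.ev_append, key, keyK, hM.h4]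
    have hlast : FS.ev col M ρ (cond (t.x.testBit 2) [] (instG 4 0 1 2 t.g 0 (sed 2 t.x) 4
        (mulL Wl t.p) (mulL Wl t.n)))
        = e * ((ev ρ t.p - ev ρ t.n) * Gp (col 0) (col 1) (col 2) t.g *
          (w * (Xp (col 0) (col 1) (col 2) t.x (col 2) * M 4 (fun z => ne01 z (col 2))))) := by
      cases hx : t.x.testBit 2
      · simp only [cond_false]
        rw [instG_ev col M ρ 4 l0 l1 l2, ev_mulL, ev_mulL, hW,
          sed_ev col 2 t.x l2 (by norm_num) (by norm_num) (fun h => by rw [hx] at h; exact absurd h (by simp))]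
        have : M 4 (fun z => Xp (col 0) (col 1) (col 2) 0 z * eXm col 4 z)
            = M 4 (fun z => ne01 z (col 2)) := by
          apply IsLin.congr (M 4)
          intro z
          have : (4 : ℕ) = 2 ^ 2 := by norm_num
          rw [this, eXm_pow col 2 z l2, Xp_zero, one_mul]
        rw [this]
        ring
      · simp only [cond_true, FS.ev]
        have : Xp (col 0) (col 1) (col 2) t.x (col 2) = 0 := by
          unfold Xp
          rw [hx, if_pos rfl, ne01_self, mul_zero]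
        rw [this]
        ring
    rw [hlast]
    ring
  · next hk0 hk1 hk2 hk3 hk4 =>
    have h5 : 5 ≤ t.k := by
      by_contra h
      have : t.k < 5 := by omega
      interval_cases hk : t.k
      · exact hk0 rfl
      · exact hk1 rfl
      · exact hk2 rfl
      · exact hk3 rfl
      · exact hk4 rfl
    rw [hM.h5 _ h5]
    simp [FS.ev]

/-- increments of the functionals when the hub with colour `p` is added -/
noncomputable def incr (M : ℕ → (ℕ → ℝ) → ℝ) (w κ : ℝ) (p : ℕ) (k : ℕ) (f : ℕ → ℝ) : ℝ :=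
  if k = 3 then f p * (w * M 3 (fun z => ne01 z p) - κ * M 1 (fun z => 1 - ne01 z p))
  else if k = 4 then f p * (w * M 4 (fun z => ne01 z p) - κ * M 2 (fun z => 1 - ne01 z p))
  else 0

theorem tgII_ev (col : ℕ → ℕ) (M : ℕ → (ℕ → ℝ) → ℝ) (hM : ∀ k, IsLin (M k)) (ρ w κ e : ℝ)
    (K Wl : List ℕ) (hK : ev ρ K = e * κ) (hW : ev ρ Wl = e * w) (t : TT) :
    FS.ev col M ρ (tgII K Wl t) = e * t.ev (incr M w κ (col 4)) ρ (col 0) (col 1) (col 2) := by
  have l0 : (0 : ℕ) < 5 := by norm_num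
  have l1 : (1 : ℕ) < 5 := by norm_num
  have l2 : (2 : ℕ) < 5 := by norm_num
  have l4 : (4 : ℕ) < 5 := by norm_num
  have hs : eGm col (sed 4 t.x) = Xp (col 0) (col 1) (col 2) t.x (col 4) :=
    sed_ev col 4 t.x l4 (by norm_num) (by norm_num) (fun _ => by norm_num)
  have k0 : ∀ (k : ℕ) (p n : List ℕ), FS.ev col M ρ (instG k 0 1 2 t.g 0 (sed 4 t.x) 0 p n)
      = (ev ρ p - ev ρ n) * Gp (col 0) (col 1) (col 2) t.g * (Xp (col 0) (col 1) (col 2) t.x (col 4) *
        M k (fun _ => 1)) := by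
    intro k p n
    rw [instG_ev col M ρ k l0 l1 l2, hs]
    have : M k (fun z => Xp (col 0) (col 1) (col 2) 0 z * eXm col 0 z) = M k (fun _ => 1) := by
      apply IsLin.congr (M k)
      intro z
      rw [eXm_zero, Xp_zero, mul_one]
    rw [this]
    ring
  have k16 : ∀ (k : ℕ) (p n : List ℕ), FS.ev col M ρ (instG k 0 1 2 t.g 0 (sed 4 t.x) 16 p n)
      = (ev ρ p - ev ρ n) * Gp (col 0) (col 1) (col 2) t.g * (Xp (col 0) (col 1) (col 2) t.x (col 4) *
        M k (fun z => ne01 z (col 4))) := by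
    intro k p n
    rw [instG_ev col M ρ k l0 l1 l2, hs]
    have : M k (fun z => Xp (col 0) (col 1) (col 2) 0 z * eXm col 16 z)
        = M k (fun z => ne01 z (col 4)) := by
      apply IsLin.congr (M k)
      intro z
      have : (16 : ℕ) = 2 ^ 4 := by norm_num
      rw [this, eXm_pow col 4 z l4, Xp_zero, one_mul]
    rw [this]
    ring
  have hsub : ∀ k, M k (fun z => 1 - ne01 z (col 4)) = M k (fun _ => 1) - M k (fun z => ne01 z (col 4)) :=
    fun k => (hM k).sub _ _
  rw [TT.ev_eq]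
  unfold tgII
  split
  · next hk =>
    rw [FS.ev_append, FS.ev_append, k16, k0, k16, ev_mulL, ev_mulL, ev_mulL, ev_mulL, hK, hW]
    simp only [incr, hk, if_true, hsub]
    ring
  · next hk =>
    rw [FS.ev_append, FS.ev_append, k16, k0, k16, ev_mulL, ev_mulL, ev_mulL, ev_mulL, hK, hW]
    simp only [incr, hk, if_true, hsub]
    norm_num
    ring
  · next h3 h4 =>
    have : incr M w κ (col 4) t.k (Xp (col 0) (col 1) (col 2) t.x) = 0 := by
      unfold incr
      rw [if_neg (fun h => h3 h), if_neg (fun h => h4 h)]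
    rw [this]
    simp [FS.ev]

def famI (E K Wl : List ℕ) : List TT → FS
  | [] => []
  | t :: l => tgI E K Wl t ++ famI E K Wl l

def famII (K Wl : List ℕ) : List TT → FS
  | [] => []
  | t :: l => tgII K Wl t ++ famII K Wl l

theorem famI_ev (col : ℕ → ℕ) (M M' : ℕ → (ℕ → ℝ) → ℝ) (ρ w κ e : ℝ) (E K Wl : List ℕ)
    (hE : ev ρ E = e) (hK : ev ρ K = e * κ) (hW : ev ρ Wl = e * w) (hM : Ext M M' (col 2) w κ) :
    ∀ l : List TT, FS.ev col M ρ (famI E K Wl l) = e * famEv M' ρ (col 0) (col 1) (col 2) l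
  | [] => by simp [famI, FS.ev, famEv]
  | t :: l => by
    rw [famI, FS.ev_append, tgI_ev col M M' ρ w κ e E K Wl hE hK hW hM,
      famI_ev col M M' ρ w κ e E K Wl hE hK hW hM l, famEv]
    ring

theorem famII_ev (col : ℕ → ℕ) (M : ℕ → (ℕ → ℝ) → ℝ) (hM : ∀ k, IsLin (M k)) (ρ w κ e : ℝ)
    (K Wl : List ℕ) (hK : ev ρ K = e * κ) (hW : ev ρ Wl = e * w) :
    ∀ l : List TT, FS.ev col M ρ (famII K Wl l)
      = e * famEv (incr M w κ (col 4)) ρ (col 0) (col 1) (col 2) l
  | [] => by simp [famII, FS.ev, famEv]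
  | t :: l => by
    rw [famII, FS.ev_append, tgII_ev col M hM ρ w κ e K Wl hK hW,
      famII_ev col M hM ρ w κ e K Wl hK hW l, famEv]
    ring

end Pool.Agent.HamChrom
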