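import Pool.Agent.HamChrom.Check

/-!
Templates (families of hypotheses with two vertex arguments and a reference vertex), their
instances as formal sums, one-hub targets and hub-increment targets.
-/

set_option autoImplicit false

namespace Pool.Agent.HamChrom

open Finset

/-! ### polynomial lists -/

def addL : List ℕ → List ℕ → List ℕ
  | [], m => m
  | a :: l, [] => a :: l
  | a :: l, b :: m => (a + b) :: addL l m

def mulL : List ℕ → List ℕ → List ℕ
  | [], _ => []
  | a :: l, m => addL (m.map (fun b => a * b)) (0 :: mulL l m)

theorem ev_addL (ρ : ℝ) : ∀ l m : List ℕ, ev ρ (addL l m) = ev ρ l + ev ρ m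
  | [], m => by simp [addL, ev]
  | a :: l, [] => by simp [addL, ev]
  | a :: l, b :: m => by
    simp only [addL, ev, ev_addL ρ l m]
    push_cast
    ring

theorem ev_map_mul (ρ : ℝ) (a : ℕ) : ∀ m : List ℕ, ev ρ (m.map (fun b => a * b)) = a * ev ρ m
  | [] => by simp [ev]
  | b :: m => by
    simp only [List.map_cons, ev, ev_map_mul ρ a m]
    push_cast
    ring

theorem ev_mulL (ρ : ℝ) : ∀ l m : List ℕ, ev ρ (mulL l m) = ev ρ l * ev ρ m
  | [], m => by simp [mulL, ev]
  | a :: l, m => by
    simp only [mulL, ev_addL, ev_map_mul, ev, ev_mulL ρ l m]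
    push_cast
    ring

/-! ### templates -/

/-- template term; points: bit 0 = first argument, bit 1 = second argument, bit 2 = reference;
edges: bit 0 = (first, second), bit 1 = (first, ref), bit 2 = (second, ref). -/
structure TT where
  k : ℕ
  g : ℕ
  x : ℕ
  p : List ℕ
  n : List ℕ

/-- the real value of a template term -/
noncomputable def TT.ev (M : ℕ → (ℕ → ℝ) → ℝ) (ρ : ℝ) (a c r : ℕ) (t : TT) : ℝ :=
  (HamChrom.ev ρ t.p - HamChrom.ev ρ t.n) *
    ((if t.g.testBit 0 then ne01 a c else 1) * (if t.g.testBit 1 then ne01 a r else 1) *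
      (if t.g.testBit 2 then ne01 c r else 1)) *
    M t.k (fun z => (if t.x.testBit 0 then ne01 z a else 1) * (if t.x.testBit 1 then ne01 z c else 1) *
      (if t.x.testBit 2 then ne01 z r else 1))

noncomputable def famEv (M : ℕ → (ℕ → ℝ) → ℝ) (ρ : ℝ) (a c r : ℕ) : List TT → ℝ
  | [] => 0
  | t :: l => t.ev M ρ a c r + famEv M ρ a c r l

/-! ### masks -/

/-- edge mask of the pair `(i, j)` -/
def eb (i j : ℕ) : ℕ :=
  if i < j then 2 ^ (i * (9 - i) / 2 + (j - i - 1)) else 2 ^ (j * (9 - j) / 2 + (i - j - 1))

theorem eGm_eb (col : ℕ → ℕ) : ∀ i < 5, ∀ j < 5, i ≠ j → eGm col (eb i j) = ne01 (col i) (col j) := by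
  intro i hi j hj hij
  have key : ∀ k < 10, eGm col (2 ^ k) = ne01 (col (edg k).1) (col (edg k).2) := by
    intro k hk
    unfold eGm
    rw [Finset.prod_eq_single k]
    · rw [Nat.testBit_two_pow_self, if_pos rfl]
    · intro j _ hjk
      rw [Nat.testBit_two_pow_of_ne (fun h => hjk h.symm)]
      simp
    · intro h
      exact absurd (Finset.mem_range.2 hk) h
  interval_cases i <;> interval_cases j <;> first
    | exact absurd rfl hij
    | (simp only [eb]; norm_num; first
        | exact key 0 (by norm_num)
        | exact key 1 (by norm_num)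
        | exact key 2 (by norm_num)
        | exact key 3 (by norm_num)
        | exact key 4 (by norm_num)
        | exact key 5 (by norm_num)
        | exact key 6 (by norm_num)
        | exact key 7 (by norm_num)
        | exact key 8 (by norm_num)
        | exact key 9 (by norm_num)
        | (rw [ne01_comm]; first
          | exact key 0 (by norm_num)
          | exact key 1 (by norm_num)
          | exact key 2 (by norm_num)
          | exact key 3 (by norm_num)
          | exact key 4 (by norm_num)
          | exact key 5 (by norm_num)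
          | exact key 6 (by norm_num)
          | exact key 7 (by norm_num)
          | exact key 8 (by norm_num)
          | exact key 9 (by norm_num)))

end Pool.Agent.HamChrom
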