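import Pool.Agent.HamChrom.Defs
import Pool.Agent.HamChrom.Basic

/-!
The Whitney sum is the number of proper colourings at natural numbers; `L x n (eG G)` is the
Whitney sum at real `x`.
-/

set_option autoImplicit false

namespace Pool.Agent.HamChrom

open Finset

/-- proper colourings -/
def Proper {V : Type} (G : SimpleGraph V) (c : V → ℕ) : Prop := ∀ i j, G.Adj i j → c i ≠ c j

open Classical in
/-- indicator of proper colourings -/
noncomputable def eG {V : Type} (G : SimpleGraph V) (c : V → ℕ) : ℝ :=
  if Proper G c then 1 else 0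

theorem eG_pos {V : Type} {G : SimpleGraph V} {c : V → ℕ} (h : Proper G c) : eG G c = 1 := by
  unfold eG; rw [if_pos h]

theorem eG_neg {V : Type} {G : SimpleGraph V} {c : V → ℕ} (h : ¬ Proper G c) : eG G c = 0 := by
  unfold eG; rw [if_neg h]

theorem eG_congr {V V' : Type} {G : SimpleGraph V} {c : V → ℕ} {G' : SimpleGraph V'} {c' : V' → ℕ}
    (h : Proper G c ↔ Proper G' c') : eG G c = eG G' c' := by
  by_cases hp : Proper G c
  · rw [eG_pos hp, eG_pos (h.1 hp)]
  · rw [eG_neg hp, eG_neg (fun h' => hp (h.2 h'))]

theorem eG_nonneg {V : Type} (G : SimpleGraph V) (c : V → ℕ) : 0 ≤ eG G c := by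
  unfold eG; split_ifs <;> norm_num

theorem eG_inv {n : ℕ} (G : SimpleGraph (Fin n)) : Inv (eG G) := by
  intro h c
  apply eG_congr
  constructor
  · intro H i j hij e
    exact H i j hij (by simp [e])
  · intro H i j hij e
    exact H i j hij (h.injective e)

/-- the Whitney sum -/
noncomputable def whitney {V : Type} [Fintype V] [DecidableEq V] (G : SimpleGraph V)
    [DecidableRel G.Adj] (x : ℝ) : ℝ :=
  ∑ S ∈ G.edgeFinset.powerset, ((-1 : ℝ) ^ S.card) *
    x ^ Nat.card (SimpleGraph.fromEdgeSet (S : Set (Sym2 V))).ConnectedComponent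

theorem whitney_isPoly {V : Type} [Fintype V] [DecidableEq V] (G : SimpleGraph V)
    [DecidableRel G.Adj] : IsPoly (whitney G) := by
  unfold whitney
  exact IsPoly.sum _ _ (fun S _ => (IsPoly.const _).mul (IsPoly.id.pow _))

open Classical in
/-- colourings constant along the edges of a graph -/
theorem card_const_colourings {V : Type} [Fintype V] (H : SimpleGraph V) (k : ℕ) :
    Nat.card {c : V → Fin k // ∀ i j, H.Adj i j → c i = c j}
      = k ^ Nat.card H.ConnectedComponent := by
  have e : {c : V → Fin k // ∀ i j, H.Adj i j → c i = c j} ≃ (H.ConnectedComponent → Fin k) :=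
    { toFun := fun c => fun K => K.lift c.1 (by
        intro v w p _
        induction p with
        | nil => rfl
        | cons hadj p ih => exact (c.2 _ _ hadj).trans (ih (by simp_all)))
      invFun := fun f => ⟨fun v => f (H.connectedComponentMk v), by
        intro i j hij
        have : H.connectedComponentMk i = H.connectedComponentMk j :=
          SimpleGraph.ConnectedComponent.connectedComponentMk_eq_of_adj hij
        show f (H.connectedComponentMk i) = f (H.connectedComponentMk j)
        rw [this]⟩
      left_inv := by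
        intro c
        apply Subtype.ext
        funext v
        rfl
      right_inv := by
        intro f
        funext K
        refine SimpleGraph.ConnectedComponent.ind (fun v => ?_) K
        rfl }
  rw [Nat.card_congr e, Nat.card_eq_fintype_card, Fintype.card_fun, Fintype.card_fin,
    Nat.card_eq_fintype_card]

open Classical in
theorem whitney_nat {V : Type} [Fintype V] [DecidableEq V] (G : SimpleGraph V)
    [DecidableRel G.Adj] (k : ℕ) :
    whitney G (k : ℝ) = ∑ c : V → Fin k, eG G (fun v => (c v : ℕ)) := by
  unfold whitney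
  -- mono c = set of monochromatic edges
  have h1 : ∀ S ∈ G.edgeFinset.powerset, ((-1 : ℝ) ^ S.card) *
      (k : ℝ) ^ Nat.card (SimpleGraph.fromEdgeSet (S : Set (Sym2 V))).ConnectedComponent
      = ∑ c : V → Fin k, (if S ⊆ G.edgeFinset.filter (fun e => (e.map c).IsDiag) then
          ((-1 : ℝ) ^ S.card) else 0) := by
    intro S hS
    rw [Finset.mem_powerset] at hS
    rw [Finset.sum_ite, Finset.sum_const_zero, add_zero, Finset.sum_const, nsmul_eq_mul, mul_comm]
    congr 1
    rw [← Nat.cast_pow, ← card_const_colourings, ← Fintype.card_subtype, ← Nat.card_eq_fintype_card]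
    congr 1
    apply Nat.card_congr
    apply Equiv.subtypeEquivRight
    intro c
    constructor
    · intro H e he
      rw [Finset.mem_filter]
      refine ⟨hS he, ?_⟩
      induction e using Sym2.ind with
      | _ a b =>
        have hab : G.Adj a b := by
          have := hS he
          rwa [SimpleGraph.mem_edgeFinset, SimpleGraph.mem_edgeSet] at this
        have := H a b (by
          rw [SimpleGraph.fromEdgeSet_adj]
          exact ⟨he, hab.ne⟩)
        simp [this]
    · intro H i j hij
      rw [SimpleGraph.fromEdgeSet_adj] at hij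
      have := H hij.1
      rw [Finset.mem_filter] at this
      simpa using this.2
  rw [Finset.sum_congr rfl h1, Finset.sum_comm]
  apply Finset.sum_congr rfl
  intro c _
  set M := G.edgeFinset.filter (fun e => (e.map c).IsDiag) with hM
  have h2 : ∑ S ∈ G.edgeFinset.powerset, (if S ⊆ M then ((-1 : ℝ) ^ S.card) else 0)
      = ∑ S ∈ M.powerset, (-1 : ℝ) ^ S.card := by
    rw [← Finset.sum_filter]
    apply Finset.sum_congr _ (fun _ _ => rfl)
    ext S
    rw [Finset.mem_filter, Finset.mem_powerset, Finset.mem_powerset]
    exact ⟨fun h => h.2, fun h => ⟨h.trans (Finset.filter_subset _ _), h⟩⟩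
  rw [h2]
  have h3 : ∑ S ∈ M.powerset, (-1 : ℝ) ^ S.card = if M = ∅ then 1 else 0 := by
    have := Finset.sum_powerset_neg_one_pow_card (x := M)
    have h4 : ((∑ m ∈ M.powerset, (-1 : ℤ) ^ m.card : ℤ) : ℝ) = ((if M = ∅ then 1 else 0 : ℤ) : ℝ) := by
      rw [this]
    push_cast at h4
    simpa using h4
  rw [h3]
  have hiff : M = ∅ ↔ Proper G (fun v => (c v : ℕ)) := by
    constructor
    · intro hM0 i j hij e
      have : s(i, j) ∈ M := by
        rw [hM, Finset.mem_filter, SimpleGraph.mem_edgeFinset, SimpleGraph.mem_edgeSet]
        exact ⟨hij, by simpa using Fin.ext e⟩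
      rw [hM0] at this
      exact absurd this (Finset.notMem_empty _)
    · intro H
      rw [Finset.eq_empty_iff_forall_notMem]
      intro e he
      rw [hM, Finset.mem_filter] at he
      induction e using Sym2.ind with
      | _ a b =>
        have hab : G.Adj a b := by
          have := he.1
          rwa [SimpleGraph.mem_edgeFinset, SimpleGraph.mem_edgeSet] at this
        have h5 : c a = c b := by simpa using he.2
        exact H a b hab (by simp [h5])
  by_cases hp : M = ∅
  · rw [if_pos hp, eG_pos (hiff.1 hp)]
  · rw [if_neg hp, eG_neg (fun h' => hp (hiff.2 h'))]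

theorem L_eG_isPoly {n : ℕ} (G : SimpleGraph (Fin n)) : IsPoly (fun x => L x n (eG G)) :=
  L_isPoly n (fun _ => eG G) (fun _ => IsPoly.const _)

/-- Transport along an enumeration of the vertices. -/
theorem whitney_eq_L {V : Type} [Fintype V] [DecidableEq V] (G : SimpleGraph V)
    [DecidableRel G.Adj] {n : ℕ} (σ : Fin n ≃ V) (x : ℝ) :
    whitney G x = L x n (eG (G.comap σ)) := by
  refine IsPoly.eq_of_nat (whitney_isPoly G) (L_eG_isPoly _) ?_ x
  intro k
  rw [whitney_nat, L_nat k n _ (eG_inv _)]
  apply Fintype.sum_equiv (Equiv.arrowCongr σ.symm (Equiv.refl (Fin k)))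
  intro c
  apply eG_congr
  constructor
  · intro H i j hij
    exact H (σ i) (σ j) hij
  · intro H i j hij
    have := H (σ.symm i) (σ.symm j) (by simpa using hij)
    simpa using this

/-- relabelling of the vertices -/
theorem L_eG_comap {n : ℕ} (G : SimpleGraph (Fin n)) (σ : Fin n ≃ Fin n) (x : ℝ) :
    L x n (eG (G.comap σ)) = L x n (eG G) := by
  classical
  rw [← whitney_eq_L G σ x]
  have := whitney_eq_L G (Equiv.refl (Fin n)) x
  rw [this]
  rfl

end Pool.Agent.HamChrom
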